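import Pool.Agent.Q2.VI.Tfin
import Pool.Agent.Q2.RP.Trn

/-!
Vector invariants of block triangular groups: groups given by levels.
-/

set_option autoImplicit false
set_option linter.unusedSectionVars false

open Matrix MvPolynomial AlgebraicGeometry CategoryTheory Pool.Agent.H920R2

universe u v

namespace Pool.Agent.Q2.VI

section lv

variable {F : Type v} [Field F] [Fintype F]

/-- The group of a level function. -/
structure Lv {r : ℕ} (lv d : Fin r → ℕ) (g : Matrix (Fin r) (Fin r) F) : Prop where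
  det : g.det ≠ 0
  low : ∀ i j, lv i < lv j → g i j = 0
  one : ∀ i, (∀ j, lv j = lv i → j = i) → g i i ^ d i = 1

lemma det_blk {t : ℕ} {a : Fin t → ℕ} {B : Matrix (Rw a) (Rw a) F}
    (h : ∀ w w' : Rw a, w.1 < w'.1 → B w w' = 0) (hB : B.det ≠ 0) (i : Fin t) :
    (blk B i).det ≠ 0 := by
  classical
  have h1 : BlockTriangular Bᵀ (Sigma.fst : Rw a → Fin t) := fun w w' hw => h w' w hw
  have h2 := h1.det_fintype
  rw [det_transpose] at h2
  rw [h2, Finset.prod_ne_zero_iff] at hB
  have h3 := hB i (Finset.mem_univ i)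
  intro h4
  apply h3
  rw [← det_submatrix_equiv_self (Equiv.sigmaSubtype i).symm, ← h4, ← det_transpose]
  congr 1

variable {r : ℕ} (lv : Fin r → ℕ)

/-- The sizes of the levels. -/
noncomputable def sz (t : ℕ) (i : Fin t) : ℕ := Fintype.card {l : Fin r // lv l = (i : ℕ)}

/-- Sorting by levels. -/
lemma exists_sort : ∃ (t : ℕ) (e : Fin r ≃ Rw (sz lv t)), ∀ l, ((e l).1 : ℕ) = lv l := by
  classical
  let t := Finset.univ.sup lv + 1
  have ht : ∀ l, lv l < t := fun l => Nat.lt_succ_of_le (Finset.le_sup (Finset.mem_univ l))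
  let f : Fin r → Fin t := fun l => ⟨lv l, ht l⟩
  let e1 : (Σ i : Fin t, {l // f l = i}) ≃ Fin r := Equiv.sigmaFiberEquiv f
  let e2 : ∀ i : Fin t, {l // f l = i} ≃ Fin (sz lv t i) := fun i =>
    (Equiv.subtypeEquivRight fun l => Fin.ext_iff).trans (Fintype.equivFin _)
  exact ⟨t, e1.symm.trans (Equiv.sigmaCongrRight e2), fun l => rfl⟩

variable {lv} {d : Fin r → ℕ} {t : ℕ} (e : Fin r ≃ Rw (sz lv t))
  (he : ∀ l, ((e l).1 : ℕ) = lv l)

include he in
lemma level_symm (w : Rw (sz lv t)) : lv (e.symm w) = w.1 := by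
  have h1 := he (e.symm w)
  rw [Equiv.apply_symm_apply] at h1
  exact h1.symm

include he in
lemma alone_iff (w : Rw (sz lv t)) :
    (∀ j, lv j = lv (e.symm w) → j = e.symm w) ↔ sz lv t w.1 = 1 := by
  rw [level_symm e he]
  unfold sz
  rw [Fintype.card_eq_one_iff]
  constructor
  · intro h
    exact ⟨⟨e.symm w, level_symm e he w⟩, fun l => Subtype.ext (h l.1 l.2)⟩
  · rintro ⟨l, hl⟩ j hj
    have h1 := congrArg Subtype.val (hl ⟨j, hj⟩)
    have h2 := congrArg Subtype.val (hl ⟨e.symm w, level_symm e he w⟩)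
    change j = l at h1
    exact h1.trans h2.symm

/-- The orders of the roots of unity. -/
noncomputable def dd (q : ℕ) (d : Fin r → ℕ) (i : Fin t) : ℕ :=
  if h : 0 < sz lv t i then Nat.gcd (d (e.symm ⟨i, ⟨0, h⟩⟩)) (q - 1) else 1

lemma dd_dvd (q : ℕ) (i : Fin t) : dd e q d i ∣ q - 1 := by
  unfold dd
  split_ifs
  · exact Nat.gcd_dvd_right _ _
  · exact one_dvd _

include he in
lemma lv_iff (g : Matrix (Fin r) (Fin r) F) :
    Lv lv d g ↔ Gm (sz lv t) (dd e (Fintype.card F) d) (g.submatrix e.symm e.symm) := by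
  have hdet : (g.submatrix e.symm e.symm).det = g.det := det_submatrix_equiv_self _ _
  have hone : ∀ (i : Fin t) (l : Fin (sz lv t i)), sz lv t i = 1 → g.det ≠ 0 →
      g (e.symm ⟨i, l⟩) (e.symm ⟨i, l⟩) ≠ 0 →
      (g (e.symm ⟨i, l⟩) (e.symm ⟨i, l⟩) ^ d (e.symm ⟨i, l⟩) = 1 ↔
        (g.submatrix e.symm e.symm) ⟨i, l⟩ ⟨i, l⟩ ^ dd e (Fintype.card F) d i = 1) := by
    intro i l hi _ hg
    have h0 : 0 < sz lv t i := by omega
    have h1 : l = ⟨0, h0⟩ := Fin.ext (by have := l.2; omega)
    subst h1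
    unfold dd
    rw [dif_pos h0, submatrix_apply]
    constructor
    · intro h
      exact pow_gcd_eq_one.2 ⟨h, FiniteField.pow_card_sub_one_eq_one _ hg⟩
    · intro h
      exact (pow_gcd_eq_one.1 h).1
  have hlow : (∀ i j, lv i < lv j → g i j = 0) ↔ ∀ w w' : Rw (sz lv t), w.1 < w'.1 →
      (g.submatrix e.symm e.symm) w w' = 0 := by
    constructor
    · intro h w w' hw
      refine h _ _ ?_
      rw [level_symm e he, level_symm e he]
      exact hw
    · intro h i j hij
      have h1 := h (e i) (e j) (by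
        rw [Fin.lt_def, he, he]
        exact hij)
      rwa [submatrix_apply, Equiv.symm_apply_apply, Equiv.symm_apply_apply] at h1
  have hne : (∀ w w' : Rw (sz lv t), w.1 < w'.1 → (g.submatrix e.symm e.symm) w w' = 0) →
      g.det ≠ 0 → ∀ (i : Fin t) (l : Fin (sz lv t i)), sz lv t i = 1 →
      g (e.symm ⟨i, l⟩) (e.symm ⟨i, l⟩) ≠ 0 := by
    intro h1 h2 i l hi h0
    have h3 := det_blk h1 (by rwa [hdet]) i
    apply h3
    have h4 : Unique (Fin (sz lv t i)) := by
      rw [hi]
      exact inferInstance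
    have h5 := det_unique (blk (g.submatrix e.symm e.symm) i)
    have h6 : (default : Fin (sz lv t i)) = l := Subsingleton.elim _ _
    rw [h6] at h5
    exact h5.trans h0
  constructor
  · rintro ⟨h1, h2, h3⟩
    have h2' := hlow.1 h2
    refine ⟨h2', det_blk h2' (by rwa [hdet]), fun i hi l => ?_⟩
    refine (hone i l hi h1 (hne h2' h1 i l hi)).1 (h3 _ ?_)
    exact (alone_iff e he ⟨i, l⟩).2 hi
  · intro h
    have hdet0 : g.det ≠ 0 := by
      rw [← hdet]
      exact h.det_ne
    refine ⟨hdet0, hlow.2 h.low, fun i hi => ?_⟩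
    obtain ⟨w, rfl⟩ := e.symm.surjective i
    have hi' := (alone_iff e he w).1 hi
    exact (hone w.1 w.2 hi' hdet0 (hne h.low hdet0 w.1 w.2 hi')).2 (h.one w.1 hi' w.2)

end lv

section main

variable {F : Type} {k : Type u} [Field F] [Fintype F] [Field k] [Algebra F k] {m r : ℕ}

lemma sg_rename {ι ι' : Type} [Fintype ι] [DecidableEq ι] [Fintype ι'] [DecidableEq ι']
    (e : ι ≃ ι') (g : Matrix ι ι F) (f : MvPolynomial (ι × Fin m) k) :
    sg k m (g.submatrix e.symm e.symm) (rename (fun w : ι × Fin m => (e w.1, w.2)) f) =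
      rename (fun w : ι × Fin m => (e w.1, w.2)) (sg k m g f) := by
  have h1 : (sg k m (g.submatrix e.symm e.symm)).comp
      (rename (fun w : ι × Fin m => (e w.1, w.2))) =
      (rename (fun w : ι × Fin m => (e w.1, w.2))).comp (sg k m g) := by
    apply MvPolynomial.algHom_ext
    rintro ⟨i, j⟩
    change sg k m (g.submatrix e.symm e.symm) (rename _ (X (i, j))) =
      rename _ (sg k m g (X (i, j)))
    rw [rename_X, sg_X, sg_X, map_sum, ← e.sum_comp]
    refine Finset.sum_congr rfl fun l _ => ?_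
    rw [map_mul, rename_C, rename_X, submatrix_apply, Equiv.symm_apply_apply,
      Equiv.symm_apply_apply]
  exact congrArg (fun φ : MvPolynomial (ι × Fin m) k →ₐ[k] MvPolynomial (ι' × Fin m) k => φ f) h1

/-- Resolution of the quotient by the group of a level function. -/
theorem resolvable_lv [NeZero m] (lv d : Fin r → ℕ)
    (A : Subalgebra k (MvPolynomial (Fin r × Fin m) k))
    (hA : ∀ f, f ∈ A ↔ ∀ g : Matrix (Fin r) (Fin r) F, Lv lv d g → sg k m g f = f) :
    IsVariety (X := Spec (CommRingCat.of A))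
      (Spec.map (CommRingCat.ofHom (algebraMap k A))) ∧
    HasResolution (X := Spec (CommRingCat.of A))
      (Spec.map (CommRingCat.ofHom (algebraMap k A))) := by
  classical
  obtain ⟨t, e, he⟩ := exists_sort lv
  let B : Subalgebra k (MvPolynomial (Rw (sz lv t) × Fin m) k) :=
    { carrier := {f | ∀ g : Matrix (Rw (sz lv t)) (Rw (sz lv t)) F,
        Gm (sz lv t) (dd e (Fintype.card F) d) g → sg k m g f = f}
      mul_mem' := fun hx hy g hg => by rw [map_mul, hx g hg, hy g hg]
      add_mem' := fun hx hy g hg => by rw [map_add, hx g hg, hy g hg]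
      algebraMap_mem' := fun c g _ => AlgHom.commutes _ c }
  have hB : ∀ f, f ∈ B ↔ ∀ g : Matrix (Rw (sz lv t)) (Rw (sz lv t)) F,
      Gm (sz lv t) (dd e (Fintype.card F) d) g → sg k m g f = f := fun f => Iff.rfl
  have h1 := hasResolution_tri (F := F) (sz lv t) (dd e (Fintype.card F) d)
    (fun i => dd_dvd e _ i) B hB
  have h2 : Algebra.FiniteType k B :=
    finiteType_invg B fun f hf => (hB f).2 fun g hg => hf g hg.det_ne
  let φ : MvPolynomial (Fin r × Fin m) k ≃ₐ[k] MvPolynomial (Rw (sz lv t) × Fin m) k :=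
    renameEquiv k (Equiv.prodCongr e (Equiv.refl (Fin m)))
  have hφ : ∀ f, φ f = rename (fun w : Fin r × Fin m => (e w.1, w.2)) f := fun f => rfl
  have h3 : ∀ f, f ∈ A ↔ φ f ∈ B := by
    intro f
    rw [hA, hB]
    constructor
    · intro h g' hg'
      have h4 : (g'.submatrix e e).submatrix e.symm e.symm = g' := by
        rw [submatrix_submatrix]
        have h5 : (e ∘ e.symm) = id := funext fun w => e.apply_symm_apply w
        rw [h5, submatrix_id_id]
      rw [← h4, hφ, sg_rename, h]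
      rw [lv_iff e he, h4]
      exact hg'
    · intro h g hg
      have h4 := h _ ((lv_iff e he g).1 hg)
      rw [hφ, sg_rename] at h4
      exact φ.injective h4
  exact Q2.RP.conclusion_congr (Q2.RP.subEquiv φ A B h3).symm ⟨isVariety_spec, h1⟩

end main

end Pool.Agent.Q2.VI
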