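import Pool.Agent.Q2.VI.Exch
import Pool.Agent.H920R2.Gen

/-!
Vector invariants of finite general linear groups: the algebra of a chart.
-/

set_option autoImplicit false
set_option linter.unusedSectionVars false

open Matrix

universe u v

namespace Pool.Agent.Q2.VI

section chart

variable {F : Type v} {k K : Type u} [Field F] [Fintype F] [Field k] [Field K] [Algebra F k]
  [Algebra k K] [Algebra F K] [IsScalarTower F k K] {r m : ℕ} {x : Fin r → Fin m → K}
  {s : Fin r → Fin m × ℕ}

variable (F) (x) (s) in
/-- The coordinates of the chart. -/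
noncomputable def cc (w : Fin m × Fin r) : K :=
  co (Fintype.card F) x s (v (Fintype.card F) x (w.1, nx s w.1)) w.2

variable (F) (k) (x) (s) in
/-- The algebra of the chart. -/
noncomputable def Ca : Subalgebra k K := Algebra.adjoin k (Set.range (cc F x s))

lemma cc_mem (w : Fin m × Fin r) : cc F x s w ∈ Ca F k x s := Algebra.subset_adjoin ⟨w, rfl⟩

lemma Ca_all (hs : dt (Fintype.card F) x s ≠ 0) (hd : Dc s) (n : Fin m × ℕ) :
    Ib (Fintype.card F) x (Ca F k x s).toSubring s (v (Fintype.card F) x n) :=
  hd.all pow_add' Fintype.card_pos hs (fun j l => cc_mem (j, l)) n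

/-- The variables belong to all valuation rings which contain the algebra of a chart. -/
lemma x_mem_of_chart (hs : dt (Fintype.card F) x s ≠ 0) (V : ValuationSubring K)
    (h : ∀ n, Ib (Fintype.card F) x V.toSubring s (v (Fintype.card F) x n)) (i : Fin r)
    (j : Fin m) : x i j ∈ V := by
  classical
  have hq : 1 < Fintype.card F := Fintype.one_lt_card
  have hz : ∀ l, v (Fintype.card F) x (s l) i ∈ V := by
    by_contra hcon
    push Not at hcon
    obtain ⟨l1, hl1⟩ := hcon
    have hne : Nonempty (Fin r) := ⟨l1⟩
    obtain ⟨l0, hl0⟩ := Finite.exists_max fun l : Fin r =>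
      V.valuation (v (Fintype.card F) x (s l) i)
    have h1 : 1 < V.valuation (v (Fintype.card F) x (s l0) i) := by
      refine lt_of_lt_of_le ?_ (hl0 l1)
      rw [← not_le, V.valuation_le_one_iff]
      exact hl1
    have h2 : V.valuation (v (Fintype.card F) x (s l0) i) ^ Fintype.card F ≤
        V.valuation (v (Fintype.card F) x (s l0) i) := by
      rw [← map_pow]
      have h3 : v (Fintype.card F) x (s l0) i ^ Fintype.card F =
          v (Fintype.card F) x (up (s l0)) i := by
        rw [← fr_v]
        rfl
      rw [h3, ← sum_co hs (v (Fintype.card F) x (up (s l0))) i]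
      refine V.valuation.map_sum_le fun l _ => ?_
      rw [map_mul]
      exact (mul_le_of_le_one_left' ((V.valuation_le_one_iff _).2 (h _ l))).trans (hl0 l)
    have h3 : V.valuation (v (Fintype.card F) x (s l0) i) <
        V.valuation (v (Fintype.card F) x (s l0) i) ^ Fintype.card F := by
      exact lt_self_pow₀ h1 hq
    exact absurd h2 (not_le.2 h3)
  have h1 : v (Fintype.card F) x (j, 0) i = x i j := by
    unfold v
    rw [pow_zero, pow_one]
  rw [← h1, ← sum_co hs (v (Fintype.card F) x (j, 0)) i]
  exact V.toSubring.sum_mem fun l _ => V.toSubring.mul_mem (h _ l) (hz l)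

lemma Ca_int (hs : dt (Fintype.card F) x s ≠ 0) (hd : Dc s) (i : Fin r) (j : Fin m) :
    IsIntegral (Ca F k x s) (x i j) := by
  refine H920R2.isIntegral_of_valuation _ _ fun V hV => ?_
  refine x_mem_of_chart hs V (fun n l => ?_) i j
  exact hV _ (Ca_all (k := k) hs hd n l)

end chart

end Pool.Agent.Q2.VI
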