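import Pool.Agent.Q2.VI.Moore

/-!
Vector invariants of finite general linear groups: every valuation ring has a centre on a chart.
-/

set_option autoImplicit false
set_option linter.unusedSectionVars false

open Matrix

universe u v

namespace Pool.Agent.Q2.VI

section exch

variable {F : Type v} {K : Type u} [Field F] [Fintype F] [Field K] [Algebra F K] {r m : ℕ}
  {x : Fin r → Fin m → K}

/-- The determinant of Moore. -/
lemma dt_moore {j : Fin m} (hy : LinearIndependent F fun i => x i j) :
    dt (Fintype.card F) x (fun l => (j, (l : ℕ))) ≠ 0 := by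
  intro h0
  unfold dt at h0
  obtain ⟨c, hc0, hc⟩ := exists_mulVec_eq_zero_iff.2 h0
  refine hc0 (moore hy c fun i => ?_)
  have h1 := congrFun hc i
  simp only [mulVec, dotProduct, mat_apply] at h1
  refine Eq.trans ?_ h1
  exact Finset.sum_congr rfl fun a _ => mul_comm _ _

variable (V : ValuationSubring K)

/-- The weight of a column. -/
def om {m : ℕ} (n : Fin m × ℕ) : ℕ := n.2 * m + n.1

lemma om_inj {n n' : Fin m × ℕ} (h : om n = om n') : n = n' := by
  unfold om at h
  have h1 := n.1.2
  have h2 := n'.1.2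
  have h3 : n.2 = n'.2 := by
    rcases lt_trichotomy n.2 n'.2 with h4 | h4 | h4
    · have h5 : (n.2 + 1) * m ≤ n'.2 * m := Nat.mul_le_mul_right m h4
      rw [Nat.succ_mul] at h5
      omega
    · exact h4
    · have h5 : (n'.2 + 1) * m ≤ n.2 * m := Nat.mul_le_mul_right m h4
      rw [Nat.succ_mul] at h5
      omega
  rw [h3] at h
  exact Prod.ext (Fin.ext (by omega)) h3

lemma om_up (n : Fin m × ℕ) : om (up n) = om n + m := by
  change (n.2 + 1) * m + (n.1 : ℕ) = n.2 * m + n.1 + m
  ring

lemma le_of_om_lt {n n' : Fin m × ℕ} (h : om n < om n') : n.2 ≤ n'.2 := by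
  by_contra hcon
  have h5 : (n'.2 + 1) * m ≤ n.2 * m := Nat.mul_le_mul_right m (by omega)
  rw [Nat.succ_mul] at h5
  unfold om at h
  have h2 := n'.1.2
  omega

lemma sum_update_lt {s : Fin r → Fin m × ℕ} {l : Fin r} {n : Fin m × ℕ} (h : om n < om (s l)) :
    ∑ i, om (Function.update s l n i) < ∑ i, om (s i) := by
  classical
  refine Finset.sum_lt_sum (fun i _ => ?_) ⟨l, Finset.mem_univ l, ?_⟩
  · by_cases hi : i = l
    · subst hi
      rw [Function.update_self]
      exact h.le
    · rw [Function.update_of_ne hi]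
  · rw [Function.update_self]
    exact h

/-- The best choice of the columns. -/
lemma exists_best [NeZero m] (hy : ∀ j, LinearIndependent F fun i => x i j) :
    ∃ s : Fin r → Fin m × ℕ, (∀ l, (s l).2 < r) ∧ dt (Fintype.card F) x s ≠ 0 ∧
      (∀ t : Fin r → Fin m × ℕ, (∀ l, (t l).2 < r) →
        V.valuation (dt (Fintype.card F) x t) ≤ V.valuation (dt (Fintype.card F) x s)) ∧
      ∀ t : Fin r → Fin m × ℕ, (∀ l, (t l).2 < r) → ∑ i, om (t i) < ∑ i, om (s i) →
        V.valuation (dt (Fintype.card F) x t) < V.valuation (dt (Fintype.card F) x s) := by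
  classical
  let T : Type := Fin r → Fin m × Fin r
  let e : T → Fin r → Fin m × ℕ := fun J l => ((J l).1, ((J l).2 : ℕ))
  have he : ∀ J l, (e J l).2 < r := fun J l => (J l).2.2
  have hsur : ∀ t : Fin r → Fin m × ℕ, (∀ l, (t l).2 < r) → ∃ J, e J = t := fun t ht =>
    ⟨fun l => ((t l).1, ⟨(t l).2, ht l⟩), rfl⟩
  let j0 : Fin m := 0
  have hne : Nonempty T := ⟨fun l => (j0, l)⟩
  obtain ⟨J0, hJ0⟩ := Finite.exists_max fun J : T => V.valuation (dt (Fintype.card F) x (e J))
  let S := {J : T // V.valuation (dt (Fintype.card F) x (e J)) =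
    V.valuation (dt (Fintype.card F) x (e J0))}
  have hneS : Nonempty S := ⟨⟨J0, rfl⟩⟩
  obtain ⟨J1, hJ1⟩ := Finite.exists_min fun J : S => ∑ i, om (e J.1 i)
  have hmax : ∀ t : Fin r → Fin m × ℕ, (∀ l, (t l).2 < r) →
      V.valuation (dt (Fintype.card F) x t) ≤ V.valuation (dt (Fintype.card F) x (e J1.1)) := by
    intro t ht
    obtain ⟨J, rfl⟩ := hsur t ht
    rw [J1.2]
    exact hJ0 J
  refine ⟨e J1.1, he J1.1, ?_, hmax, ?_⟩
  · intro h0
    have h1 := hmax (fun l => (j0, (l : ℕ))) fun l => l.2
    rw [h0, map_zero, le_zero_iff, map_eq_zero] at h1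
    exact dt_moore (hy j0) h1
  · intro t ht hlt
    refine lt_of_le_of_ne (hmax t ht) fun heq => ?_
    obtain ⟨J, rfl⟩ := hsur t ht
    have h1 := hJ1 ⟨J, heq.trans J1.2⟩
    exact absurd h1 (not_le.2 hlt)

lemma val_co_le {s : Fin r → Fin m × ℕ} {n : Fin m × ℕ}
    {l : Fin r} (h : V.valuation (dt (Fintype.card F) x (Function.update s l n)) ≤
      V.valuation (dt (Fintype.card F) x s)) :
    co (Fintype.card F) x s (v (Fintype.card F) x n) l ∈ V := by
  rw [co_v, ← V.valuation_le_one_iff, map_div₀]
  exact div_le_one_of_le₀ h zero_le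

lemma val_co_lt {s : Fin r → Fin m × ℕ} (hs : dt (Fintype.card F) x s ≠ 0) {n : Fin m × ℕ}
    {l : Fin r} (h : V.valuation (dt (Fintype.card F) x (Function.update s l n)) <
      V.valuation (dt (Fintype.card F) x s)) :
    V.valuation (co (Fintype.card F) x s (v (Fintype.card F) x n) l) < 1 := by
  rw [co_v, map_div₀]
  have h0 : 0 < V.valuation (dt (Fintype.card F) x s) := by
    rw [zero_lt_iff, Ne, map_eq_zero]
    exact hs
  exact (div_lt_one₀ h0).2 h

/-- Every valuation ring which contains the variables has a centre on a chart. -/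
theorem exists_chart [NeZero m] (hy : ∀ j, LinearIndependent F fun i => x i j)
    (hV : ∀ i j, x i j ∈ V) (hF : ∀ u : F, algebraMap F K u ∈ V) :
    ∃ s : Fin r → Fin m × ℕ, (∀ l, (s l).2 < r) ∧ dt (Fintype.card F) x s ≠ 0 ∧ Dc s ∧
      ∀ n, Ib (Fintype.card F) x V.toSubring s (v (Fintype.card F) x n) := by
  classical
  obtain ⟨s, hs1, hs, hmax, hmin⟩ := exists_best V hy
  have hq : ∀ a b : K, (a + b) ^ Fintype.card F = a ^ Fintype.card F + b ^ Fintype.card F :=
    pow_add'
  have hq0 : 0 < Fintype.card F := Fintype.card_pos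
  have hup : ∀ (l : Fin r) (n : Fin m × ℕ), n.2 < r → ∀ l', (Function.update s l n l').2 < r := by
    intro l n hn l'
    by_cases h : l' = l
    · subst h; rw [Function.update_self]; exact hn
    · rw [Function.update_of_ne h]; exact hs1 l'
  -- small exponents
  have h1 : ∀ n : Fin m × ℕ, n.2 < r →
      Ib (Fintype.card F) x V.toSubring s (v (Fintype.card F) x n) := by
    intro n hn l
    exact val_co_le V (hmax _ (hup l n hn))
  -- the exponent `r`
  have h2 : ∀ j : Fin m, Ib (Fintype.card F) x V.toSubring s (v (Fintype.card F) x (j, r)) := by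
    intro j
    have h3 := dt_moore (x := x) (hy j)
    have h4 := sum_co h3 (v (Fintype.card F) x (j, r))
    have h5 : ∀ a, co (Fintype.card F) x (fun l => (j, (l : ℕ)))
        (v (Fintype.card F) x (j, r)) a ∈ V := by
      refine dickson (hy j) _ (fun i => ?_) V.toSubring (fun i => hV i j) hF
      exact (h4 i).symm
    have h6 : v (Fintype.card F) x (j, r) = ∑ a : Fin r, co (Fintype.card F) x
        (fun l => (j, (l : ℕ))) (v (Fintype.card F) x (j, r)) a • v (Fintype.card F) x (j, (a : ℕ)) := by
      funext i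
      rw [Finset.sum_apply]
      exact (h4 i).symm
    intro l
    rw [h6, co_sum, Finset.sum_apply]
    refine V.toSubring.sum_mem fun a _ => ?_
    rw [co_smul, Pi.smul_apply, smul_eq_mul]
    exact V.toSubring.mul_mem (h5 a) (h1 _ a.2 l)
  have h3 : ∀ n : Fin m × ℕ, n.2 ≤ r →
      Ib (Fintype.card F) x V.toSubring s (v (Fintype.card F) x n) := by
    rintro ⟨j, a⟩ hn
    rcases Nat.lt_or_ge a r with h | h
    · exact h1 _ h
    · have h4 : a = r := le_antisymm hn h
      rw [h4]
      exact h2 j
  -- closed downwards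
  have hd : Dc s := by
    rintro j a ⟨l0, hl0⟩
    by_contra hcon
    have har : a + 1 < r := by
      have := hs1 l0
      rw [hl0] at this
      exact this
    have h4 := fr_eq (x := x) (s := s) hq hq0 hs (v (Fintype.card F) x (j, a))
    rw [fr_v] at h4
    have h5 : co (Fintype.card F) x s (v (Fintype.card F) x (up (j, a))) l0 = 1 := by
      have h6 : up (j, a) = s l0 := hl0.symm
      rw [h6, co_v_self hs, Pi.single_eq_same]
    rw [h4, co_sum, Finset.sum_apply] at h5
    have h6 : V.valuation (∑ l, co (Fintype.card F) x s (co (Fintype.card F) x s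
        (v (Fintype.card F) x (j, a)) l ^ Fintype.card F • v (Fintype.card F) x (up (s l))) l0) <
        1 := by
      refine V.valuation.map_sum_lt one_ne_zero fun l _ => ?_
      rw [co_smul, Pi.smul_apply, smul_eq_mul, map_mul, map_pow]
      have hb : V.valuation (co (Fintype.card F) x s (v (Fintype.card F) x (j, a)) l) ≤ 1 :=
        (V.valuation_le_one_iff _).2 (h1 (j, a) (by change a < r; omega) l)
      rcases lt_trichotomy (om (s l)) (om (j, a)) with h7 | h7 | h7
      · have h8 : (s l).2 ≤ a := le_of_om_lt h7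
        have h9 : V.valuation (co (Fintype.card F) x s
            (v (Fintype.card F) x (up (s l))) l0) < 1 := by
          refine val_co_lt V hs (hmin _ (hup l0 _ ?_) (sum_update_lt ?_))
          · change (s l).2 + 1 < r
            omega
          · have h10 : s l0 = up (j, a) := hl0
            rw [h10, om_up, om_up]
            omega
        exact lt_of_le_of_lt (mul_le_of_le_one_left' (pow_le_one₀ zero_le hb)) h9
      · exact absurd ⟨l, om_inj h7⟩ hcon
      · have h9 : V.valuation (co (Fintype.card F) x s (v (Fintype.card F) x (j, a)) l) < 1 := by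
          refine val_co_lt V hs (hmin _ (hup l _ ?_) (sum_update_lt h7))
          change a < r
          omega
        have h10 : V.valuation (co (Fintype.card F) x s
            (v (Fintype.card F) x (up (s l))) l0) ≤ 1 :=
          (V.valuation_le_one_iff _).2 (h3 (up (s l)) (hs1 l) l0)
        exact lt_of_le_of_lt (mul_le_of_le_one_right' h10) (pow_lt_one₀ zero_le h9 hq0.ne')
    rw [h5, map_one] at h6
    exact lt_irrefl _ h6
  refine ⟨s, hs1, hs, hd, fun n => ?_⟩
  exact hd.all hq hq0 hs (fun j => h3 _ (nx_le j)) n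

end exch

end Pool.Agent.Q2.VI
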