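import Pool.Agent.Q2.VI.Chart

/-!
Vector invariants of finite general linear groups: the function field of a chart.
-/

set_option autoImplicit false
set_option linter.unusedSectionVars false

open Matrix

universe u v

namespace Pool.Agent.Q2.VI

section gal

variable {F : Type v} {k K : Type u} [Field F] [Fintype F] [Field k] [Field K] [Algebra F k]
  [Algebra k K] [Algebra F K] [IsScalarTower F k K] {r m : ℕ} {x : Fin r → Fin m → K}
  {s : Fin r → Fin m × ℕ}

variable (F) (k) (x) (s) in
/-- The function field of the chart. -/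
noncomputable def Ec : IntermediateField k K := IntermediateField.adjoin k (Set.range (cc F x s))

lemma Ca_le_Ec {y : K} (h : y ∈ Ca F k x s) : y ∈ Ec F k x s :=
  IntermediateField.algebra_adjoin_le_adjoin k _ h

lemma ratio_mem (hs : dt (Fintype.card F) x s ≠ 0) (hd : Dc s) (t : Fin r → Fin m × ℕ) :
    dt (Fintype.card F) x t / dt (Fintype.card F) x s ∈ Ca F k x s :=
  Ib.ratio (C := (Ca F k x s).toSubring) hs fun l => Ca_all (k := k) hs hd (t l)

/-- The coefficients of Dickson belong to the function field of the chart. -/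
lemma dickson_mem (hs : dt (Fintype.card F) x s ≠ 0) (hd : Dc s) (j : Fin m)
    (a : Fin r) : co (Fintype.card F) x (fun l => (j, (l : ℕ)))
      (v (Fintype.card F) x (j, r)) a ∈ Ec F k x s := by
  rw [co_v, ← div_div_div_cancel_right₀ hs]
  exact (Ec F k x s).div_mem (Ca_le_Ec (ratio_mem hs hd _)) (Ca_le_Ec (ratio_mem hs hd _))

lemma map_ap {E : Type u} [Field E] [Algebra E K] {N : ℕ} (c : Fin N → E) (d : E) :
    (ap F c d).map (algebraMap E K) = ap F (fun a => algebraMap E K (c a)) (algebraMap E K d) := by
  unfold ap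
  rw [Polynomial.map_sub, Polynomial.map_mul, Polynomial.map_C, Polynomial.map_pow,
    Polynomial.map_X, Polynomial.map_sum]
  congr 1
  refine Finset.sum_congr rfl fun a _ => ?_
  rw [Polynomial.map_mul, Polynomial.map_C, Polynomial.map_pow, Polynomial.map_X]

/-- The polynomial of which the variables are zeros. -/
lemma exists_pol (hs : dt (Fintype.card F) x s ≠ 0) (hd : Dc s)
    (hy : ∀ j, LinearIndependent F fun i => x i j) (i : Fin r) (j : Fin m) :
    ∃ P : Polynomial (Ec F k x s), P ≠ 0 ∧ Polynomial.aeval (x i j) P = 0 ∧ P.Separable ∧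
      (P.map (algebraMap (Ec F k x s) K)).Splits := by
  let c : Fin r → Ec F k x s := fun a => ⟨_, dickson_mem (k := k) hs hd j a⟩
  have h3 := dt_moore (x := x) (hy j)
  have h4 := sum_co h3 (v (Fintype.card F) x (j, r))
  have h5 : ∀ i, x i j ^ Fintype.card F ^ r = ∑ a : Fin r, algebraMap (Ec F k x s) K (c a) *
      x i j ^ Fintype.card F ^ (a : ℕ) := fun i => (h4 i).symm
  have hmap : (ap F c 1).map (algebraMap (Ec F k x s) K) =
      ap F (fun a => algebraMap (Ec F k x s) K (c a)) 1 := by
    rw [map_ap, map_one]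
  refine ⟨ap F c 1, (monic_ap c).ne_zero, ?_, ?_, ?_⟩
  · rw [Polynomial.aeval_def, ← Polynomial.eval_map, hmap, eval_ap, one_mul, h5 i, sub_self]
  · rw [← Polynomial.separable_map (algebraMap (Ec F k x s) K), hmap]
    exact ap_separable (hy j) _ h5
  · rw [hmap]
    exact ap_splits (hy j) _ h5

variable (hK : IntermediateField.adjoin k (Set.range fun w : Fin r × Fin m => x w.1 w.2) = ⊤)

include hK in
lemma adj_Ec : IntermediateField.adjoin (Ec F k x s)
    (Set.range fun w : Fin r × Fin m => x w.1 w.2) = ⊤ := by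
  rw [eq_top_iff]
  intro y _
  have h1 : y ∈ IntermediateField.adjoin k (Set.range fun w : Fin r × Fin m => x w.1 w.2) := by
    rw [hK]
    trivial
  have h2 : IntermediateField.adjoin k (Set.range fun w : Fin r × Fin m => x w.1 w.2) ≤
      (IntermediateField.adjoin (Ec F k x s)
        (Set.range fun w : Fin r × Fin m => x w.1 w.2)).restrictScalars k := by
    rw [IntermediateField.adjoin_le_iff]
    exact IntermediateField.subset_adjoin _ _
  exact h2 h1

include hK in
lemma isGalois_Ec (hs : dt (Fintype.card F) x s ≠ 0) (hd : Dc s)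
    (hy : ∀ j, LinearIndependent F fun i => x i j) : IsGalois (Ec F k x s) K := by
  have htop := adj_Ec (F := F) (s := s) hK
  have hmem : ∀ y : K, y ∈ IntermediateField.adjoin (Ec F k x s)
      (Set.range fun w : Fin r × Fin m => x w.1 w.2) := fun y => by rw [htop]; trivial
  have hint : ∀ w : Fin r × Fin m, IsIntegral (Ec F k x s) (x w.1 w.2) := by
    intro w
    obtain ⟨P, hP0, hP, -, -⟩ := exists_pol (k := k) hs hd hy w.1 w.2
    exact IsAlgebraic.isIntegral ⟨P, hP0, hP⟩
  have hsepx : ∀ w : Fin r × Fin m, IsSeparable (Ec F k x s) (x w.1 w.2) := by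
    intro w
    obtain ⟨P, hP0, hP, hP1, -⟩ := exists_pol (k := k) hs hd hy w.1 w.2
    exact hP1.of_dvd (minpoly.dvd _ _ hP)
  have hspx : ∀ w : Fin r × Fin m,
      ((minpoly (Ec F k x s) (x w.1 w.2)).map (algebraMap (Ec F k x s) K)).Splits := by
    intro w
    obtain ⟨P, hP0, hP, -, hP2⟩ := exists_pol (k := k) hs hd hy w.1 w.2
    refine hP2.of_dvd ?_ (Polynomial.map_dvd _ (minpoly.dvd _ _ hP))
    exact (Polynomial.map_ne_zero_iff (algebraMap (Ec F k x s) K).injective).2 hP0
  have h1 : Algebra.IsSeparable (Ec F k x s) (IntermediateField.adjoin (Ec F k x s)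
      (Set.range fun w : Fin r × Fin m => x w.1 w.2)) := by
    rw [IntermediateField.isSeparable_adjoin_iff_isSeparable]
    rintro _ ⟨w, rfl⟩
    exact hsepx w
  have h2 : Algebra.IsSeparable (Ec F k x s) K := by
    rw [htop] at h1
    exact Algebra.IsSeparable.of_algHom _ _ IntermediateField.topEquiv.symm.toAlgHom
  have h3 : Normal (Ec F k x s) K := by
    rw [normal_iff]
    intro y
    refine ⟨(Algebra.IsSeparable.isSeparable (Ec F k x s) y).isIntegral, ?_⟩
    refine IntermediateField.splits_of_mem_adjoin _ _ ?_ (hmem y)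
    rintro _ ⟨w, rfl⟩
    exact ⟨hint w, hspx w⟩
  exact IsGalois.mk

lemma dt_up (s : Fin r → Fin m × ℕ) :
    dt (Fintype.card F) x (fun l => up (s l)) = dt (Fintype.card F) x s ^ Fintype.card F := by
  have h := (FiniteField.frobeniusAlgHom F K).toRingHom.map_det (mat (Fintype.card F) x s)
  have h1 : (FiniteField.frobeniusAlgHom F K).toRingHom (mat (Fintype.card F) x s).det =
      dt (Fintype.card F) x s ^ Fintype.card F := rfl
  rw [h1] at h
  rw [h]
  unfold dt
  congr 1
  ext i l
  rw [mat_apply, ← fr_v]
  rfl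

/-- The automorphisms over the function field of a chart act linearly. -/
lemma exists_matrix (hs : dt (Fintype.card F) x s ≠ 0) (hd : Dc s)
    (σ : K ≃ₐ[k] K) (hσ : ∀ c ∈ Ec F k x s, σ c = c) :
    ∃ A : Matrix (Fin r) (Fin r) F, A.det ≠ 0 ∧
      ∀ i j, σ (x i j) = ∑ l, algebraMap F K (A i l) * x l j := by
  classical
  -- the coefficients
  have hT : IsUnit (mat (Fintype.card F) x s)ᵀ.det := by
    rw [det_transpose]
    exact isUnit_iff_ne_zero.2 hs
  have h1 : ∀ i, ∃ α : Fin r → K, ∀ l, σ (v (Fintype.card F) x (s l) i) =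
      ∑ i', α i' * v (Fintype.card F) x (s l) i' := by
    intro i
    refine ⟨(mat (Fintype.card F) x s)ᵀ⁻¹ *ᵥ fun l => σ (v (Fintype.card F) x (s l) i),
      fun l => ?_⟩
    have h2 : (mat (Fintype.card F) x s)ᵀ *ᵥ ((mat (Fintype.card F) x s)ᵀ⁻¹ *ᵥ
        fun l => σ (v (Fintype.card F) x (s l) i)) = fun l => σ (v (Fintype.card F) x (s l) i) := by
      rw [mulVec_mulVec, mul_nonsing_inv _ hT, one_mulVec]
    have h3 := congrFun h2 l
    rw [← h3]
    simp only [mulVec, dotProduct, transpose_apply, mat_apply]
    exact Finset.sum_congr rfl fun i' _ => mul_comm _ _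
  choose α hα using h1
  -- all columns
  have h2 : ∀ i n, σ (v (Fintype.card F) x n i) = ∑ i', α i i' * v (Fintype.card F) x n i' := by
    intro i n
    have h3 : ∀ l, σ (co (Fintype.card F) x s (v (Fintype.card F) x n) l) =
        co (Fintype.card F) x s (v (Fintype.card F) x n) l := fun l =>
      hσ _ (Ca_le_Ec (Ca_all (k := k) hs hd n l))
    rw [← sum_co hs (v (Fintype.card F) x n) i, map_sum]
    have h4 : ∀ l, σ (co (Fintype.card F) x s (v (Fintype.card F) x n) l *
        v (Fintype.card F) x (s l) i) = ∑ i', α i i' *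
          (co (Fintype.card F) x s (v (Fintype.card F) x n) l * v (Fintype.card F) x (s l) i') := by
      intro l
      rw [map_mul, h3, hα, Finset.mul_sum]
      exact Finset.sum_congr rfl fun i' _ => mul_left_comm _ _ _
    rw [Finset.sum_congr rfl fun l _ => h4 l, Finset.sum_comm]
    refine Finset.sum_congr rfl fun i' _ => ?_
    rw [← Finset.mul_sum, sum_co hs]
  -- the coefficients are in the finite field
  have h3 : ∀ i i', α i i' ^ Fintype.card F = α i i' := by
    intro i
    have h4 : ∀ l, ∑ i', (α i i' ^ Fintype.card F - α i i') *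
        v (Fintype.card F) x (up (s l)) i' = 0 := by
      intro l
      have h5 := h2 i (up (s l))
      have h6 : v (Fintype.card F) x (up (s l)) i =
          v (Fintype.card F) x (s l) i ^ Fintype.card F := by
        rw [← fr_v]; rfl
      rw [h6, map_pow, hα, pow_sum pow_add' Fintype.card_pos] at h5
      have h7 : ∀ i', (α i i' * v (Fintype.card F) x (s l) i') ^ Fintype.card F =
          α i i' ^ Fintype.card F * v (Fintype.card F) x (up (s l)) i' := by
        intro i'
        rw [mul_pow, ← fr_v]
        rfl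
      rw [Finset.sum_congr rfl fun i' _ => h7 i'] at h5
      rw [← sub_eq_zero, ← Finset.sum_sub_distrib] at h5
      rw [← h5]
      exact Finset.sum_congr rfl fun i' _ => sub_mul _ _ _
    have h5 : (mat (Fintype.card F) x (fun l => up (s l)))ᵀ.det ≠ 0 := by
      rw [det_transpose]
      change dt (Fintype.card F) x (fun l => up (s l)) ≠ 0
      rw [dt_up]
      exact pow_ne_zero _ hs
    have h6 := eq_zero_of_mulVec_eq_zero h5 (v := fun i' => α i i' ^ Fintype.card F - α i i') (by
      funext l
      simp only [mulVec, dotProduct, transpose_apply, mat_apply]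
      refine Eq.trans ?_ (h4 l)
      exact Finset.sum_congr rfl fun i' _ => mul_comm _ _)
    intro i'
    exact sub_eq_zero.1 (congrFun h6 i')
  have h4 : ∀ i i', ∃ u : F, algebraMap F K u = α i i' := fun i i' => mem_range_of_pow (h3 i i')
  choose A hA using h4
  have h5 : ∀ i n, σ (v (Fintype.card F) x n i) =
      ∑ i', algebraMap F K (A i i') * v (Fintype.card F) x n i' := by
    intro i n
    rw [h2]
    exact Finset.sum_congr rfl fun i' _ => by rw [hA]
  refine ⟨Matrix.of A, fun h0 => ?_, fun i j => ?_⟩
  · have h6 : (σ : K →+* K).mapMatrix (mat (Fintype.card F) x s) =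
        (algebraMap F K).mapMatrix (Matrix.of A) * mat (Fintype.card F) x s := by
      ext i l
      rw [RingHom.mapMatrix_apply, map_apply, mul_apply]
      exact h5 i (s l)
    have h7 := (σ : K →+* K).map_det (mat (Fintype.card F) x s)
    rw [h6, det_mul, ← RingHom.map_det, h0, map_zero, zero_mul] at h7
    have h8 : (σ : K →+* K) (mat (Fintype.card F) x s).det ≠ 0 := by
      rw [Ne, map_eq_zero]
      exact hs
    exact h8 h7
  · have h6 := h5 i (j, 0)
    unfold v at h6
    simpa using h6

include hK in
/-- The function field of the chart contains all the invariants. -/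
theorem mem_Ec (hs : dt (Fintype.card F) x s ≠ 0) (hd : Dc s)
    (hy : ∀ j, LinearIndependent F fun i => x i j) (y : K)
    (h : ∀ σ : K ≃ₐ[k] K, (∃ A : Matrix (Fin r) (Fin r) F, A.det ≠ 0 ∧
      ∀ i j, σ (x i j) = ∑ l, algebraMap F K (A i l) * x l j) → σ y = y) : y ∈ Ec F k x s := by
  have hG := isGalois_Ec hK hs hd hy
  have hfd : FiniteDimensional (Ec F k x s) K := by
    have h1 : FiniteDimensional (Ec F k x s) (IntermediateField.adjoin (Ec F k x s)
        (Set.range fun w : Fin r × Fin m => x w.1 w.2)) := by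
      refine IntermediateField.finiteDimensional_adjoin ?_
      intro y _
      exact Algebra.IsIntegral.isIntegral y
    rw [adj_Ec (F := F) (s := s) hK] at h1
    exact Module.Finite.equiv IntermediateField.topEquiv.toLinearEquiv
  have h2 : y ∈ (⊥ : IntermediateField (Ec F k x s) K) := by
    rw [IsGalois.mem_bot_iff_fixed]
    intro f
    refine h (f.restrictScalars k) (exists_matrix hs hd _ fun c hc => ?_)
    exact f.commutes (⟨c, hc⟩ : Ec F k x s)
  rw [IntermediateField.mem_bot] at h2
  obtain ⟨z, rfl⟩ := h2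
  exact z.2

end gal

end Pool.Agent.Q2.VI
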