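import Pool.Agent.Q2.VI.Row

/-!
Vector invariants of parabolic subgroups: algebraic independence of the new rows; comparison of
charts.
-/

set_option autoImplicit false
set_option linter.unusedSectionVars false

open Matrix
open scoped IntermediateField.algebraAdjoinAdjoin

universe u v

namespace Pool.Agent.Q2.VI

section map

variable {K L : Type u} [Field K] [Field L] {r m : ℕ} {ι : Type} (φ : K →+* L) (q : ℕ)
  (x : Fin r → Fin m → K) (s : Fin r → Fin m × ℕ) (y : ι → Fin m → K)

lemma map_v (n : Fin m × ℕ) (i : Fin r) : φ (v q x n i) = v q (fun i j => φ (x i j)) n i := by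
  unfold v
  rw [map_pow]

lemma map_dt : φ (dt q x s) = dt q (fun i j => φ (x i j)) s := by
  unfold dt
  rw [RingHom.map_det]
  congr 1
  refine Matrix.ext fun i l => ?_
  rw [RingHom.mapMatrix_apply, map_apply, mat_apply, mat_apply, map_v]

lemma map_co (n : Fin m × ℕ) (l : Fin r) : φ (co q x s (v q x n) l) =
    co q (fun i j => φ (x i j)) s (v q (fun i j => φ (x i j)) n) l := by
  rw [co_v, co_v, map_div₀, map_dt, map_dt]

lemma map_rm (n : Fin m × ℕ) (i : ι) : φ (rm q x s y n i) =
    rm q (fun i j => φ (x i j)) s (fun i j => φ (y i j)) n i := by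
  unfold rm cl
  rw [map_sub, map_pow, map_sum]
  congr 1
  refine Finset.sum_congr rfl fun l _ => ?_
  rw [map_mul, map_co, map_pow]

lemma map_yw (i : ι) (j : Fin m) : φ (yw q x s y i j) =
    yw q (fun i j => φ (x i j)) s (fun i j => φ (y i j)) i j := map_rm φ q x s y _ i

end map

section ind

variable {F : Type v} {k K : Type u} [Field F] [Fintype F] [Field k] [Field K] [Algebra F k]
  [Algebra k K] [Algebra F K] [IsScalarTower F k K] {r m : ℕ} {ι : Type}
  {x : Fin r → Fin m → K} {s : Fin r → Fin m × ℕ} {y : ι → Fin m → K}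

/-- All columns are integral combinations of the columns of the chart. -/
lemma all_of_cc (hs : dt (Fintype.card F) x s ≠ 0) (hd : Dc s) {C : Subring K}
    (h : ∀ w, cc F x s w ∈ C) (n : Fin m × ℕ) :
    Ib (Fintype.card F) x C s (v (Fintype.card F) x n) :=
  hd.all pow_add' Fintype.card_pos hs (fun j l => h (j, l)) n

/-- The first rows and the remaining rows. -/
def jn (x : Fin r → Fin m → K) (y : ι → Fin m → K) : (Fin r × Fin m) ⊕ (ι × Fin m) → K :=
  Sum.elim (fun w => x w.1 w.2) fun w => y w.1 w.2

lemma alg_of_jn [Finite ι] (hK : IntermediateField.adjoin k (Set.range (jn x y)) = ⊤)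
    (hs : dt (Fintype.card F) x s ≠ 0) (hd : Dc s) :
    Algebra.IsAlgebraic (IntermediateField.adjoin k (Set.range (Sum.elim (cc F x s)
      fun w : ι × Fin m => yw (Fintype.card F) x s y w.1 w.2))) K := by
  set f : (Fin m × Fin r) ⊕ (ι × Fin m) → K := Sum.elim (cc F x s)
      fun w : ι × Fin m => yw (Fintype.card F) x s y w.1 w.2 with hf
  have hint : ∀ w, IsIntegral (Algebra.adjoin k (Set.range f)) (jn x y w) := by
    intro w
    refine H920R2.isIntegral_of_valuation _ _ fun V hV => ?_
    have h1 : ∀ w, cc F x s w ∈ V.toSubring := fun w =>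
      hV _ (Algebra.subset_adjoin ⟨Sum.inl w, rfl⟩)
    have h2 := all_of_cc hs hd h1
    rcases w with w | w
    · exact x_mem_of_chart hs V h2 w.1 w.2
    · exact row_mem hs hd V h2 (fun i j => hV _ (Algebra.subset_adjoin ⟨Sum.inr (i, j), rfl⟩))
        w.1 w.2
  have hint' : ∀ w, IsIntegral (IntermediateField.adjoin k (Set.range f)) (jn x y w) := by
    intro w
    exact (hint w).tower_top (A := IntermediateField.adjoin k (Set.range f))
  have htop : IntermediateField.adjoin (IntermediateField.adjoin k (Set.range f))
      (Set.range (jn x y)) = ⊤ := by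
    rw [eq_top_iff]
    intro z _
    have h1 : z ∈ IntermediateField.adjoin k (Set.range (jn x y)) := by
      rw [hK]
      trivial
    have h2 : IntermediateField.adjoin k (Set.range (jn x y)) ≤
        (IntermediateField.adjoin (IntermediateField.adjoin k (Set.range f))
          (Set.range (jn x y))).restrictScalars k := by
      rw [IntermediateField.adjoin_le_iff]
      exact IntermediateField.subset_adjoin _ _
    exact h2 h1
  have h3 : Algebra.IsAlgebraic (IntermediateField.adjoin k (Set.range f))
      (IntermediateField.adjoin (IntermediateField.adjoin k (Set.range f))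
        (Set.range (jn x y))) := by
    refine IntermediateField.isAlgebraic_adjoin ?_
    rintro _ ⟨w, rfl⟩
    exact hint' w
  rw [htop] at h3
  exact (IntermediateField.topEquiv (F := IntermediateField.adjoin k (Set.range f))
    (E := K)).isAlgebraic

/-- The new rows are algebraically independent. -/
theorem ind_yw [Finite ι] (hx : AlgebraicIndependent k (jn x y))
    (hs : dt (Fintype.card F) x s ≠ 0) (hd : Dc s) :
    AlgebraicIndependent k fun w : ι × Fin m => yw (Fintype.card F) x s y w.1 w.2 := by
  let L := IntermediateField.adjoin k (Set.range (jn x y))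
  let x' : Fin r → Fin m → L := fun i j =>
    ⟨x i j, IntermediateField.subset_adjoin _ _ ⟨Sum.inl (i, j), rfl⟩⟩
  let y' : ι → Fin m → L := fun i j =>
    ⟨y i j, IntermediateField.subset_adjoin _ _ ⟨Sum.inr (i, j), rfl⟩⟩
  let φ : L →+* K := L.val.toRingHom
  have hφ : Function.Injective φ := φ.injective
  have hxx : (fun i j => φ (x' i j)) = x := rfl
  have hyy : (fun i j => φ (y' i j)) = y := rfl
  have hs' : dt (Fintype.card F) x' s ≠ 0 := by
    intro h0
    have h1 := map_dt φ (Fintype.card F) x' s
    rw [h0, map_zero, hxx] at h1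
    exact hs h1.symm
  have hjn : ∀ w, L.val (jn x' y' w) = jn x y w := by
    rintro (w | w) <;> rfl
  have hK' : IntermediateField.adjoin k (Set.range (jn x' y')) = ⊤ := by
    apply IntermediateField.map_injective L.val
    rw [IntermediateField.adjoin_map, ← AlgHom.fieldRange_eq_map, IntermediateField.fieldRange_val,
      ← Set.range_comp]
    congr 1
    exact congrArg Set.range (funext hjn)
  have halg := alg_of_jn (F := F) (s := s) hK' hs' hd
  have hx' : AlgebraicIndependent k (jn x' y') := by
    refine AlgebraicIndependent.of_comp L.val ?_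
    have h1 : ⇑L.val ∘ jn x' y' = jn x y := funext hjn
    rw [h1]
    exact hx
  have hc : AlgebraicIndependent k (Sum.elim (cc F x' s)
      fun w : ι × Fin m => yw (Fintype.card F) x' s y' w.1 w.2) := by
    refine H920R2.algebraicIndependent_of_isAlgebraic (jn x' y') hx' _ ?_ inferInstance halg
    rw [Nat.card_sum, Nat.card_sum, Nat.card_prod, Nat.card_prod, Nat.card_prod, mul_comm (Nat.card (Fin m)) (Nat.card (Fin r))]
  have h1 := hc.comp Sum.inr Sum.inr_injective
  have h2 := h1.map' (f := L.val) L.val.injective
  have h3 : (⇑L.val ∘ (Sum.elim (cc F x' s) fun w : ι × Fin m =>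
      yw (Fintype.card F) x' s y' w.1 w.2) ∘ Sum.inr) =
      fun w : ι × Fin m => yw (Fintype.card F) x s y w.1 w.2 := by
    funext w
    exact map_yw φ (Fintype.card F) x' s y' w.1 w.2
  rwa [h3] at h2

lemma ind_fst (hx : AlgebraicIndependent k (jn x y)) :
    AlgebraicIndependent k fun w : Fin r × Fin m => x w.1 w.2 :=
  hx.comp Sum.inl Sum.inl_injective

/-- Algebraically independent elements are linearly independent over the finite field. -/
lemma lin_of_ind {σ : Type} {f : σ → K} (hf : AlgebraicIndependent k f) :
    LinearIndependent F f := by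
  have h1 : LinearIndependent k f := hf.linearIndependent
  exact h1.restrict_scalars (by
    intro a b hab
    have h2 : algebraMap F k a = algebraMap F k b := by
      simpa [Algebra.smul_def] using hab
    exact (algebraMap F k).injective h2)

/-- Comparison of two charts at a valuation ring. -/
lemma cmp_mem (hs : dt (Fintype.card F) x s ≠ 0) (hd : Dc s) {C : Subring K}
    (h : ∀ n, Ib (Fintype.card F) x C s (v (Fintype.card F) x n))
    {x' : Fin r → Fin m → K} {y' : ι → Fin m → K}
    (hle : Lp (Fintype.card F) C x' y' ≤ Lp (Fintype.card F) C x y)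
    (t : Fin r → Fin m × ℕ) :
    dt (Fintype.card F) x' t / dt (Fintype.card F) x s ∈ C := by
  have h1 : ∀ n, ∃ b : Fin r → K, (∀ l, b l ∈ C) ∧
      v (Fintype.card F) x' n = mat (Fintype.card F) x s *ᵥ b := by
    intro n
    obtain ⟨b, hb, hb1, -⟩ := Lp_dec hs hd h (hle (Lp_mem (x := x') (y := y') n))
    exact ⟨b, hb, hb1⟩
  choose b hb hb1 using fun l => h1 (t l)
  have h2 : mat (Fintype.card F) x' t = mat (Fintype.card F) x s *
      Matrix.of fun l l' => b l' l := by
    refine Matrix.ext fun i l' => ?_
    have h3 := congrFun (hb1 l') i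
    rw [mat_apply, h3, mul_apply]
    rfl
  have h3 : dt (Fintype.card F) x' t = dt (Fintype.card F) x s *
      (Matrix.of fun l l' => b l' l).det := by
    unfold dt
    rw [h2, det_mul]
  rw [h3, mul_div_cancel_left₀ _ hs]
  exact det_mem _ fun i j => hb j i

lemma cmp_all (hs : dt (Fintype.card F) x s ≠ 0) (hd : Dc s) {C : Subring K}
    (h : ∀ n, Ib (Fintype.card F) x C s (v (Fintype.card F) x n))
    {x' : Fin r → Fin m → K} {y' : ι → Fin m → K}
    (hle : Lp (Fintype.card F) C x' y' ≤ Lp (Fintype.card F) C x y)
    {s' : Fin r → Fin m × ℕ}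
    (hinv : (dt (Fintype.card F) x' s' / dt (Fintype.card F) x s)⁻¹ ∈ C) (n : Fin m × ℕ) :
    Ib (Fintype.card F) x' C s' (v (Fintype.card F) x' n) := by
  intro l
  have h1 := C.mul_mem (cmp_mem hs hd h hle (Function.update s' l n)) hinv
  rw [co_v]
  have h2 : dt (Fintype.card F) x' (Function.update s' l n) / dt (Fintype.card F) x s *
      (dt (Fintype.card F) x' s' / dt (Fintype.card F) x s)⁻¹ =
      dt (Fintype.card F) x' (Function.update s' l n) / dt (Fintype.card F) x' s' := by
    rw [inv_div, div_mul_div_cancel₀ hs]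
  rwa [h2] at h1

end ind

end Pool.Agent.Q2.VI
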