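import Mathlib

/-!
Vector invariants of finite general linear groups: linear algebra of the columns
`(x i j ^ q ^ a)_i`.
-/

set_option autoImplicit false

open Matrix

universe u

namespace Pool.Agent.Q2.VI

section basic

variable {K : Type u} [Field K] {r m : ℕ} (q : ℕ) (x : Fin r → Fin m → K)

/-- The column with the entries `x i j ^ q ^ a`. -/
def v (w : Fin m × ℕ) (i : Fin r) : K := x i w.1 ^ q ^ w.2

/-- The matrix of the columns `s l`. -/
def mat (s : Fin r → Fin m × ℕ) : Matrix (Fin r) (Fin r) K := Matrix.of fun i l => v q x (s l) i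

/-- The determinant of the columns `s l`. -/
def dt (s : Fin r → Fin m × ℕ) : K := (mat q x s).det

/-- The coordinates with respect to the columns `s l`. -/
noncomputable def co (s : Fin r → Fin m × ℕ) (w : Fin r → K) : Fin r → K :=
  (dt q x s)⁻¹ • (mat q x s).cramer w

variable {q x} {s t : Fin r → Fin m × ℕ}

lemma mat_apply (s : Fin r → Fin m × ℕ) (i l : Fin r) : mat q x s i l = v q x (s l) i := rfl

lemma mulVec_co (hs : dt q x s ≠ 0) (w : Fin r → K) : mat q x s *ᵥ co q x s w = w := by
  unfold co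
  rw [mulVec_smul, mulVec_cramer, smul_smul]
  change ((dt q x s)⁻¹ * dt q x s) • w = w
  rw [inv_mul_cancel₀ hs, one_smul]

lemma co_mulVec (hs : dt q x s ≠ 0) (b : Fin r → K) : co q x s (mat q x s *ᵥ b) = b := by
  unfold co
  rw [cramer_eq_adjugate_mulVec, mulVec_mulVec, adjugate_mul, smul_mulVec, one_mulVec, smul_smul]
  change ((dt q x s)⁻¹ * dt q x s) • b = b
  rw [inv_mul_cancel₀ hs, one_smul]

lemma eq_co (hs : dt q x s ≠ 0) {b w : Fin r → K} (h : mat q x s *ᵥ b = w) : co q x s w = b := by
  rw [← h, co_mulVec hs]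

lemma sum_co (hs : dt q x s ≠ 0) (w : Fin r → K) (i : Fin r) :
    ∑ l, co q x s w l * v q x (s l) i = w i := by
  have h := congrFun (mulVec_co hs w) i
  rw [← h]
  simp only [mulVec, dotProduct, mat_apply]
  exact Finset.sum_congr rfl fun l _ => mul_comm _ _

lemma co_v_self (hs : dt q x s ≠ 0) (l : Fin r) : co q x s (v q x (s l)) = Pi.single l 1 := by
  apply eq_co hs
  ext i
  rw [mulVec_single_one]
  rfl

lemma mat_update (l : Fin r) (n : Fin m × ℕ) :
    mat q x (Function.update s l n) = (mat q x s).updateCol l (v q x n) := by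
  ext i l'
  rw [mat_apply, updateCol_apply]
  by_cases h : l' = l
  · subst h
    rw [Function.update_self, if_pos rfl]
  · rw [Function.update_of_ne h, if_neg h]
    rfl

lemma co_v (n : Fin m × ℕ) (l : Fin r) :
    co q x s (v q x n) l = dt q x (Function.update s l n) / dt q x s := by
  unfold co
  rw [Pi.smul_apply, cramer_apply, ← mat_update, smul_eq_mul, mul_comm, div_eq_mul_inv]
  rfl

lemma co_add (w w' : Fin r → K) : co q x s (w + w') = co q x s w + co q x s w' := by
  unfold co
  rw [map_add, smul_add]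

lemma co_smul (c : K) (w : Fin r → K) : co q x s (c • w) = c • co q x s w := by
  unfold co
  rw [map_smul, smul_comm]

lemma co_sum {ι : Type*} (S : Finset ι) (w : ι → Fin r → K) :
    co q x s (∑ i ∈ S, w i) = ∑ i ∈ S, co q x s (w i) := by
  unfold co
  rw [map_sum, Finset.smul_sum]

/-- Quotients of determinants. -/
lemma dt_eq (hs : dt q x s ≠ 0) (t : Fin r → Fin m × ℕ) :
    dt q x t = dt q x s * (Matrix.of fun l l' => co q x s (v q x (t l')) l).det := by
  have h : mat q x t = mat q x s * Matrix.of fun l l' => co q x s (v q x (t l')) l := by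
    ext i l'
    rw [mat_apply, mul_apply, ← sum_co hs (v q x (t l')) i]
    exact Finset.sum_congr rfl fun l _ => mul_comm _ _
  unfold dt
  rw [h, det_mul]

/-- The coordinates of `w` belong to the subring. -/
def Ib (q : ℕ) (x : Fin r → Fin m → K) (C : Subring K) (s : Fin r → Fin m × ℕ) (w : Fin r → K) :
    Prop := ∀ l, co q x s w l ∈ C

variable {C : Subring K}

lemma Ib.self (hs : dt q x s ≠ 0) (l : Fin r) : Ib q x C s (v q x (s l)) := by
  intro l'
  rw [co_v_self hs, Pi.single_apply]
  split_ifs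
  · exact C.one_mem
  · exact C.zero_mem

lemma det_mem {n : ℕ} (M : Matrix (Fin n) (Fin n) K) (h : ∀ i j, M i j ∈ C) : M.det ∈ C := by
  rw [det_apply]
  refine C.sum_mem fun σ _ => ?_
  rw [Units.smul_def]
  exact C.zsmul_mem (C.prod_mem fun i _ => h _ _) _

lemma Ib.ratio (hs : dt q x s ≠ 0) (h : ∀ l, Ib q x C s (v q x (t l))) :
    dt q x t / dt q x s ∈ C := by
  rw [dt_eq hs t, mul_div_cancel_left₀ _ hs]
  exact det_mem _ fun i j => h j i

/-- The `q`-th powers of the entries. -/
def fr (q : ℕ) (w : Fin r → K) : Fin r → K := fun i => w i ^ q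

/-- The shifted index. -/
def up (n : Fin m × ℕ) : Fin m × ℕ := (n.1, n.2 + 1)

lemma fr_v (n : Fin m × ℕ) : fr q (v q x n) = v q x (up n) := by
  funext i
  unfold fr v up
  rw [← pow_mul, pow_succ]

variable (hq : ∀ a b : K, (a + b) ^ q = a ^ q + b ^ q) (hq0 : 0 < q)

include hq hq0 in
lemma pow_sum {ι : Type*} (S : Finset ι) (f : ι → K) : (∑ i ∈ S, f i) ^ q = ∑ i ∈ S, f i ^ q := by
  classical
  induction S using Finset.induction_on with
  | empty => rw [Finset.sum_empty, Finset.sum_empty, zero_pow hq0.ne']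
  | insert i S hi ih => rw [Finset.sum_insert hi, Finset.sum_insert hi, hq, ih]

include hq hq0 in
lemma fr_eq (hs : dt q x s ≠ 0) (w : Fin r → K) :
    fr q w = ∑ l, co q x s w l ^ q • v q x (up (s l)) := by
  funext i
  rw [Finset.sum_apply]
  unfold fr
  rw [← sum_co hs w i, pow_sum hq hq0]
  refine Finset.sum_congr rfl fun l _ => ?_
  rw [mul_pow, Pi.smul_apply, smul_eq_mul, ← fr_v]
  rfl

include hq hq0 in
lemma Ib.fr (hs : dt q x s ≠ 0) (h : ∀ l, Ib q x C s (v q x (up (s l)))) {w : Fin r → K}
    (hw : Ib q x C s w) : Ib q x C s (fr q w) := by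
  intro l
  rw [fr_eq hq hq0 hs w, co_sum, Finset.sum_apply]
  refine C.sum_mem fun l' _ => ?_
  rw [co_smul, Pi.smul_apply, smul_eq_mul]
  exact C.mul_mem (C.pow_mem (hw l') q) (h l' l)

/-- The set of columns is closed downwards. -/
def Dc (s : Fin r → Fin m × ℕ) : Prop :=
  ∀ j a, (j, a + 1) ∈ Set.range s → (j, a) ∈ Set.range s

lemma exists_nx (s : Fin r → Fin m × ℕ) (j : Fin m) : ∃ a, (j, a) ∉ Set.range s := by
  by_contra hcon
  push Not at hcon
  have h1 : Function.Injective fun a : ℕ => (j, a) := fun a b h => (Prod.mk.inj h).2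
  have h2 : Set.Infinite (Set.range fun a : ℕ => (j, a)) := Set.infinite_range_of_injective h1
  refine h2 ((Set.finite_range s).subset ?_)
  rintro _ ⟨a, rfl⟩
  exact hcon a

open Classical in
/-- The first exponent which does not occur for the column `j`. -/
noncomputable def nx (s : Fin r → Fin m × ℕ) (j : Fin m) : ℕ := Nat.find (exists_nx s j)

lemma nx_not (s : Fin r → Fin m × ℕ) (j : Fin m) : (j, nx s j) ∉ Set.range s := by
  classical
  exact Nat.find_spec (exists_nx s j)

lemma lt_nx {j : Fin m} {a : ℕ} (h : a < nx s j) : (j, a) ∈ Set.range s := by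
  classical
  by_contra hcon
  exact Nat.find_min (exists_nx s j) h hcon

lemma Dc.not_mem (hd : Dc s) {j : Fin m} {a : ℕ} (h : nx s j ≤ a) : (j, a) ∉ Set.range s := by
  obtain ⟨b, rfl⟩ := Nat.exists_eq_add_of_le h
  clear h
  induction b with
  | zero => exact nx_not s j
  | succ b ih => exact fun hcon => ih (hd j _ hcon)

lemma Dc.up_mem (hs : dt q x s ≠ 0) (hd : Dc s) (h : ∀ j, Ib q x C s (v q x (j, nx s j)))
    {n : Fin m × ℕ} (hn : n ∈ Set.range s) : Ib q x C s (v q x (up n)) := by
  by_cases h1 : up n ∈ Set.range s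
  · obtain ⟨l, hl⟩ := h1
    rw [← hl]
    exact Ib.self hs l
  · have h2 : n.2 < nx s n.1 := by
      by_contra hcon
      exact hd.not_mem (j := n.1) (a := n.2) (not_lt.1 hcon) hn
    have h3 : up n = (n.1, nx s n.1) := by
      have h4 : ¬ n.2 + 1 < nx s n.1 := fun h5 => h1 (lt_nx h5)
      unfold up
      rw [Prod.mk.injEq]
      exact ⟨rfl, by omega⟩
    rw [h3]
    exact h n.1

include hq hq0 in
/-- All the columns are integral combinations of the columns of a chart. -/
lemma Dc.all (hs : dt q x s ≠ 0) (hd : Dc s) (h : ∀ j, Ib q x C s (v q x (j, nx s j)))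
    (n : Fin m × ℕ) : Ib q x C s (v q x n) := by
  obtain ⟨j, a⟩ := n
  induction a with
  | zero =>
    by_cases h1 : 0 < nx s j
    · obtain ⟨l, hl⟩ := lt_nx h1
      rw [← hl]
      exact Ib.self hs l
    · have h2 : nx s j = 0 := by omega
      have h3 := h j
      rwa [h2] at h3
  | succ a ih =>
    have h1 := Ib.fr hq hq0 hs (fun l => hd.up_mem hs h ⟨l, rfl⟩) ih
    rw [fr_v] at h1
    exact h1

/-- The number of the columns of a chart. -/
lemma nx_le (j : Fin m) : nx s j ≤ r := by
  classical
  have h1 : ∀ a : Fin (nx s j), ∃ l, s l = (j, (a : ℕ)) := fun a => lt_nx a.2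
  choose f hf using h1
  have h2 : Function.Injective f := by
    intro a b hab
    have h3 := hf a
    rw [hab, hf b] at h3
    exact Fin.ext (Prod.mk.inj h3).2.symm
  simpa using Fintype.card_le_of_injective f h2

end basic

end Pool.Agent.Q2.VI
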