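import Pool.Agent.Q2.VI.Lin

/-!
Vector invariants of finite general linear groups: additive polynomials, the determinant of Moore
and the coefficients of Dickson.
-/

set_option autoImplicit false
set_option linter.unusedSectionVars false

open Matrix Polynomial

universe u v

namespace Pool.Agent.Q2.VI

section add

variable {F : Type v} {K : Type u} [Field F] [Fintype F] [Field K] [Algebra F K]

lemma card_pos' : 0 < Fintype.card F := Fintype.card_pos

lemma pow_add' (a b : K) : (a + b) ^ Fintype.card F = a ^ Fintype.card F + b ^ Fintype.card F :=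
  map_add (FiniteField.frobeniusAlgHom F K) a b

lemma pow_alg (u : F) : (algebraMap F K u) ^ Fintype.card F = algebraMap F K u := by
  rw [← map_pow, FiniteField.pow_card]

lemma pow_alg' (u : F) (a : ℕ) :
    (algebraMap F K u) ^ Fintype.card F ^ a = algebraMap F K u := by
  induction a with
  | zero => rw [pow_zero, pow_one]
  | succ a ih => rw [pow_succ, pow_mul, ih, pow_alg]

lemma pow_add'' (a b : K) (e : ℕ) : (a + b) ^ Fintype.card F ^ e =
    a ^ Fintype.card F ^ e + b ^ Fintype.card F ^ e := by
  induction e with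
  | zero => rw [pow_zero, pow_one, pow_one, pow_one]
  | succ e ih => rw [pow_succ, pow_mul, pow_mul, pow_mul, ih, pow_add']

variable (F) in
/-- The zeros of an additive polynomial form a vector space. -/
def zs {N : ℕ} (c : Fin N → K) (d : K) : Submodule F K where
  carrier := {t | d * t ^ Fintype.card F ^ N = ∑ a, c a * t ^ Fintype.card F ^ (a : ℕ)}
  add_mem' := by
    intro s t hs ht
    change d * (s + t) ^ Fintype.card F ^ N = _
    rw [pow_add'', mul_add, hs, ht, ← Finset.sum_add_distrib]
    refine Finset.sum_congr rfl fun a _ => ?_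
    rw [pow_add'', mul_add]
  zero_mem' := by
    change d * 0 ^ Fintype.card F ^ N = _
    rw [zero_pow (pow_pos Fintype.card_pos _).ne', mul_zero]
    symm
    refine Finset.sum_eq_zero fun a _ => ?_
    rw [zero_pow (pow_pos Fintype.card_pos _).ne', mul_zero]
  smul_mem' := by
    intro u t ht
    change d * (u • t) ^ Fintype.card F ^ N = _
    rw [Algebra.smul_def, mul_pow, pow_alg', mul_left_comm, ht, Finset.mul_sum]
    refine Finset.sum_congr rfl fun a _ => ?_
    rw [mul_pow, pow_alg', mul_left_comm]

lemma mem_zs {N : ℕ} {c : Fin N → K} {d t : K} :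
    t ∈ zs F c d ↔ d * t ^ Fintype.card F ^ N = ∑ a, c a * t ^ Fintype.card F ^ (a : ℕ) := Iff.rfl

/-- The additive polynomial. -/
noncomputable def ap (F : Type v) [Fintype F] {N : ℕ} (c : Fin N → K) (d : K) : K[X] :=
  C d * X ^ Fintype.card F ^ N - ∑ a : Fin N, C (c a) * X ^ Fintype.card F ^ (a : ℕ)

lemma eval_ap {N : ℕ} (c : Fin N → K) (d t : K) : (ap F c d).eval t =
    d * t ^ Fintype.card F ^ N - ∑ a, c a * t ^ Fintype.card F ^ (a : ℕ) := by
  unfold ap
  rw [eval_sub, eval_mul, eval_C, eval_pow, eval_X, eval_finsetSum]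
  congr 1
  refine Finset.sum_congr rfl fun a _ => ?_
  rw [eval_mul, eval_C, eval_pow, eval_X]

lemma coeff_ap {N : ℕ} (c : Fin N → K) (d : K) (a : Fin N) :
    (ap F c d).coeff (Fintype.card F ^ (a : ℕ)) = -c a := by
  have hq : 1 < Fintype.card F := Fintype.one_lt_card
  unfold ap
  rw [coeff_sub, coeff_C_mul, coeff_X_pow, finsetSum_coeff, if_neg, mul_zero, zero_sub, neg_inj,
    Finset.sum_eq_single a]
  · rw [coeff_C_mul, coeff_X_pow, if_pos rfl, mul_one]
  · intro b _ hb
    rw [coeff_C_mul, coeff_X_pow, if_neg, mul_zero]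
    intro h
    exact hb (Fin.ext (Nat.pow_right_injective hq h).symm)
  · intro h
    exact absurd (Finset.mem_univ a) h
  · intro h
    exact absurd (Nat.pow_right_injective hq h) a.2.ne

lemma degree_sum_lt {N : ℕ} (c : Fin N → K) :
    (∑ a : Fin N, C (c a) * X ^ Fintype.card F ^ (a : ℕ) : K[X]).degree <
      (Fintype.card F ^ N : ℕ) := by
  have hq : 1 < Fintype.card F := Fintype.one_lt_card
  refine lt_of_le_of_lt (degree_sum_le _ _) ?_
  rw [Finset.sup_lt_iff (WithBot.bot_lt_coe _)]
  intro a _
  refine lt_of_le_of_lt (degree_C_mul_X_pow_le _ _) ?_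
  exact_mod_cast Nat.pow_lt_pow_right hq a.2

lemma natDegree_ap_one {N : ℕ} (c : Fin N → K) : (ap F c 1).natDegree = Fintype.card F ^ N := by
  unfold ap
  rw [C_1, one_mul]
  refine natDegree_eq_of_degree_eq_some ?_
  rw [degree_sub_eq_left_of_degree_lt, degree_X_pow]
  rw [degree_X_pow]
  exact degree_sum_lt c

lemma monic_ap {N : ℕ} (c : Fin N → K) : (ap F c 1).Monic := by
  unfold ap
  rw [C_1, one_mul]
  refine monic_X_pow_sub ?_
  exact degree_sum_lt c

variable {r : ℕ} {y : Fin r → K}

lemma finite_span (y : Fin r → K) :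
    ((Submodule.span F (Set.range y) : Submodule F K) : Set K).Finite := by
  have h1 : Module.Finite F (Submodule.span F (Set.range y)) :=
    Module.Finite.span_of_finite F (Set.finite_range y)
  have h2 : Finite (Submodule.span F (Set.range y)) := Module.finite_of_finite F
  exact Set.toFinite _

/-- The linear combinations of the `y i`. -/
noncomputable def sp (F : Type v) [Field F] [Fintype F] [Algebra F K] (y : Fin r → K) : Finset K :=
  (finite_span (F := F) y).toFinset

lemma mem_sp {t : K} : t ∈ sp F y ↔ t ∈ Submodule.span F (Set.range y) := by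
  unfold sp
  rw [Set.Finite.mem_toFinset]
  rfl

lemma card_sp (hy : LinearIndependent F y) : (sp F y).card = Fintype.card F ^ r := by
  classical
  have h1 : Module.Finite F (Submodule.span F (Set.range y)) :=
    Module.Finite.span_of_finite F (Set.finite_range y)
  have h2 : Finite (Submodule.span F (Set.range y)) := Module.finite_of_finite F
  have h3 : Fintype (Submodule.span F (Set.range y)) := Fintype.ofFinite _
  have h4 := Module.card_eq_pow_finrank (K := F) (V := Submodule.span F (Set.range y))
  rw [finrank_span_eq_card hy, Fintype.card_fin] at h4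
  rw [← h4]
  symm
  refine Fintype.card_of_subtype _ fun t => ?_
  rw [mem_sp]

lemma span_le_zs {N : ℕ} {c : Fin N → K} {d : K}
    (h : ∀ i, d * y i ^ Fintype.card F ^ N = ∑ a, c a * y i ^ Fintype.card F ^ (a : ℕ)) :
    Submodule.span F (Set.range y) ≤ zs F c d := by
  rw [Submodule.span_le]
  rintro _ ⟨i, rfl⟩
  exact h i

/-- The determinant of Moore does not vanish. -/
lemma moore (hy : LinearIndependent F y) (c : Fin r → K)
    (h : ∀ i, ∑ a, c a * y i ^ Fintype.card F ^ (a : ℕ) = 0) : c = 0 := by
  have hle : Submodule.span F (Set.range y) ≤ zs F c 0 := by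
    refine span_le_zs fun i => ?_
    rw [h i, zero_mul]
  have hP : (∑ a : Fin r, C (c a) * X ^ Fintype.card F ^ (a : ℕ) : K[X]) = 0 := by
    refine eq_zero_of_degree_lt_of_eval_finset_eq_zero (sp F y) ?_ ?_
    · rw [card_sp hy]
      exact degree_sum_lt c
    · intro t ht
      have h1 := mem_zs.1 (hle (mem_sp.1 ht))
      rw [zero_mul] at h1
      rw [eval_finsetSum, h1]
      refine Finset.sum_congr rfl fun a _ => ?_
      rw [eval_mul, eval_C, eval_pow, eval_X]
  funext a
  have h1 := coeff_ap (F := F) c 0 a
  unfold ap at h1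
  rw [hP, C_0, zero_mul, sub_zero, coeff_zero] at h1
  exact neg_eq_zero.1 h1.symm

/-- The additive polynomial with given zeros. -/
lemma ap_eq_prod (hy : LinearIndependent F y) (c : Fin r → K)
    (h : ∀ i, y i ^ Fintype.card F ^ r = ∑ a, c a * y i ^ Fintype.card F ^ (a : ℕ)) :
    ap F c 1 = ((sp F y).val.map fun t => X - C t).prod := by
  have hle : Submodule.span F (Set.range y) ≤ zs F c 1 := by
    refine span_le_zs fun i => ?_
    rw [one_mul, h i]
  have h0 : ap F c 1 ≠ 0 := (monic_ap c).ne_zero
  have hroot : ∀ t ∈ sp F y, t ∈ (ap F c 1).roots := by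
    intro t ht
    rw [mem_roots h0, IsRoot.def, eval_ap, mem_zs.1 (hle (mem_sp.1 ht)), sub_self]
  have hsub : (sp F y).val ≤ (ap F c 1).roots :=
    (Multiset.le_iff_subset (sp F y).nodup).2 fun t ht => hroot t ht
  have hcard : Multiset.card (ap F c 1).roots ≤ Multiset.card (sp F y).val := by
    refine (card_roots' _).trans ?_
    rw [natDegree_ap_one, Finset.card_val, card_sp hy]
  have heq := Multiset.eq_of_le_of_card_le hsub hcard
  have hprod : ((ap F c 1).roots.map fun t => X - C t).prod = ap F c 1 := by
    refine prod_multiset_X_sub_C_of_monic_of_roots_card_eq (monic_ap c) ?_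
    rw [← heq, Finset.card_val, card_sp hy, natDegree_ap_one]
  rw [heq]
  exact hprod.symm

/-- The coefficients of Dickson are integral. -/
lemma dickson (hy : LinearIndependent F y) (c : Fin r → K)
    (h : ∀ i, y i ^ Fintype.card F ^ r = ∑ a, c a * y i ^ Fintype.card F ^ (a : ℕ))
    (V : Subring K) (hV : ∀ i, y i ∈ V) (hF : ∀ u : F, algebraMap F K u ∈ V) (a : Fin r) :
    c a ∈ V := by
  have hV' : ∀ t ∈ Submodule.span F (Set.range y), t ∈ V := by
    intro t ht
    induction ht using Submodule.span_induction with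
    | mem t ht => obtain ⟨i, rfl⟩ := ht; exact hV i
    | zero => exact V.zero_mem
    | add s t _ _ hs ht => exact V.add_mem hs ht
    | smul u t _ ht => rw [Algebra.smul_def]; exact V.mul_mem (hF u) ht
  have hlift : ap F c 1 ∈ Polynomial.lifts V.subtype := by
    rw [ap_eq_prod hy c h]
    refine Subsemiring.multiset_prod_mem _ _ fun P hP => ?_
    rw [Multiset.mem_map] at hP
    obtain ⟨t, ht, rfl⟩ := hP
    rw [Polynomial.lifts_iff_coeff_lifts]
    intro n
    have htV := hV' t (mem_sp.1 ht)
    refine ⟨⟨(X - C t).coeff n, ?_⟩, rfl⟩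
    rw [coeff_sub, coeff_X, coeff_C]
    refine V.sub_mem ?_ ?_
    · split_ifs
      · exact V.one_mem
      · exact V.zero_mem
    · split_ifs
      · exact htV
      · exact V.zero_mem
  rw [Polynomial.lifts_iff_coeff_lifts] at hlift
  obtain ⟨b, hb⟩ := hlift (Fintype.card F ^ (a : ℕ))
  rw [coeff_ap] at hb
  have h2 : -c a ∈ V := by rw [← hb]; exact b.2
  have h3 := V.neg_mem h2
  rwa [neg_neg] at h3

lemma ap_splits (hy : LinearIndependent F y) (c : Fin r → K)
    (h : ∀ i, y i ^ Fintype.card F ^ r = ∑ a, c a * y i ^ Fintype.card F ^ (a : ℕ)) :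
    (ap F c 1).Splits := by
  rw [ap_eq_prod hy c h]
  refine Splits.multisetProd fun P hP => ?_
  rw [Multiset.mem_map] at hP
  obtain ⟨t, _, rfl⟩ := hP
  exact Splits.X_sub_C t

lemma ap_separable (hy : LinearIndependent F y) (c : Fin r → K)
    (h : ∀ i, y i ^ Fintype.card F ^ r = ∑ a, c a * y i ^ Fintype.card F ^ (a : ℕ)) :
    (ap F c 1).Separable := by
  rw [ap_eq_prod hy c h]
  change (∏ t ∈ sp F y, (X - C t)).Separable
  rw [separable_prod_X_sub_C_iff']
  intro a _ b _ hab
  exact hab

/-- The elements which are fixed by the `q`-th power map. -/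
lemma mem_range_of_pow {t : K} (ht : t ^ Fintype.card F = t) : ∃ u : F, algebraMap F K u = t := by
  classical
  by_contra hcon
  push Not at hcon
  have hq : 1 < Fintype.card F := Fintype.one_lt_card
  have hinj : Function.Injective (algebraMap F K) := (algebraMap F K).injective
  let S : Finset K := insert t (Finset.univ.image (algebraMap F K))
  have hS : S.card = Fintype.card F + 1 := by
    rw [Finset.card_insert_of_notMem, Finset.card_image_of_injective _ hinj, Finset.card_univ]
    rw [Finset.mem_image]
    rintro ⟨u, _, hu⟩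
    exact hcon u hu
  have h1 : (X ^ Fintype.card F - X : K[X]) = 0 := by
    refine eq_zero_of_natDegree_lt_card_of_eval_eq_zero' _ S (fun a ha => ?_) ?_
    · rw [eval_sub, eval_pow, eval_X, sub_eq_zero]
      rw [Finset.mem_insert, Finset.mem_image] at ha
      rcases ha with rfl | ⟨u, _, rfl⟩
      · exact ht
      · exact pow_alg u
    · rw [FiniteField.X_pow_card_sub_X_natDegree_eq K hq, hS]
      exact Nat.lt_succ_self _
  exact FiniteField.X_pow_card_sub_X_ne_zero K hq h1

end add

end Pool.Agent.Q2.VI
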