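import Pool.Agent.Q2.VI.Tgal
import Pool.Agent.H920R2.Crit
import Pool.Agent.H920R2.Trans

/-!
Vector invariants: the polynomial ring with an arbitrary finite set of rows.
-/

set_option autoImplicit false
set_option linter.unusedSectionVars false

open Matrix MvPolynomial

universe u v

namespace Pool.Agent.Q2.VI

section pol

variable {F : Type v} {k : Type u} [Field F] [Fintype F] [Field k] [Algebra F k] {ι : Type}
  [Fintype ι] [DecidableEq ι] {m : ℕ}

variable (k m) in
/-- The substitution `X i j ↦ ∑ l, g i l * X l j`. -/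
noncomputable def sg (g : Matrix ι ι F) :
    MvPolynomial (ι × Fin m) k →ₐ[k] MvPolynomial (ι × Fin m) k :=
  aeval fun w => ∑ l, C (algebraMap F k (g w.1 l)) * X (l, w.2)

lemma sg_X (g : Matrix ι ι F) (i : ι) (j : Fin m) :
    sg k m g (X (i, j)) = ∑ l, C (algebraMap F k (g i l)) * X (l, j) := by
  unfold sg
  rw [aeval_X]

variable (F k) in
/-- The combination `∑ i, u i * X i j` of the variables. -/
noncomputable def lcg (u : ι → F) (j : Fin m) : MvPolynomial (ι × Fin m) k :=
  ∑ i, C (algebraMap F k (u i)) * X (i, j)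

lemma sg_lcg (g : Matrix ι ι F) (u : ι → F) (j : Fin m) :
    sg k m g (lcg F k u j) = lcg F k (u ᵥ* g) j := by
  unfold lcg
  rw [map_sum]
  have h1 : ∀ i, sg k m g (C (algebraMap F k (u i)) * X (i, j)) =
      ∑ l, C (algebraMap F k (u i * g i l)) * X (l, j) := by
    intro i
    have h2 : sg k m g (C (algebraMap F k (u i))) = C (algebraMap F k (u i)) :=
      AlgHom.commutes _ _
    rw [map_mul, h2, sg_X, Finset.mul_sum]
    refine Finset.sum_congr rfl fun l _ => ?_
    rw [map_mul, C_mul, mul_assoc]
  rw [Finset.sum_congr rfl fun i _ => h1 i, Finset.sum_comm]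
  refine Finset.sum_congr rfl fun l _ => ?_
  rw [← Finset.sum_mul, ← map_sum, ← map_sum]
  rfl

lemma sg_sg (g h : Matrix ι ι F) (f : MvPolynomial (ι × Fin m) k) :
    sg k m g (sg k m h f) = sg k m (h * g) f := by
  have h1 : (sg k m g).comp (sg k m h) = sg k m (h * g) := by
    apply MvPolynomial.algHom_ext
    rintro ⟨i, j⟩
    change sg k m g (sg k m h (X (i, j))) = _
    rw [sg_X, sg_X]
    have h2 := sg_lcg (k := k) g (fun l => h i l) j
    unfold lcg at h2
    rw [h2]
    refine Finset.sum_congr rfl fun l _ => ?_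
    rfl
  exact congrArg (fun φ : MvPolynomial (ι × Fin m) k →ₐ[k] MvPolynomial (ι × Fin m) k => φ f) h1

lemma sg_one (f : MvPolynomial (ι × Fin m) k) : sg k m (1 : Matrix ι ι F) f = f := by
  have h1 : sg k m (1 : Matrix ι ι F) = AlgHom.id k _ := by
    apply MvPolynomial.algHom_ext
    rintro ⟨i, j⟩
    rw [sg_X, Finset.sum_eq_single i]
    · rw [one_apply_eq, map_one, C_1, one_mul]
      rfl
    · intro l _ hl
      rw [one_apply_ne (Ne.symm hl), map_zero, C_0, zero_mul]
    · intro h
      exact absurd (Finset.mem_univ i) h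
  rw [h1]
  rfl

lemma sg_inj {g : Matrix ι ι F} (hg : IsUnit g.det) : Function.Injective (sg k m g) := by
  intro f f' h
  have h1 := congrArg (sg k m g⁻¹) h
  rwa [sg_sg, sg_sg, mul_nonsing_inv g hg, sg_one, sg_one] at h1

variable (F k) in
/-- The polynomial of Dickson. -/
noncomputable def dkg (ι : Type) [Fintype ι] [DecidableEq ι] {m : ℕ} (j : Fin m) :
    Polynomial (MvPolynomial (ι × Fin m) k) :=
  ∏ u : ι → F, (Polynomial.X - Polynomial.C (lcg F k u j))

lemma monic_dkg (j : Fin m) : (dkg F k ι j).Monic :=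
  Polynomial.monic_prod_of_monic _ _ fun _ _ => Polynomial.monic_X_sub_C _

lemma map_dkg (g : Matrix ι ι F) (hg : g.det ≠ 0) (j : Fin m) :
    (dkg F k ι j).map (sg k m g).toRingHom = dkg F k ι j := by
  classical
  unfold dkg
  rw [Polynomial.map_prod]
  have h1 : ∀ u : ι → F, (Polynomial.X - Polynomial.C (lcg F k u j)).map
      (sg k m g).toRingHom =
      Polynomial.X - Polynomial.C (lcg F k (u ᵥ* g) j) := by
    intro u
    rw [Polynomial.map_sub, Polynomial.map_X, Polynomial.map_C]
    congr 2
    exact sg_lcg g u j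
  rw [Finset.prod_congr rfl fun u _ => h1 u]
  have hinj : Function.Injective fun u : ι → F => u ᵥ* g :=
    vecMul_injective_of_isUnit ((isUnit_iff_isUnit_det g).2 (isUnit_iff_ne_zero.2 hg))
  exact Fintype.prod_bijective (fun u : ι → F => u ᵥ* g)
    ⟨hinj, Finite.surjective_of_injective hinj⟩ _ _ fun u => rfl

lemma eval_dkg (i : ι) (j : Fin m) : (dkg F k ι j).eval (X (i, j)) = 0 := by
  classical
  unfold dkg
  rw [Polynomial.eval_prod]
  refine Finset.prod_eq_zero (Finset.mem_univ (Pi.single i 1)) ?_
  rw [Polynomial.eval_sub, Polynomial.eval_X, Polynomial.eval_C, sub_eq_zero]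
  unfold lcg
  rw [Finset.sum_eq_single i]
  · rw [Pi.single_eq_same, map_one, C_1, one_mul]
  · intro l _ hl
    rw [Pi.single_eq_of_ne hl, map_zero, C_0, zero_mul]
  · intro h
    exact absurd (Finset.mem_univ i) h

/-- The polynomial ring is integral over a subalgebra which contains the invariants of the general
linear group. -/
lemma isIntegral_invg (A : Subalgebra k (MvPolynomial (ι × Fin m) k))
    (hA : ∀ f, (∀ g : Matrix ι ι F, g.det ≠ 0 → sg k m g f = f) → f ∈ A) :
    Algebra.IsIntegral A (MvPolynomial (ι × Fin m) k) := by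
  have hX : ∀ w : ι × Fin m, IsIntegral A (X w : MvPolynomial (ι × Fin m) k) := by
    rintro ⟨i, j⟩
    have hco : ∀ n, (dkg F k ι j).coeff n ∈ A := by
      intro n
      refine hA _ fun g hg => ?_
      have h1 := congrArg (fun P => Polynomial.coeff P n) (map_dkg (k := k) g hg j)
      simp only [Polynomial.coeff_map] at h1
      exact h1
    have hl : dkg F k ι j ∈ Polynomial.lifts (algebraMap A (MvPolynomial (ι × Fin m) k)) := by
      rw [Polynomial.lifts_iff_coeff_lifts]
      intro n
      exact ⟨⟨_, hco n⟩, rfl⟩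
    obtain ⟨P, hP, _, hP1⟩ := Polynomial.lifts_and_degree_eq_and_monic hl (monic_dkg j)
    refine ⟨P, hP1, ?_⟩
    rw [← Polynomial.eval_map, hP]
    exact eval_dkg i j
  have h1 : integralClosure A (MvPolynomial (ι × Fin m) k) = ⊤ := by
    rw [eq_top_iff]
    intro f _
    induction f using MvPolynomial.induction_on with
    | C a =>
      have : (C a : MvPolynomial (ι × Fin m) k) =
          algebraMap A (MvPolynomial (ι × Fin m) k) (algebraMap k A a) := rfl
      rw [this]
      exact Subalgebra.algebraMap_mem _ _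
    | add p q hp hq => exact Subalgebra.add_mem _ (hp trivial) (hq trivial)
    | mul_X p w hp => exact Subalgebra.mul_mem _ (hp trivial) (hX w)
  exact ⟨fun f => by
    have : f ∈ integralClosure A (MvPolynomial (ι × Fin m) k) := by rw [h1]; trivial
    exact this⟩

lemma finiteType_invg (A : Subalgebra k (MvPolynomial (ι × Fin m) k))
    (hA : ∀ f, (∀ g : Matrix ι ι F, g.det ≠ 0 → sg k m g f = f) → f ∈ A) :
    Algebra.FiniteType k A := by
  have h1 := isIntegral_invg A hA
  have h2 : Algebra.FiniteType A (MvPolynomial (ι × Fin m) k) := by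
    apply Algebra.FiniteType.of_restrictScalars_finiteType k
  have h3 : Module.Finite A (MvPolynomial (ι × Fin m) k) := Algebra.IsIntegral.finite
  refine ⟨?_⟩
  refine fg_of_fg_of_fg k A (MvPolynomial (ι × Fin m) k) ?_ h3.1 ?_
  · exact (inferInstance : Algebra.FiniteType k (MvPolynomial (ι × Fin m) k)).1
  · exact Subtype.val_injective

end pol

section base

variable {F : Type} {k : Type u} [Field F] [Fintype F] [Field k] [Algebra F k] {ι : Type}
  [Fintype ι] [DecidableEq ι] {m : ℕ}
  {K : Type u} [Field K] [Algebra (MvPolynomial (ι × Fin m) k) K]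
  [IsFractionRing (MvPolynomial (ι × Fin m) k) K] [Algebra k K]
  [IsScalarTower k (MvPolynomial (ι × Fin m) k) K] [Algebra F K] [IsScalarTower F k K]

variable (k K) in
/-- The variables in the field of fractions. -/
noncomputable def xg (ι : Type) (m : ℕ) [Algebra (MvPolynomial (ι × Fin m) k) K] (i : ι)
    (j : Fin m) : K := algebraMap (MvPolynomial (ι × Fin m) k) K (X (i, j))

lemma alg_injg : Function.Injective (algebraMap (MvPolynomial (ι × Fin m) k) K) :=
  IsFractionRing.injective _ _

lemma xg_ind : AlgebraicIndependent k fun w : ι × Fin m => xg k K ι m w.1 w.2 := by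
  have h1 : AlgebraicIndependent k (fun w => X w : ι × Fin m → MvPolynomial (ι × Fin m) k) :=
    MvPolynomial.algebraicIndependent_X _ _
  exact h1.map' (f := IsScalarTower.toAlgHom k (MvPolynomial (ι × Fin m) k) K) alg_injg

lemma xg_top : IntermediateField.adjoin k
    (Set.range fun w : ι × Fin m => xg k K ι m w.1 w.2) = ⊤ := by
  rw [eq_top_iff]
  intro y _
  obtain ⟨a, b, hb, rfl⟩ := IsFractionRing.div_surjective (A := MvPolynomial (ι × Fin m) k) y
  have h1 : ∀ f : MvPolynomial (ι × Fin m) k,
      algebraMap (MvPolynomial (ι × Fin m) k) K f ∈ IntermediateField.adjoin k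
        (Set.range fun w : ι × Fin m => xg k K ι m w.1 w.2) := by
    intro f
    induction f using MvPolynomial.induction_on with
    | C a =>
      have h2 : algebraMap (MvPolynomial (ι × Fin m) k) K (C a) = algebraMap k K a := by
        rw [IsScalarTower.algebraMap_apply k (MvPolynomial (ι × Fin m) k) K]
        rfl
      rw [h2]
      exact IntermediateField.algebraMap_mem _ _
    | add p q hp hq =>
      rw [map_add]
      exact IntermediateField.add_mem _ hp hq
    | mul_X p w hp =>
      rw [map_mul]
      exact IntermediateField.mul_mem _ hp (IntermediateField.subset_adjoin _ _ ⟨w, rfl⟩)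
  exact IntermediateField.div_mem _ (h1 a) (h1 b)

lemma sg_bx (B : Matrix ι ι F) (i : ι) (j : Fin m) :
    algebraMap (MvPolynomial (ι × Fin m) k) K (sg k m B (X (i, j))) =
      bx B (xg k K ι m) i j := by
  rw [sg_X, map_sum]
  refine Finset.sum_congr rfl fun l _ => ?_
  rw [map_mul, IsScalarTower.algebraMap_apply F k K,
    IsScalarTower.algebraMap_apply k (MvPolynomial (ι × Fin m) k) K]
  rfl

/-- Automorphisms of the field which act linearly on the variables. -/
lemma sigma_eqg {B : Matrix ι ι F} (σ : K →ₐ[k] K)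
    (h : ∀ i j, σ (xg k K ι m i j) = bx B (xg k K ι m) i j)
    (f : MvPolynomial (ι × Fin m) k) :
    σ (algebraMap _ K f) = algebraMap _ K (sg k m B f) := by
  have h1 : σ.comp (IsScalarTower.toAlgHom k (MvPolynomial (ι × Fin m) k) K) =
      (IsScalarTower.toAlgHom k (MvPolynomial (ι × Fin m) k) K).comp (sg k m B) := by
    apply MvPolynomial.algHom_ext
    rintro ⟨i, j⟩
    exact (h i j).trans (sg_bx B i j).symm
  exact congrArg (fun φ : MvPolynomial (ι × Fin m) k →ₐ[k] K => φ f) h1

/-- The substitution extends to the field of fractions. -/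
lemma exists_sigma {B : Matrix ι ι F} (hB : IsUnit B.det) :
    ∃ σ : K →ₐ[k] K, ∀ i j, σ (xg k K ι m i j) = bx B (xg k K ι m) i j := by
  let φ : MvPolynomial (ι × Fin m) k →+* K := (algebraMap _ K).comp (sg k m B).toRingHom
  have hφ : Function.Injective φ := alg_injg.comp (sg_inj hB)
  let σ : K →+* K := IsFractionRing.lift hφ
  have h1 : ∀ f : MvPolynomial (ι × Fin m) k, σ (algebraMap _ K f) =
      algebraMap _ K (sg k m B f) := fun f => IsFractionRing.lift_algebraMap hφ f
  refine ⟨{ toRingHom := σ, commutes' := fun c => ?_ },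
    fun i j => (h1 (X (i, j))).trans (sg_bx B i j)⟩
  have h2 : algebraMap k K c = algebraMap (MvPolynomial (ι × Fin m) k) K (C c) := by
    rw [IsScalarTower.algebraMap_apply k (MvPolynomial (ι × Fin m) k) K]
    rfl
  change σ (algebraMap k K c) = algebraMap k K c
  rw [h2, h1]
  congr 1
  exact AlgHom.commutes _ _

/-- The polynomial ring is integrally closed. -/
lemma int_range {y : K} (hy : IsIntegral
    (IsScalarTower.toAlgHom k (MvPolynomial (ι × Fin m) k) K).range y) :
    ∃ f : MvPolynomial (ι × Fin m) k, algebraMap _ K f = y := by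
  obtain ⟨P, hP, hP0⟩ := hy
  have hl : P.map (algebraMap (IsScalarTower.toAlgHom k (MvPolynomial (ι × Fin m) k) K).range K) ∈
      Polynomial.lifts (algebraMap (MvPolynomial (ι × Fin m) k) K) := by
    rw [Polynomial.lifts_iff_coeff_lifts]
    intro i
    rw [Polynomial.coeff_map]
    obtain ⟨f, hf⟩ := (P.coeff i).2
    exact ⟨f, hf⟩
  obtain ⟨Q, hQ, _, hQ1⟩ := Polynomial.lifts_and_degree_eq_and_monic hl (hP.map _)
  have h1 : IsIntegral (MvPolynomial (ι × Fin m) k) y := by
    refine ⟨Q, hQ1, ?_⟩
    rw [← Polynomial.eval_map, hQ, Polynomial.eval_map]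
    exact hP0
  exact IsIntegrallyClosed.isIntegral_iff.1 h1

end base

end Pool.Agent.Q2.VI
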