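import Pool.Agent.Q2.VI.Chart

/-!
Vector invariants of parabolic subgroups: the remaining rows.
-/

set_option autoImplicit false
set_option linter.unusedSectionVars false

open Matrix

universe u v

namespace Pool.Agent.Q2.VI

section row

variable {F : Type v} {k K : Type u} [Field F] [Fintype F] [Field k] [Field K] [Algebra F k]
  [Algebra k K] [Algebra F K] [IsScalarTower F k K] {r m : ℕ} {ι : Type}

/-- The columns for an arbitrary set of rows. -/
def cl (q : ℕ) (y : ι → Fin m → K) (n : Fin m × ℕ) (i : ι) : K := y i n.1 ^ q ^ n.2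

lemma cl_up (q : ℕ) (y : ι → Fin m → K) (n : Fin m × ℕ) (i : ι) :
    cl q y (up n) i = cl q y n i ^ q := by
  unfold cl up
  rw [← pow_mul, pow_succ]

/-- The difference of a column and the combination of the columns of the chart which agrees with
it on the first rows. -/
noncomputable def rm (q : ℕ) (x : Fin r → Fin m → K) (s : Fin r → Fin m × ℕ)
    (y : ι → Fin m → K) (n : Fin m × ℕ) (i : ι) : K :=
  cl q y n i - ∑ l, co q x s (v q x n) l * cl q y (s l) i

/-- The new rows. -/
noncomputable def yw (q : ℕ) (x : Fin r → Fin m → K) (s : Fin r → Fin m × ℕ)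
    (y : ι → Fin m → K) (i : ι) (j : Fin m) : K := rm q x s y (j, nx s j) i

/-- The lattice of the columns. -/
def Lt (q : ℕ) (C : Subring K) (y : ι → Fin m → K) : Submodule C (ι → K) :=
  Submodule.span C (Set.range (cl q y))

variable {x : Fin r → Fin m → K} {s : Fin r → Fin m × ℕ} {y : ι → Fin m → K} {C : Subring K}

lemma cl_mem (n : Fin m × ℕ) : cl (Fintype.card F) y n ∈ Lt (Fintype.card F) C y :=
  Submodule.subset_span ⟨n, rfl⟩

lemma Lt_fr {u : ι → K} (hu : u ∈ Lt (Fintype.card F) C y) :
    (fun i => u i ^ Fintype.card F) ∈ Lt (Fintype.card F) C y := by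
  induction hu using Submodule.span_induction with
  | mem u hu =>
    obtain ⟨n, rfl⟩ := hu
    have h1 : (fun i => cl (Fintype.card F) y n i ^ Fintype.card F) =
        cl (Fintype.card F) y (up n) := by
      funext i
      rw [cl_up]
    rw [h1]
    exact cl_mem _
  | zero =>
    have h1 : (fun i => (0 : ι → K) i ^ Fintype.card F) = 0 := by
      funext i
      exact zero_pow Fintype.card_ne_zero
    rw [h1]
    exact Submodule.zero_mem _
  | add u w _ _ hu hw =>
    have h1 : (fun i => (u + w) i ^ Fintype.card F) =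
        (fun i => u i ^ Fintype.card F) + fun i => w i ^ Fintype.card F := by
      funext i
      exact pow_add' _ _
    rw [h1]
    exact Submodule.add_mem _ hu hw
  | smul c u _ hu =>
    have h1 : (fun i => (c • u) i ^ Fintype.card F) =
        (c ^ Fintype.card F) • fun i => u i ^ Fintype.card F := by
      funext i
      change ((c : K) * u i) ^ Fintype.card F = ((c ^ Fintype.card F : C) : K) * _
      rw [mul_pow]
      rfl
    rw [h1]
    exact Submodule.smul_mem _ _ hu

lemma Lt_entry (hy : ∀ i j, y i j ∈ C) {u : ι → K} (hu : u ∈ Lt (Fintype.card F) C y) (i : ι) :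
    u i ∈ C := by
  induction hu using Submodule.span_induction with
  | mem u hu =>
    obtain ⟨n, rfl⟩ := hu
    exact C.pow_mem (hy _ _) _
  | zero => exact C.zero_mem
  | add u w _ _ hu hw => exact C.add_mem hu hw
  | smul c u _ hu => exact C.mul_mem c.2 hu

lemma rm_self (hs : dt (Fintype.card F) x s ≠ 0) (l : Fin r) :
    rm (Fintype.card F) x s y (s l) = 0 := by
  funext i
  unfold rm
  rw [co_v_self hs, Finset.sum_eq_single l]
  · rw [Pi.single_eq_same, one_mul, sub_self]
    rfl
  · intro l' _ hl
    rw [Pi.single_eq_of_ne hl, zero_mul]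
  · intro h
    exact absurd (Finset.mem_univ l) h

lemma co_up (hs : dt (Fintype.card F) x s ≠ 0) (n : Fin m × ℕ) (l' : Fin r) :
    co (Fintype.card F) x s (v (Fintype.card F) x (up n)) l' =
      ∑ l, co (Fintype.card F) x s (v (Fintype.card F) x n) l ^ Fintype.card F *
        co (Fintype.card F) x s (v (Fintype.card F) x (up (s l))) l' := by
  have h := fr_eq (x := x) (s := s) pow_add' Fintype.card_pos hs (v (Fintype.card F) x n)
  rw [fr_v] at h
  rw [h, co_sum, Finset.sum_apply]
  refine Finset.sum_congr rfl fun l _ => ?_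
  rw [co_smul, Pi.smul_apply, smul_eq_mul]

lemma rm_up (hs : dt (Fintype.card F) x s ≠ 0) (n : Fin m × ℕ) :
    rm (Fintype.card F) x s y (up n) =
      (∑ l, fun i => co (Fintype.card F) x s (v (Fintype.card F) x n) l ^ Fintype.card F *
        rm (Fintype.card F) x s y (up (s l)) i) +
      fun i => rm (Fintype.card F) x s y n i ^ Fintype.card F := by
  funext i
  rw [Pi.add_apply, Finset.sum_apply]
  have h1 : cl (Fintype.card F) y n i = rm (Fintype.card F) x s y n i +
      ∑ l, co (Fintype.card F) x s (v (Fintype.card F) x n) l *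
        cl (Fintype.card F) y (s l) i := by
    unfold rm
    rw [sub_add_cancel]
  have h2 : cl (Fintype.card F) y (up n) i = rm (Fintype.card F) x s y n i ^ Fintype.card F +
      ∑ l, co (Fintype.card F) x s (v (Fintype.card F) x n) l ^ Fintype.card F *
        cl (Fintype.card F) y (up (s l)) i := by
    rw [cl_up, h1, pow_add', pow_sum pow_add' Fintype.card_pos]
    congr 1
    refine Finset.sum_congr rfl fun l _ => ?_
    rw [mul_pow, cl_up]
  have h3 : rm (Fintype.card F) x s y (up n) i = cl (Fintype.card F) y (up n) i -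
      ∑ l', co (Fintype.card F) x s (v (Fintype.card F) x (up n)) l' *
        cl (Fintype.card F) y (s l') i := rfl
  rw [h3, h2]
  have h4 : ∑ l', co (Fintype.card F) x s (v (Fintype.card F) x (up n)) l' *
      cl (Fintype.card F) y (s l') i =
      ∑ l, co (Fintype.card F) x s (v (Fintype.card F) x n) l ^ Fintype.card F *
        ∑ l', co (Fintype.card F) x s (v (Fintype.card F) x (up (s l))) l' *
          cl (Fintype.card F) y (s l') i := by
    have h5 : ∀ l', co (Fintype.card F) x s (v (Fintype.card F) x (up n)) l' *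
        cl (Fintype.card F) y (s l') i =
        ∑ l, co (Fintype.card F) x s (v (Fintype.card F) x n) l ^ Fintype.card F *
          (co (Fintype.card F) x s (v (Fintype.card F) x (up (s l))) l' *
          cl (Fintype.card F) y (s l') i) := by
      intro l'
      rw [co_up hs, Finset.sum_mul]
      exact Finset.sum_congr rfl fun l _ => mul_assoc _ _ _
    rw [Finset.sum_congr rfl fun l' _ => h5 l', Finset.sum_comm]
    exact Finset.sum_congr rfl fun l _ => (Finset.mul_sum _ _ _).symm
  rw [h4, add_sub_assoc, ← Finset.sum_sub_distrib, add_comm]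
  congr 1
  refine Finset.sum_congr rfl fun l _ => ?_
  rw [← mul_sub]
  rfl

lemma rm_nx (j : Fin m) : rm (Fintype.card F) x s y (j, nx s j) ∈ Lt (Fintype.card F) C
    (yw (Fintype.card F) x s y) := by
  have h1 : rm (Fintype.card F) x s y (j, nx s j) =
      cl (Fintype.card F) (yw (Fintype.card F) x s y) (j, 0) := by
    funext i
    unfold cl yw
    rw [pow_zero, pow_one]
  rw [h1]
  exact cl_mem _

lemma rm_frontier (hs : dt (Fintype.card F) x s ≠ 0) (hd : Dc s) {n : Fin m × ℕ}
    (hn : n ∈ Set.range s) : rm (Fintype.card F) x s y (up n) ∈ Lt (Fintype.card F) C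
      (yw (Fintype.card F) x s y) := by
  by_cases h1 : up n ∈ Set.range s
  · obtain ⟨l, hl⟩ := h1
    rw [← hl, rm_self hs]
    exact Submodule.zero_mem _
  · have h2 : n.2 < nx s n.1 := by
      by_contra hcon
      exact hd.not_mem (j := n.1) (a := n.2) (not_lt.1 hcon) hn
    have h3 : up n = (n.1, nx s n.1) := by
      have h4 : ¬ n.2 + 1 < nx s n.1 := fun h5 => h1 (lt_nx h5)
      unfold up
      rw [Prod.mk.injEq]
      exact ⟨rfl, by omega⟩
    rw [h3]
    exact rm_nx _

/-- The differences belong to the lattice of the new rows. -/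
theorem rm_mem (hs : dt (Fintype.card F) x s ≠ 0) (hd : Dc s)
    (h : ∀ n, Ib (Fintype.card F) x C s (v (Fintype.card F) x n)) (n : Fin m × ℕ) :
    rm (Fintype.card F) x s y n ∈ Lt (Fintype.card F) C (yw (Fintype.card F) x s y) := by
  obtain ⟨j, a⟩ := n
  induction a with
  | zero =>
    by_cases h1 : 0 < nx s j
    · obtain ⟨l, hl⟩ := lt_nx h1
      rw [← hl, rm_self hs]
      exact Submodule.zero_mem _
    · have h2 : nx s j = 0 := by omega
      have h3 := rm_nx (F := F) (x := x) (s := s) (y := y) (C := C) j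
      rwa [h2] at h3
  | succ a ih =>
    have h1 := rm_up (y := y) hs (j, a)
    change rm (Fintype.card F) x s y (up (j, a)) ∈ _
    rw [h1]
    refine Submodule.add_mem _ (Submodule.sum_mem _ fun l _ => ?_) (Lt_fr ih)
    have h2 : (fun i => co (Fintype.card F) x s (v (Fintype.card F) x (j, a)) l ^ Fintype.card F *
        rm (Fintype.card F) x s y (up (s l)) i) =
        (⟨_, C.pow_mem (h (j, a) l) (Fintype.card F)⟩ : C) •
          rm (Fintype.card F) x s y (up (s l)) := rfl
    rw [h2]
    exact Submodule.smul_mem _ _ (rm_frontier hs hd ⟨l, rfl⟩)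

lemma cl_eq (n : Fin m × ℕ) (i : ι) : cl (Fintype.card F) y n i =
    ∑ l, co (Fintype.card F) x s (v (Fintype.card F) x n) l * cl (Fintype.card F) y (s l) i +
      rm (Fintype.card F) x s y n i := by
  unfold rm
  rw [add_sub_cancel]

/-- The remaining rows belong to all valuation rings which contain the coordinates. -/
lemma row_mem (hs : dt (Fintype.card F) x s ≠ 0) (hd : Dc s) (V : ValuationSubring K)
    (h : ∀ n, Ib (Fintype.card F) x V.toSubring s (v (Fintype.card F) x n))
    (hY : ∀ i j, yw (Fintype.card F) x s y i j ∈ V) (i : ι) (j : Fin m) : y i j ∈ V := by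
  classical
  have hq : 1 < Fintype.card F := Fintype.one_lt_card
  have hR : ∀ n, rm (Fintype.card F) x s y n i ∈ V := fun n =>
    Lt_entry (C := V.toSubring) hY (rm_mem hs hd h n) i
  have hz : ∀ l, cl (Fintype.card F) y (s l) i ∈ V := by
    by_contra hcon
    push Not at hcon
    obtain ⟨l1, hl1⟩ := hcon
    have hne : Nonempty (Fin r) := ⟨l1⟩
    obtain ⟨l0, hl0⟩ := Finite.exists_max fun l : Fin r =>
      V.valuation (cl (Fintype.card F) y (s l) i)
    have h1 : 1 < V.valuation (cl (Fintype.card F) y (s l0) i) := by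
      refine lt_of_lt_of_le ?_ (hl0 l1)
      rw [← not_le, V.valuation_le_one_iff]
      exact hl1
    have h2 : V.valuation (cl (Fintype.card F) y (s l0) i) ^ Fintype.card F ≤
        V.valuation (cl (Fintype.card F) y (s l0) i) := by
      rw [← map_pow, ← cl_up, cl_eq (x := x) (s := s)]
      refine V.valuation.map_add_le (V.valuation.map_sum_le fun l _ => ?_) ?_
      · rw [map_mul]
        exact (mul_le_of_le_one_left' ((V.valuation_le_one_iff _).2 (h _ l))).trans (hl0 l)
      · exact ((V.valuation_le_one_iff _).2 (hR _)).trans h1.le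
    have h3 : V.valuation (cl (Fintype.card F) y (s l0) i) <
        V.valuation (cl (Fintype.card F) y (s l0) i) ^ Fintype.card F := lt_self_pow₀ h1 hq
    exact absurd h2 (not_le.2 h3)
  have h1 : cl (Fintype.card F) y (j, 0) i = y i j := by
    unfold cl
    rw [pow_zero, pow_one]
  rw [← h1, cl_eq (x := x) (s := s)]
  exact V.toSubring.add_mem
    (V.toSubring.sum_mem fun l _ => V.toSubring.mul_mem (h _ l) (hz l)) (hR _)

lemma yw_mem {V : Subring K} (h : ∀ n, Ib (Fintype.card F) x V s (v (Fintype.card F) x n))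
    (hy : ∀ i j, y i j ∈ V) (i : ι) (j : Fin m) : yw (Fintype.card F) x s y i j ∈ V := by
  unfold yw rm cl
  exact V.sub_mem (V.pow_mem (hy _ _) _)
    (V.sum_mem fun l _ => V.mul_mem (h _ l) (V.pow_mem (hy _ _) _))

/-- The lattice of pairs of columns. -/
def Lp (q : ℕ) (C : Subring K) (x : Fin r → Fin m → K) (y : ι → Fin m → K) :
    Submodule C ((Fin r → K) × (ι → K)) :=
  Submodule.span C (Set.range fun n => (v q x n, cl q y n))

lemma Lp_mem (n : Fin m × ℕ) : (v (Fintype.card F) x n, cl (Fintype.card F) y n) ∈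
    Lp (Fintype.card F) C x y := Submodule.subset_span ⟨n, rfl⟩

/-- Decomposition of the elements of the lattice. -/
lemma Lp_dec (hs : dt (Fintype.card F) x s ≠ 0) (hd : Dc s)
    (h : ∀ n, Ib (Fintype.card F) x C s (v (Fintype.card F) x n))
    {u : (Fin r → K) × (ι → K)} (hu : u ∈ Lp (Fintype.card F) C x y) :
    ∃ b : Fin r → K, (∀ l, b l ∈ C) ∧ u.1 = mat (Fintype.card F) x s *ᵥ b ∧
      ∃ t ∈ Lt (Fintype.card F) C (yw (Fintype.card F) x s y),
        ∀ i, u.2 i = ∑ l, b l * cl (Fintype.card F) y (s l) i + t i := by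
  induction hu using Submodule.span_induction with
  | mem u hu =>
    obtain ⟨n, rfl⟩ := hu
    exact ⟨co (Fintype.card F) x s (v (Fintype.card F) x n), h n, (mulVec_co hs _).symm,
      rm (Fintype.card F) x s y n, rm_mem hs hd h n, fun i => cl_eq n i⟩
  | zero =>
    refine ⟨0, fun _ => C.zero_mem, (mulVec_zero _).symm, 0, Submodule.zero_mem _, fun i => ?_⟩
    simp
  | add u w _ _ hu hw =>
    obtain ⟨b, hb, hb1, t, ht, ht1⟩ := hu
    obtain ⟨b', hb', hb1', t', ht', ht1'⟩ := hw
    refine ⟨b + b', fun l => C.add_mem (hb l) (hb' l), ?_, t + t', Submodule.add_mem _ ht ht',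
      fun i => ?_⟩
    · rw [Prod.fst_add, hb1, hb1', mulVec_add]
    · rw [Prod.snd_add, Pi.add_apply, ht1, ht1', Pi.add_apply]
      have h1 : ∑ l, (b + b') l * cl (Fintype.card F) y (s l) i =
          ∑ l, b l * cl (Fintype.card F) y (s l) i +
            ∑ l, b' l * cl (Fintype.card F) y (s l) i := by
        rw [← Finset.sum_add_distrib]
        exact Finset.sum_congr rfl fun l _ => add_mul _ _ _
      rw [h1]
      ring
  | smul c u _ hu =>
    obtain ⟨b, hb, hb1, t, ht, ht1⟩ := hu
    refine ⟨fun l => c * b l, fun l => C.mul_mem c.2 (hb l), ?_, c • t,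
      Submodule.smul_mem _ _ ht, fun i => ?_⟩
    · have h1 : (fun l => (c : K) * b l) = (c : K) • b := rfl
      rw [h1, mulVec_smul, ← hb1]
      rfl
    · change (c : K) * u.2 i = _ + (c : K) * t i
      rw [ht1, mul_add, Finset.mul_sum]
      congr 1
      exact Finset.sum_congr rfl fun l _ => (mul_assoc _ _ _).symm

/-- Elements of the lattice which vanish on the first rows. -/
lemma Lp_zero (hs : dt (Fintype.card F) x s ≠ 0) (hd : Dc s)
    (h : ∀ n, Ib (Fintype.card F) x C s (v (Fintype.card F) x n))
    {u : (Fin r → K) × (ι → K)} (hu : u ∈ Lp (Fintype.card F) C x y) (h0 : u.1 = 0) :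
    u.2 ∈ Lt (Fintype.card F) C (yw (Fintype.card F) x s y) := by
  obtain ⟨b, -, hb1, t, ht, ht1⟩ := Lp_dec hs hd h hu
  have h1 : b = 0 := by
    have h2 := co_mulVec hs b
    rw [← hb1, h0] at h2
    rw [← h2]
    unfold co
    rw [map_zero, smul_zero]
  have h2 : u.2 = t := by
    funext i
    rw [ht1, h1]
    simp
  rw [h2]
  exact ht

/-- The lattice of the new rows depends only on the lattice. -/
lemma Lt_yw_le (hs : dt (Fintype.card F) x s ≠ 0) (hd : Dc s)
    (h : ∀ n, Ib (Fintype.card F) x C s (v (Fintype.card F) x n))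
    {x' : Fin r → Fin m → K} {s' : Fin r → Fin m × ℕ} {y' : ι → Fin m → K}
    (hs' : dt (Fintype.card F) x' s' ≠ 0)
    (h' : ∀ n, Ib (Fintype.card F) x' C s' (v (Fintype.card F) x' n))
    (hle : Lp (Fintype.card F) C x' y' ≤ Lp (Fintype.card F) C x y) :
    Lt (Fintype.card F) C (yw (Fintype.card F) x' s' y') ≤
      Lt (Fintype.card F) C (yw (Fintype.card F) x s y) := by
  have h1 : ∀ j, (fun i => yw (Fintype.card F) x' s' y' i j) ∈
      Lt (Fintype.card F) C (yw (Fintype.card F) x s y) := by
    intro j
    let n : Fin m × ℕ := (j, nx s' j)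
    have h2 : ((v (Fintype.card F) x' n, cl (Fintype.card F) y' n) -
        ∑ l, (⟨_, h' n l⟩ : C) • (v (Fintype.card F) x' (s' l), cl (Fintype.card F) y' (s' l))) ∈
        Lp (Fintype.card F) C x y := by
      refine hle (Submodule.sub_mem _ (Lp_mem n) (Submodule.sum_mem _ fun l _ => ?_))
      exact Submodule.smul_mem _ _ (Lp_mem _)
    have h3 := Lp_zero hs hd h h2 (by
      rw [Prod.fst_sub, Prod.fst_sum, sub_eq_zero]
      funext i
      rw [Finset.sum_apply]
      exact (sum_co hs' (v (Fintype.card F) x' n) i).symm)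
    convert h3 using 1
    funext i
    rw [Prod.snd_sub, Prod.snd_sum, Pi.sub_apply, Finset.sum_apply]
    rfl
  rw [Lt, Submodule.span_le]
  rintro _ ⟨⟨j, a⟩, rfl⟩
  induction a with
  | zero =>
    have h2 : cl (Fintype.card F) (yw (Fintype.card F) x' s' y') (j, 0) =
        fun i => yw (Fintype.card F) x' s' y' i j := by
      funext i
      unfold cl
      rw [pow_zero, pow_one]
    rw [h2]
    exact h1 j
  | succ a ih =>
    have h2 : cl (Fintype.card F) (yw (Fintype.card F) x' s' y') (j, a + 1) =
        fun i => cl (Fintype.card F) (yw (Fintype.card F) x' s' y') (j, a) i ^ Fintype.card F := by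
      funext i
      exact cl_up _ _ (j, a) i
    rw [h2]
    exact Lt_fr ih

end row

end Pool.Agent.Q2.VI
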