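import Pool.Agent.Q2.VI.Tval

/-!
Vector invariants of parabolic subgroups: existence of charts at valuation rings; the action of the
group.
-/

set_option autoImplicit false
set_option linter.unusedSectionVars false

open Matrix

universe u v

namespace Pool.Agent.Q2.VI

section ex

variable {F : Type v} {k K : Type u} [Field F] [Fintype F] [Field k] [Field K] [Algebra F k]
  [Algebra k K] [Algebra F K] [IsScalarTower F k K] {m : ℕ}

lemma jn_ind {t : ℕ} {a : Fin (t + 1) → ℕ} {x : Rw a → Fin m → K}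
    (hx : AlgebraicIndependent k fun w : Rw a × Fin m => x w.1 w.2) :
    AlgebraicIndependent k (jn (hd x) (tl x)) := by
  let f : (Fin (a 0) × Fin m) ⊕ (Rw (fun i : Fin t => a i.succ) × Fin m) → Rw a × Fin m :=
    Sum.elim (fun w => (⟨0, w.1⟩, w.2)) fun w => (⟨w.1.1.succ, w.1.2⟩, w.2)
  have hf : Function.Injective f := by
    rintro (⟨l, j⟩ | ⟨⟨i, l⟩, j⟩) (⟨l', j'⟩ | ⟨⟨i', l'⟩, j'⟩) h
    · have h1 := congrArg Prod.fst h
      have h2 : j = j' := congrArg Prod.snd h
      simp only [f, Sum.elim_inl, Sigma.mk.injEq, heq_eq_eq, true_and] at h1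
      rw [h1, h2]
    · have h1 := congrArg (fun w : Rw a × Fin m => w.1.1) h
      exact absurd h1.symm (Fin.succ_ne_zero i')
    · have h1 := congrArg (fun w : Rw a × Fin m => w.1.1) h
      exact absurd h1 (Fin.succ_ne_zero i)
    · have h1 := congrArg (fun w : Rw a × Fin m => w.1.1) h
      have h2 : j = j' := congrArg Prod.snd h
      have h3 : i = i' := Fin.succ_injective _ h1
      subst h3
      have h4 := congrArg Prod.fst h
      simp only [f, Sum.elim_inr, Sigma.mk.injEq, heq_eq_eq, true_and] at h4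
      rw [h4, h2]
  have h1 := hx.comp f hf
  have h2 : (fun w : Rw a × Fin m => x w.1 w.2) ∘ f = jn (hd x) (tl x) := by
    funext w
    rcases w with w | w <;> rfl
  rwa [h2] at h1

lemma nxt_ind {t : ℕ} {a : Fin (t + 1) → ℕ} {x : Rw a → Fin m → K}
    (hx : AlgebraicIndependent k fun w : Rw a × Fin m => x w.1 w.2)
    {s : Fin (a 0) → Fin m × ℕ} (hs : dt (Fintype.card F) (hd x) s ≠ 0) (hd' : Dc s) :
    AlgebraicIndependent k fun w : Rw (fun i : Fin t => a i.succ) × Fin m =>
      nxt (Fintype.card F) x s w.1 w.2 :=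
  ind_yw (jn_ind hx) hs hd'

lemma hd_lin {t : ℕ} {a : Fin (t + 1) → ℕ} {x : Rw a → Fin m → K}
    (hx : AlgebraicIndependent k fun w : Rw a × Fin m => x w.1 w.2) (j : Fin m) :
    LinearIndependent F fun i => hd x i j := by
  have h1 := (ind_fst (jn_ind hx)).comp (fun i : Fin (a 0) => (i, j))
    fun i i' h => (Prod.mk.inj h).1
  exact lin_of_ind h1

/-- Every valuation ring which contains the variables has a centre on a chart. -/
theorem exists_cS [NeZero m] (V : ValuationSubring K) (hF : ∀ u : F, algebraMap F K u ∈ V) :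
    ∀ {t : ℕ} (a : Fin t → ℕ) (d : Fin t → ℕ) (x : Rw a → Fin m → K)
    (_ : AlgebraicIndependent k fun w : Rw a × Fin m => x w.1 w.2) (_ : ∀ w j, x w j ∈ V),
    ∃ S : ∀ i, Fin (a i) → Fin m × ℕ, (∀ i l, (S i l).2 < a i) ∧ Vd (Fintype.card F) a x S ∧
      ∀ j i l, cS (Fintype.card F) a d x S j i l ∈ V
  | 0, _, _, _, _, _ => ⟨fun i => i.elim0, fun i => i.elim0, trivial, fun _ i => i.elim0⟩
  | t + 1, a, d, x, hx, hxV => by
    obtain ⟨s, hs1, hs, hd', hall⟩ := exists_chart (F := F) (x := hd x) V (hd_lin hx)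
      (fun i j => hxV _ _) hF
    obtain ⟨S, hS1, hS2, hS3⟩ := exists_cS V hF (fun i : Fin t => a i.succ)
      (fun i => d i.succ) (nxt (Fintype.card F) x s) (nxt_ind hx hs hd')
      (yw_mem (V := V.toSubring) hall fun w j => hxV _ _)
    let S' : ∀ i, Fin (a i) → Fin m × ℕ := Fin.cons s S
    refine ⟨S', ?_, ?_, ?_⟩
    · intro i
      induction i using Fin.cases with
      | zero => exact hs1
      | succ i => exact hS1 i
    · exact ⟨hs, hd', hS2⟩
    · intro j i
      induction i using Fin.cases with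
      | zero =>
        intro l
        exact c1_of_cc (C := V.toSubring) (fun w => hall _ w.2) (fun i j => hxV _ _) (j, l)
      | succ i => exact hS3 j i

end ex

section mp

variable {K L : Type u} [Field K] [Field L] {m : ℕ} (φ : K →+* L) (q : ℕ)

lemma map_c1 (d : ℕ) {a : ℕ} (x : Fin a → Fin m → K) (s : Fin a → Fin m × ℕ)
    (w : Fin m × Fin a) : φ (c1 q d x s w) = c1 q d (fun i j => φ (x i j)) s w := by
  unfold c1
  split_ifs
  · rw [map_pow]
  · exact map_co φ q x s _ _

lemma map_nxt {t : ℕ} {a : Fin (t + 1) → ℕ} (x : Rw a → Fin m → K)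
    (s : Fin (a 0) → Fin m × ℕ) : (fun w j => φ (nxt q x s w j)) =
      nxt q (fun w j => φ (x w j)) s := by
  funext w j
  exact map_yw φ q (hd x) s (tl x) w j

theorem map_cS : ∀ {t : ℕ} (a : Fin t → ℕ) (d : Fin t → ℕ) (x : Rw a → Fin m → K)
    (S : ∀ i, Fin (a i) → Fin m × ℕ) (j : Fin m) (i : Fin t) (l : Fin (a i)),
    φ (cS q a d x S j i l) = cS q a d (fun w j => φ (x w j)) S j i l
  | 0, _, _, _, _, _, i, _ => i.elim0
  | t + 1, a, d, x, S, j, i, l => by
    induction i using Fin.cases with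
    | zero => exact map_c1 φ q (d 0) (hd x) (S 0) (j, l)
    | succ i =>
      rw [cS_succ, cS_succ, ← map_nxt]
      exact map_cS (fun i : Fin t => a i.succ) (fun i => d i.succ) _ _ j i l

theorem map_dS : ∀ {t : ℕ} (a : Fin t → ℕ) (x : Rw a → Fin m → K)
    (S : ∀ i, Fin (a i) → Fin m × ℕ) (i : Fin t),
    φ (dS q a x S i) = dS q a (fun w j => φ (x w j)) S i
  | 0, _, _, _, i => i.elim0
  | t + 1, a, x, S, i => by
    induction i using Fin.cases with
    | zero => exact map_dt φ q (hd x) (S 0)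
    | succ i =>
      rw [dS_succ, dS_succ, ← map_nxt]
      exact map_dS (fun i : Fin t => a i.succ) _ _ i

end mp

end Pool.Agent.Q2.VI
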