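import Pool.Agent.H920R2.Crit
import Pool.Agent.H920R2.Gen

/-!
Localization of integrally closed subalgebras in terms of valuation rings; resolution of
singularities by an atlas of polynomial charts.
-/

set_option autoImplicit false
set_option linter.unusedSectionVars false

open AlgebraicGeometry CategoryTheory

universe u

namespace Pool.Agent.Q2.VI

section loc

variable {k K : Type u} [Field k] [Field K] [Algebra k K]

lemma exists_pow_mem {C : Subalgebra k K} {h : K} (hC : h ∈ C) (h0 : h ≠ 0) {z : K}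
    (hz : z ∈ Algebra.adjoin k ((C : Set K) ∪ {h⁻¹})) : ∃ n : ℕ, h ^ n * z ∈ C := by
  induction hz using Algebra.adjoin_induction with
  | mem z hz =>
    rcases hz with hz | hz
    · exact ⟨0, by rwa [pow_zero, one_mul]⟩
    · refine ⟨1, ?_⟩
      rw [Set.mem_singleton_iff.1 hz, pow_one, mul_inv_cancel₀ h0]
      exact C.one_mem
  | algebraMap c => exact ⟨0, by rw [pow_zero, one_mul]; exact C.algebraMap_mem c⟩
  | add z w _ _ hz hw =>
    obtain ⟨n, hn⟩ := hz
    obtain ⟨n', hn'⟩ := hw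
    refine ⟨n + n', ?_⟩
    have h1 : h ^ (n + n') * (z + w) = h ^ n' * (h ^ n * z) + h ^ n * (h ^ n' * w) := by ring
    rw [h1]
    exact C.add_mem (C.mul_mem (C.pow_mem hC _) hn) (C.mul_mem (C.pow_mem hC _) hn')
  | mul z w _ _ hz hw =>
    obtain ⟨n, hn⟩ := hz
    obtain ⟨n', hn'⟩ := hw
    refine ⟨n + n', ?_⟩
    have h1 : h ^ (n + n') * (z * w) = h ^ n * z * (h ^ n' * w) := by ring
    rw [h1]
    exact C.mul_mem hn hn'

/-- Elements which belong to all valuation rings where `h` is invertible. -/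
theorem loc_int (C : Subalgebra k K) {h : K} (hC : h ∈ C) {y : K}
    (hV : ∀ V : ValuationSubring K, (∀ c ∈ C, c ∈ V) → h⁻¹ ∈ V → y ∈ V) :
    ∃ n : ℕ, IsIntegral C (h ^ n * y) := by
  by_cases h0 : h = 0
  · refine ⟨1, ?_⟩
    rw [h0, pow_one, zero_mul]
    exact isIntegral_zero
  let C' : Subalgebra k K := Algebra.adjoin k ((C : Set K) ∪ {h⁻¹})
  have hle : C ≤ C' := fun c hc => Algebra.subset_adjoin (Or.inl hc)
  have hint : IsIntegral C' y := by
    refine H920R2.isIntegral_of_valuation _ _ fun V hV' => ?_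
    exact hV V (fun c hc => hV' c (hle hc)) (hV' _ (Algebra.subset_adjoin (Or.inr rfl)))
  obtain ⟨P, hP, hP0⟩ := hint
  choose n hn using fun i : ℕ => exists_pow_mem hC h0 (P.coeff i).2
  let N := (Finset.range (P.natDegree + 1)).sup n
  have hN : ∀ i ≤ P.natDegree, h ^ N * (P.coeff i : K) ∈ C := by
    intro i hi
    have h1 : n i ≤ N := Finset.le_sup (Finset.mem_range.2 (by omega))
    obtain ⟨e, he⟩ := Nat.exists_eq_add_of_le h1
    rw [he, pow_add, mul_assoc, mul_left_comm]
    exact C.mul_mem (C.pow_mem hC _) (hn i)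
  refine ⟨N, ?_⟩
  let s : C' := ⟨h ^ N, C'.pow_mem (hle hC) _⟩
  have hQ0 : Polynomial.eval₂ (algebraMap C' K) (algebraMap C' K s * y) (P.scaleRoots s) = 0 :=
    Polynomial.scaleRoots_eval₂_eq_zero (algebraMap C' K) hP0
  have hco : ∀ i, ((P.scaleRoots s).coeff i : K) ∈ C := by
    intro i
    rw [Polynomial.coeff_scaleRoots]
    rcases lt_trichotomy i P.natDegree with h1 | h1 | h1
    · obtain ⟨e, he⟩ := Nat.exists_eq_add_of_lt h1
      have h2 : P.natDegree - i = e + 1 := by omega
      rw [h2, pow_succ]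
      have h3 : ((P.coeff i * (s ^ e * s) : C') : K) =
          (h ^ N) ^ e * (h ^ N * (P.coeff i : K)) := by
        change (P.coeff i : K) * ((h ^ N) ^ e * h ^ N) = _
        ring
      rw [h3]
      exact C.mul_mem (C.pow_mem (C.pow_mem hC _) _) (hN i h1.le)
    · have h2 : P.coeff i = 1 := by
        rw [h1]
        exact hP.coeff_natDegree
      rw [h2, h1, Nat.sub_self, pow_zero, mul_one]
      exact C.one_mem
    · rw [Polynomial.coeff_eq_zero_of_natDegree_lt h1, zero_mul]
      exact C.zero_mem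
  have hm : (P.scaleRoots s).Monic := (Polynomial.monic_scaleRoots_iff s).2 hP
  have hl : (P.scaleRoots s).map (algebraMap C' K) ∈ Polynomial.lifts (algebraMap C K) := by
    rw [Polynomial.lifts_iff_coeff_lifts]
    intro i
    rw [Polynomial.coeff_map]
    exact ⟨⟨_, hco i⟩, rfl⟩
  obtain ⟨Q, hQ, _, hQ1⟩ := Polynomial.lifts_and_degree_eq_and_monic hl
    (hm.map (algebraMap C' K))
  refine ⟨Q, hQ1, ?_⟩
  rw [← Polynomial.eval_map, hQ, Polynomial.eval_map]
  exact hQ0

end loc

section expo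

variable {k K : Type u} [Field k] [Field K] [Algebra k K]

/-- The products with rapidly decreasing exponents. -/
def hh (n : ℕ → ℕ) (f : ℕ → K) : ℕ → K
  | 0 => 1
  | i + 1 => hh n f i ^ (n i + 1) * f i

lemma hh_div (n : ℕ → ℕ) (f g : ℕ → K) (i : ℕ) :
    hh n (fun i => f i / g i) i = hh n f i / hh n g i := by
  induction i with
  | zero => simp [hh]
  | succ i ih =>
    simp only [hh]
    rw [ih, div_pow]
    ring

lemma hh_congr {n n' : ℕ → ℕ} {f : ℕ → K} {i : ℕ} (h : ∀ j < i, n j = n' j) :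
    hh n f i = hh n' f i := by
  induction i with
  | zero => rfl
  | succ i ih =>
    simp only [hh]
    rw [ih fun j hj => h j (by omega), h i (by omega)]

lemma hh_ne {n : ℕ → ℕ} {f : ℕ → K} (hf : ∀ i, f i ≠ 0) (i : ℕ) : hh n f i ≠ 0 := by
  induction i with
  | zero => exact one_ne_zero
  | succ i ih => exact mul_ne_zero (pow_ne_zero _ ih) (hf i)

lemma map_hh (φ : K →+* K) (n : ℕ → ℕ) (f : ℕ → K) (i : ℕ) :
    φ (hh n f i) = hh n (fun i => φ (f i)) i := by
  induction i with
  | zero => exact map_one φ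
  | succ i ih =>
    simp only [hh]
    rw [map_mul, map_pow, ih]

/-- Existence of the exponents. -/
theorem exists_expo {T : Type} [Finite T] (C : T → Subalgebra k K) (f : T → ℕ → K)
    (hf : ∀ s i, f s i ≠ 0) (t : ℕ)
    (hC : ∀ s i n h, h ∈ C s → IsIntegral (C s) (h ^ n * f s i) → h ^ n * f s i ∈ C s)
    (hV : ∀ s (V : ValuationSubring K), (∀ c ∈ C s, c ∈ V) → ∀ i < t,
      (∀ j < i, (f s j)⁻¹ ∈ V) → f s i ∈ V) (i : ℕ) (hi : i ≤ t) :
    ∃ n : ℕ → ℕ, ∀ s, ∀ i' ≤ i, hh n (f s) i' ∈ C s ∧ ∀ V : ValuationSubring K,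
      (∀ c ∈ C s, c ∈ V) → (hh n (f s) i')⁻¹ ∈ V → ∀ j < i', (f s j)⁻¹ ∈ V := by
  classical
  have : Fintype T := Fintype.ofFinite T
  induction i with
  | zero =>
    refine ⟨fun _ => 0, fun s i' hi' => ?_⟩
    have h1 : i' = 0 := by omega
    subst h1
    exact ⟨(C s).one_mem, fun V _ _ j hj => absurd hj (Nat.not_lt_zero j)⟩
  | succ i ih =>
    obtain ⟨n, hn⟩ := ih (by omega)
    have h1 : ∀ s, ∃ N, hh n (f s) i ^ N * f s i ∈ C s := by
      intro s
      obtain ⟨N, hN⟩ := loc_int (C s) (hn s i le_rfl).1 (y := f s i) fun V hV1 hV2 =>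
        hV s V hV1 i (by omega) ((hn s i le_rfl).2 V hV1 hV2)
      exact ⟨N, hC s i N _ (hn s i le_rfl).1 hN⟩
    choose N hN using h1
    let M := Finset.univ.sup N
    have hM : ∀ s, hh n (f s) i ^ M * f s i ∈ C s := by
      intro s
      have h2 : N s ≤ M := Finset.le_sup (Finset.mem_univ s)
      obtain ⟨e, he⟩ := Nat.exists_eq_add_of_le h2
      rw [he, pow_add, mul_assoc, mul_left_comm]
      exact (C s).mul_mem ((C s).pow_mem (hn s i le_rfl).1 _) (hN s)
    let n' : ℕ → ℕ := Function.update n i M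
    have hn' : ∀ s, ∀ i' ≤ i, hh n' (f s) i' = hh n (f s) i' := by
      intro s i' hi'
      refine hh_congr fun j hj => ?_
      exact Function.update_of_ne (by omega) _ _
    refine ⟨n', fun s i' hi' => ?_⟩
    rcases Nat.lt_or_ge i' (i + 1) with h2 | h2
    · rw [hn' s i' (by omega)]
      exact hn s i' (by omega)
    · have h3 : i' = i + 1 := by omega
      subst h3
      have h4 : hh n' (f s) (i + 1) = hh n (f s) i * (hh n (f s) i ^ M * f s i) := by
        change hh n' (f s) i ^ (n' i + 1) * f s i = _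
        have h5 : n' i = M := Function.update_self _ _ _
        rw [hn' s i le_rfl, h5]
        ring
      rw [h4]
      refine ⟨(C s).mul_mem (hn s i le_rfl).1 (hM s), fun V hV1 hV2 j hj => ?_⟩
      have hne := hh_ne (n := n) (hf s) i
      have h5 : (hh n (f s) i)⁻¹ ∈ V := by
        have h6 := V.mul_mem _ _ (hV1 _ (hM s)) hV2
        have h7 : hh n (f s) i ^ M * f s i *
            (hh n (f s) i * (hh n (f s) i ^ M * f s i))⁻¹ = (hh n (f s) i)⁻¹ := by
          have := hf s i
          field_simp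
        rwa [h7] at h6
      rcases Nat.lt_or_ge j i with h6 | h6
      · exact (hn s i le_rfl).2 V hV1 h5 j h6
      · have h7 : j = i := by omega
        subst h7
        have h8 := V.mul_mem _ _ (V.toSubring.pow_mem (hV1 _ (hn s j le_rfl).1) (M + 1)) hV2
        have h9 : hh n (f s) j ^ (M + 1) *
            (hh n (f s) j * (hh n (f s) j ^ M * f s j))⁻¹ = (f s j)⁻¹ := by
          have := hf s j
          field_simp
          ring
        rwa [h9] at h8

end expo

section atlas

variable {k A : Type u} [Field k] [CommRing A] [IsDomain A] [Algebra k A] {K : Type u} [Field K]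
  [Algebra k K] (g : A →ₐ[k] K) (hg : Function.Injective g)

include hg in
/-- An atlas of polynomial charts gives a resolution. -/
theorem hasResolution_atlas {T σ : Type} [Finite T] [Finite σ] (c : T → σ → K) (H : T → K)
    (H0 : ∀ t, H t ≠ 0) (hA : ∀ t, ∃ a, g a = H t)
    (hc : ∀ t, AlgebraicIndependent k (c t))
    (aa : ∀ t a, g a ∈ Algebra.adjoin k (Set.range (c t)))
    (rt : ∀ t t', H t' / H t ∈ Algebra.adjoin k (Set.range (c t)))
    (gl : ∀ t t' w, ∃ n : ℕ, (H t' / H t) ^ n * c t' w ∈ Algebra.adjoin k (Set.range (c t)))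
    (dn : ∀ t w, ∃ n : ℕ, ∃ a, g a = H t ^ n * c t w)
    (cv : ∀ V : ValuationSubring K, (∀ a, g a ∈ V) →
      ∃ t, ∀ y ∈ Algebra.adjoin k (Set.range (c t)), y ∈ V) :
    H920R2.HasResolution (X := Spec (CommRingCat.of A))
      (Spec.map (CommRingCat.ofHom (algebraMap k A))) := by
  classical
  have : Fintype T := Fintype.ofFinite T
  have : Fintype σ := Fintype.ofFinite σ
  have h1 : ∀ p : T × σ, ∃ n : ℕ, (∃ a, g a = H p.1 ^ n * c p.1 p.2) ∧
      ∀ t, (H p.1 / H t) ^ n * c p.1 p.2 ∈ Algebra.adjoin k (Set.range (c t)) := by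
    rintro ⟨t, w⟩
    obtain ⟨n, a, ha⟩ := dn t w
    choose m hm using fun t' => gl t' t w
    obtain ⟨b, hb⟩ := hA t
    refine ⟨n + Finset.univ.sup m, ⟨b ^ Finset.univ.sup m * a, ?_⟩, ?_⟩
    · rw [map_mul, map_pow, ha, hb]
      ring
    · intro t'
      have h2 : m t' ≤ Finset.univ.sup m := Finset.le_sup (Finset.mem_univ t')
      obtain ⟨e, he⟩ := Nat.exists_eq_add_of_le h2
      have h3 : (H t / H t') ^ (n + Finset.univ.sup m) * c t w =
          (H t / H t') ^ (n + e) * ((H t / H t') ^ m t' * c t w) := by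
        rw [he]
        ring
      change (H t / H t') ^ (n + Finset.univ.sup m) * c t w ∈ _
      rw [h3]
      exact Subalgebra.mul_mem _ (Subalgebra.pow_mem _ (rt t' t) _) (hm t')
  choose N hN1 hN2 using h1
  let M : ℕ := Finset.univ.sup N
  have hNM : ∀ p, N p ≤ M := fun p => Finset.le_sup (Finset.mem_univ p)
  choose b hb using hA
  have h2 : ∀ p : T × σ, ∃ a, g a = H p.1 ^ M * c p.1 p.2 := by
    intro p
    obtain ⟨a, ha⟩ := hN1 p
    obtain ⟨e, he⟩ := Nat.exists_eq_add_of_le (hNM p)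
    refine ⟨b p.1 ^ e * a, ?_⟩
    rw [map_mul, map_pow, ha, hb, he]
    ring
  choose a ha using h2
  let z : T ⊕ (T × σ) → A := Sum.elim (fun t => b t ^ M) a
  have e0 : ∀ t, g (z (Sum.inl t)) = H t ^ M := by
    intro t
    change g (b t ^ M) = _
    rw [map_pow, hb]
  have hz : ∀ t i, g (z i) / g (z (Sum.inl t)) ∈ Algebra.adjoin k (Set.range (c t)) := by
    intro t i
    rw [e0]
    rcases i with t' | p
    · rw [e0, ← div_pow]
      exact Subalgebra.pow_mem _ (rt t t') M
    · have e1 : g (z (Sum.inr p)) = H p.1 ^ M * c p.1 p.2 := ha p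
      obtain ⟨e, he⟩ := Nat.exists_eq_add_of_le (hNM p)
      have e2 : H p.1 ^ M * c p.1 p.2 / H t ^ M =
          (H p.1 / H t) ^ e * ((H p.1 / H t) ^ N p * c p.1 p.2) := by
        rw [he, ← mul_assoc, ← pow_add, div_pow, add_comm]
        ring
      rw [e1, e2]
      exact Subalgebra.mul_mem _ (Subalgebra.pow_mem _ (rt t p.1) _) (hN2 p t)
  have hz0 : ∀ t, z (Sum.inl t) ≠ 0 := by
    intro t h0
    have h3 := e0 t
    rw [h0, map_zero] at h3
    exact pow_ne_zero M (H0 t) h3.symm
  refine H920R2.hasResolution_of_charts g hg z (Set.range Sum.inl) ?_ ?_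
  · intro V hV
    obtain ⟨t, ht⟩ := cv V hV
    exact ⟨Sum.inl t, ⟨t, rfl⟩, hz0 t, fun i => ht _ (hz t i)⟩
  · rintro _ ⟨t, rfl⟩ -
    refine ⟨σ, inferInstance, c t, hc t, aa t, fun i => hz t i, fun w => ?_⟩
    apply Algebra.subset_adjoin
    right
    refine ⟨Sum.inr (t, w), ?_⟩
    have e1 : g (z (Sum.inr (t, w))) = H t ^ M * c t w := ha (t, w)
    change g (z (Sum.inr (t, w))) / g (z (Sum.inl t)) = c t w
    rw [e0, e1]
    have := pow_ne_zero M (H0 t)
    field_simp

end atlas

end Pool.Agent.Q2.VI
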