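import Pool.Agent.Q2.VI.PolyG
import Pool.Agent.Q2.VI.Tloc

/-!
Vector invariants of block triangular groups: resolution of singularities.
-/

set_option autoImplicit false
set_option linter.unusedSectionVars false

open Matrix MvPolynomial AlgebraicGeometry CategoryTheory

universe u v

namespace Pool.Agent.Q2.VI

section det

variable {F : Type v} [Field F] [Fintype F]

lemma Gm.zero : ∀ {t : ℕ} (a : Fin t → ℕ) (d : Fin t → ℕ) (B : Matrix (Rw a) (Rw a) F)
    (_ : Gm a d B) (u : Rw a → F) (_ : B *ᵥ u = 0) (w : Rw a), u w = 0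
  | 0, _, _, _, _, _, _, w => w.1.elim0
  | t + 1, a, d, B, hB, u, hu, w => by
    have h1 : ∀ w, ∑ w', B w w' * u w' = 0 := fun w => congrFun hu w
    have h2 : (fun l => u ⟨0, l⟩) = 0 := by
      refine eq_zero_of_mulVec_eq_zero (hB.det 0) ?_
      funext l
      have h3 := h1 ⟨0, l⟩
      rw [sum_rw] at h3
      have h4 : ∀ w : Rw (fun i : Fin t => a i.succ), B ⟨0, l⟩ ⟨w.1.succ, w.2⟩ *
          u ⟨w.1.succ, w.2⟩ = 0 := fun w => by
        rw [hB.low ⟨0, l⟩ ⟨w.1.succ, w.2⟩ (Fin.succ_pos _), zero_mul]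
      rw [Finset.sum_eq_zero fun w _ => h4 w, add_zero] at h3
      exact h3
    have h3 := Gm.zero (fun i : Fin t => a i.succ) (fun i => d i.succ) (VI.lo B) hB.lo
      (fun w => u ⟨w.1.succ, w.2⟩) (by
        funext w
        have h4 := h1 ⟨w.1.succ, w.2⟩
        rw [sum_rw] at h4
        have h5 : ∀ l, B ⟨w.1.succ, w.2⟩ ⟨0, l⟩ * u ⟨0, l⟩ = 0 := fun l => by
          have h6 : u ⟨0, l⟩ = 0 := congrFun h2 l
          rw [h6, mul_zero]
        rw [Finset.sum_eq_zero fun l _ => h5 l, zero_add] at h4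
        exact h4)
    obtain ⟨i, l⟩ := w
    induction i using Fin.cases with
    | zero => exact congrFun h2 l
    | succ i => exact h3 ⟨i, l⟩

lemma Gm.det_ne {t : ℕ} {a : Fin t → ℕ} {d : Fin t → ℕ} {B : Matrix (Rw a) (Rw a) F}
    (h : Gm a d B) : B.det ≠ 0 := by
  intro h0
  obtain ⟨u, hu0, hu⟩ := exists_mulVec_eq_zero_iff.2 h0
  exact hu0 (funext fun w => Gm.zero a d B h u hu w)

end det

lemma dS_ne {K : Type u} [Field K] {m : ℕ} (q : ℕ) : ∀ {t : ℕ} (a : Fin t → ℕ)
    (x : Rw a → Fin m → K) (S : ∀ i, Fin (a i) → Fin m × ℕ) (_ : Vd q a x S) (i : Fin t),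
    dS q a x S i ≠ 0
  | 0, _, _, _, _, i => i.elim0
  | t + 1, a, x, S, hS, i => by
    obtain ⟨h1, h2, h3⟩ := Vd_succ.1 hS
    induction i using Fin.cases with
    | zero => exact h1
    | succ i => exact dS_ne q (fun i : Fin t => a i.succ) _ _ h3 i

lemma mem_of_pow {K : Type u} [Field K] (V : ValuationSubring K) {n : ℕ} (hn : n ≠ 0) {y : K}
    (h : y ^ n ∈ V) : y ∈ V := by
  rw [← V.valuation_le_one_iff] at h ⊢
  rw [map_pow] at h
  exact (pow_le_one_iff_of_nonneg zero_le hn).1 h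

section fin

variable {F : Type} {k : Type u} [Field F] [Fintype F] [Field k] [Algebra F k] {m t : ℕ}

/-- Resolution of the quotient by a block triangular group. -/
theorem hasResolution_tri [NeZero m] (a d : Fin t → ℕ) (hdq : ∀ i, d i ∣ Fintype.card F - 1)
    (A : Subalgebra k (MvPolynomial (Rw a × Fin m) k))
    (hA : ∀ f, f ∈ A ↔ ∀ g : Matrix (Rw a) (Rw a) F, Gm a d g → sg k m g f = f) :
    H920R2.HasResolution (X := Spec (CommRingCat.of A))
      (Spec.map (CommRingCat.ofHom (algebraMap k A))) := by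
  classical
  let R := MvPolynomial (Rw a × Fin m) k
  let K := FractionRing R
  obtain ⟨q, hq⟩ : ∃ q, q = Fintype.card F := ⟨_, rfl⟩
  have hq1 : 1 < q := hq ▸ Fintype.one_lt_card
  have hq0 : q - 1 ≠ 0 := by omega
  let x : Rw a → Fin m → K := xg k K (Rw a) m
  have hx : AlgebraicIndependent k fun w : Rw a × Fin m => x w.1 w.2 := xg_ind
  have hK : IntermediateField.adjoin k (Set.range fun w : Rw a × Fin m => x w.1 w.2) = ⊤ := xg_top
  let gR : R →ₐ[k] K := IsScalarTower.toAlgHom k R K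
  have hgR : Function.Injective gR := IsFractionRing.injective R K
  let g : A →ₐ[k] K := gR.comp A.val
  have hg : Function.Injective g := hgR.comp Subtype.val_injective
  -- the invariants
  let Inv : K → Prop := fun y => ∀ σ : K →ₐ[k] K, (∃ B : Matrix (Rw a) (Rw a) F, Gm a d B ∧
    ∀ w j, σ (x w j) = bx B x w j) → σ y = y
  have hInvA : ∀ b : A, Inv (g b) := by
    rintro b σ ⟨B, hB, hσ⟩
    have h1 := sigma_eqg σ hσ (b : R)
    rw [(hA _).1 b.2 B hB] at h1
    exact h1
  have hInvmul : ∀ y z, Inv y → Inv z → Inv (y * z) := fun y z hy hz σ h => by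
    rw [map_mul, hy σ h, hz σ h]
  have hInvdiv : ∀ y z, Inv y → Inv z → Inv (y / z) := fun y z hy hz σ h => by
    rw [map_div₀, hy σ h, hz σ h]
  have hInvpow : ∀ y (n : ℕ), Inv y → Inv (y ^ n) := fun y n hy σ h => by
    rw [map_pow, hy σ h]
  have hmemA : ∀ f : R, Inv (gR f) → ∃ b : A, g b = gR f := by
    intro f hf
    refine ⟨⟨f, (hA f).2 fun B hB => ?_⟩, rfl⟩
    obtain ⟨σ, hσ⟩ := exists_sigma (k := k) (K := K) (m := m) (isUnit_iff_ne_zero.2 hB.det_ne)
    have h1 := sigma_eqg σ hσ f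
    have h2 : σ (algebraMap R K f) = algebraMap R K f := hf σ ⟨B, hB, hσ⟩
    exact hgR (h1.symm.trans h2)
  have hInvCT : ∀ S, Vd (Fintype.card F) a x S → ∀ y ∈ CT F k a d x S, Inv y := by
    rintro S hS y hy σ ⟨B, hB, hσ⟩
    have h1 : CT F k a d x S ≤ AlgHom.equalizer σ (AlgHom.id k K) := by
      refine Algebra.adjoin_le ?_
      rintro _ ⟨w, rfl⟩
      exact inv_cS (σ : K →+* K) a d x S hS B hB hσ w.1 w.2.1 w.2.2
    exact h1 hy
  have hET : ∀ S, Vd (Fintype.card F) a x S → ∀ y, Inv y → y ∈ ET F k a d x S := by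
    intro S hS y hy
    refine mem_ET hx hK hdq hS y ?_
    rintro σ ⟨B, hB, hσ⟩
    exact hy (σ : K →ₐ[k] K) ⟨B, hB, hσ⟩
  have hInvdS : ∀ S, Vd (Fintype.card F) a x S → ∀ i,
      Inv (dS (Fintype.card F) a x S i ^ (q - 1)) := by
    rintro S hS i σ ⟨B, hB, hσ⟩
    have h1 := inv_dS (σ : K →+* K) a d x S hS B hB hσ i
    change σ (dS (Fintype.card F) a x S i) = _ at h1
    rw [map_pow, h1, mul_pow, ← map_pow, hq, FiniteField.pow_card_sub_one_eq_one _ (hB.det i),
      map_one, one_mul]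
  -- the charts
  let eJ : (∀ i, Fin (a i) → Fin m × Fin (a i + 1)) → ∀ i, Fin (a i) → Fin m × ℕ :=
    fun J i l => ((J i l).1, ((J i l).2 : ℕ))
  let T := {J : ∀ i, Fin (a i) → Fin m × Fin (a i + 1) // Vd (Fintype.card F) a x (eJ J)}
  let f : T → ℕ → K := fun S i => if h : i < t then
    dS (Fintype.card F) a x (eJ S.1) ⟨i, h⟩ ^ (q - 1) else 1
  have hf1 : ∀ (S : T) i (h : i < t), f S i =
      dS (Fintype.card F) a x (eJ S.1) ⟨i, h⟩ ^ (q - 1) := fun S i h => dif_pos h
  have hf0 : ∀ (S : T) i, f S i ≠ 0 := by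
    intro S i
    by_cases h : i < t
    · rw [hf1 S i h]
      exact pow_ne_zero _ (dS_ne _ _ _ _ S.2 _)
    · have h1 : f S i = 1 := dif_neg h
      rw [h1]
      exact one_ne_zero
  have hfInv : ∀ (S : T) i, Inv (f S i) := by
    intro S i
    by_cases h : i < t
    · rw [hf1 S i h]
      exact hInvdS _ S.2 _
    · have h1 : f S i = 1 := dif_neg h
      rw [h1]
      exact fun σ _ => map_one σ
  -- valuation rings
  have hxV : ∀ V : ValuationSubring K, (∀ c ∈ gR.range, c ∈ V) → ∀ w j, x w j ∈ V :=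
    fun V hV w j => hV _ ⟨X (w, j), rfl⟩
  have hcV : ∀ (V : ValuationSubring K) (S : T), (∀ c ∈ CT F k a d x (eJ S.1), c ∈ V) →
      ∀ j i l, cS (Fintype.card F) a d x (eJ S.1) j i l ∈ V :=
    fun V S hV j i l => hV _ (cS_mem_CT j i l)
  have hinvV : ∀ (V : ValuationSubring K) (y : K), (y ^ (q - 1))⁻¹ ∈ V → y⁻¹ ∈ V := by
    intro V y hy
    refine mem_of_pow V hq0 ?_
    rwa [inv_pow]
  have hratio : ∀ (S S' : T) i (h : i < t), f S' i / f S i =
      rh (Fintype.card F) a x x (eJ S.1) (eJ S'.1) ⟨i, h⟩ ^ (q - 1) := by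
    intro S S' i h
    rw [hf1 S i h, hf1 S' i h, ← div_pow]
    rfl
  -- the exponents
  let C : T ⊕ (T × T) → Subalgebra k K := Sum.elim (fun _ => gR.range)
    fun p => CT F k a d x (eJ p.1.1)
  let ff : T ⊕ (T × T) → ℕ → K := Sum.elim f fun p i => f p.2 i / f p.1 i
  obtain ⟨n, hn⟩ := exists_expo C ff (by
    rintro (S | ⟨S, S'⟩) i
    · exact hf0 S i
    · exact div_ne_zero (hf0 S' i) (hf0 S i)) t (by
    rintro (S | ⟨S, S'⟩) i N h hh hint
    · obtain ⟨b, hb⟩ := int_range hint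
      exact ⟨b, hb⟩
    · refine mem_CT hx hK hdq S.2 _ hint (hET _ S.2 _ (hInvmul _ _ ?_ ?_))
      · exact hInvpow _ _ (hInvCT _ S.2 _ hh)
      · exact hInvdiv _ _ (hfInv S' i) (hfInv S i)) (by
    rintro (S | ⟨S, S'⟩) V hV i hi hj
    · change f S i ∈ V
      rw [hf1 S i hi]
      refine V.toSubring.pow_mem (dS_mem V a x (eJ S.1) S.2 (hxV V hV) ⟨i, hi⟩ ?_) _
      rintro ⟨j, hjt⟩ hji
      have h1 : (f S j)⁻¹ ∈ V := hj j hji
      rw [hf1 S j hjt] at h1
      exact hinvV V _ h1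
    · change f S' i / f S i ∈ V
      rw [hratio S S' i hi]
      refine V.toSubring.pow_mem (rh_mem V a d hdq x x _ _ S.2 S'.2 (hcV V S hV) le_rfl
        ⟨i, hi⟩ ?_) _
      rintro ⟨j, hjt⟩ hji
      have h1 : (f S' j / f S j)⁻¹ ∈ V := hj j hji
      rw [hratio S S' j hjt] at h1
      exact hinvV V _ h1) t le_rfl
  let H : T → K := fun S => hh n (f S) t
  have hHInv : ∀ S, Inv (H S) := by
    intro S σ hσ
    have h1 := map_hh (σ : K →+* K) n (f S) t
    refine h1.trans ?_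
    have h2 : (fun i => (σ : K →+* K) (f S i)) = f S := funext fun i => hfInv S i σ hσ
    rw [h2]
  have hHR : ∀ S, H S ∈ gR.range := fun S => (hn (Sum.inl S) t le_rfl).1
  have hHq : ∀ S S', H S' / H S ∈ CT F k a d x (eJ S.1) := by
    intro S S'
    have h1 := (hn (Sum.inr (S, S')) t le_rfl).1
    have h2 : hh n (ff (Sum.inr (S, S'))) t = H S' / H S := hh_div n (f S') (f S) t
    rwa [h2] at h1
  have hcInv : ∀ (S : T) w, Inv (cT F a d x (eJ S.1) w) := fun S w =>
    hInvCT _ S.2 _ (Algebra.subset_adjoin ⟨w, rfl⟩)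
  have hRV : ∀ V : ValuationSubring K, (∀ b, g b ∈ V) → ∀ c ∈ gR.range, c ∈ V := by
    have hint := isIntegral_invg A fun f hf => (hA f).2 fun B hB => hf B hB.det_ne
    rintro V hV _ ⟨f, rfl⟩
    obtain ⟨P, hP, hP0⟩ := hint.isIntegral f
    have h1 : IsIntegral V (gR f) := by
      let φ : A →+* V := (g : A →+* K).codRestrict V.toSubring hV
      refine ⟨P.map φ, hP.map φ, ?_⟩
      rw [Polynomial.eval₂_map]
      have h2 := congrArg gR hP0
      rw [map_zero] at h2
      rw [← h2]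
      change _ = (gR : R →+* K) _
      rw [Polynomial.hom_eval₂]
      rfl
    obtain ⟨y, hy⟩ := IsIntegrallyClosed.isIntegral_iff.1 h1
    change gR f ∈ V
    rw [← hy]
    exact y.2
  refine hasResolution_atlas g hg (fun S : T => cT F a d x (eJ S.1)) H
    (fun S => hh_ne (hf0 S) t) ?_ (fun S => cT_ind hx hK hdq S.2) ?_ hHq ?_ ?_ ?_
  · intro S
    obtain ⟨b, hb⟩ := hHR S
    obtain ⟨c, hc⟩ := hmemA b (by rw [show gR b = H S from hb]; exact hHInv S)
    exact ⟨c, hc.trans hb⟩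
  · intro S b
    refine mem_CT hx hK hdq S.2 _ ?_ (hET _ S.2 _ (hInvA b))
    have h1 : ∀ f : R, IsIntegral (CT F k a d x (eJ S.1)) (gR f) := by
      intro f
      induction f using MvPolynomial.induction_on with
      | C c =>
        have h2 : gR (MvPolynomial.C c) =
            algebraMap (CT F k a d x (eJ S.1)) K (algebraMap k _ c) := gR.commutes c
        rw [h2]
        exact isIntegral_algebraMap
      | add p q hp hq =>
        rw [map_add]
        exact hp.add hq
      | mul_X p w hp =>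
        rw [map_mul]
        exact hp.mul (CT_int hdq S.2 w.1 w.2)
    exact h1 b
  · intro S S' w
    obtain ⟨N, hN⟩ := loc_int (CT F k a d x (eJ S.1)) (hHq S S')
      (y := cT F a d x (eJ S'.1) w) (by
        intro V hV1 hV2
        have h1 := (hn (Sum.inr (S, S')) t le_rfl).2 V hV1
        have h2 : hh n (ff (Sum.inr (S, S'))) t = H S' / H S := hh_div n (f S') (f S) t
        rw [h2] at h1
        have h3 := h1 hV2
        refine cS_mem_of_rh V a d hdq x x _ _ S.2 S'.2 (hcV V S hV1) le_rfl ?_ w.1 w.2.1 w.2.2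
        rintro ⟨j, hjt⟩
        have h4 : (f S' j / f S j)⁻¹ ∈ V := h3 j hjt
        rw [hratio S S' j hjt] at h4
        exact hinvV V _ h4)
    refine ⟨N, mem_CT hx hK hdq S.2 _ hN (hET _ S.2 _ (hInvmul _ _ (hInvpow _ _ ?_)
      (hcInv S' w)))⟩
    exact hInvdiv _ _ (hHInv S') (hHInv S)
  · intro S w
    obtain ⟨N, hN⟩ := loc_int gR.range (hHR S) (y := cT F a d x (eJ S.1) w) (by
        intro V hV1 hV2
        have h3 := (hn (Sum.inl S) t le_rfl).2 V hV1 hV2
        refine cS_mem_of_dS V a d x _ S.2 (hxV V hV1) ?_ w.1 w.2.1 w.2.2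
        rintro ⟨j, hjt⟩
        have h4 : (f S j)⁻¹ ∈ V := h3 j hjt
        rw [hf1 S j hjt] at h4
        exact hinvV V _ h4)
    obtain ⟨b, hb⟩ := int_range hN
    have hb' : gR b = H S ^ N * cT F a d x (eJ S.1) w := hb
    obtain ⟨c, hc⟩ := hmemA b (by
      rw [hb']
      exact hInvmul _ _ (hInvpow _ _ (hHInv S)) (hcInv S w))
    exact ⟨N, c, hc.trans hb'⟩
  · intro V hV
    have hRV' := hRV V hV
    have hkV : ∀ c : k, algebraMap k K c ∈ V := by
      intro c
      have h1 := hV (algebraMap k A c)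
      rwa [AlgHom.commutes] at h1
    obtain ⟨S, hS1, hS2, hS3⟩ := exists_cS (F := F) (k := k) V (fun u => by
      rw [IsScalarTower.algebraMap_apply F k K]
      exact hkV _) a d x hx (hxV V hRV')
    let J : ∀ i, Fin (a i) → Fin m × Fin (a i + 1) := fun i l =>
      ((S i l).1, ⟨(S i l).2, by have := hS1 i l; omega⟩)
    have hJ : eJ J = S := rfl
    refine ⟨⟨J, by rw [hJ]; exact hS2⟩, fun y hy => ?_⟩
    induction hy using Algebra.adjoin_induction with
    | mem y hy =>
      obtain ⟨w, rfl⟩ := hy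
      exact hS3 w.1 w.2.1 w.2.2
    | algebraMap c => exact hkV c
    | add y z _ _ hy hz => exact V.add_mem _ _ hy hz
    | mul y z _ _ hy hz => exact V.mul_mem _ _ hy hz

end fin

end Pool.Agent.Q2.VI
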