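import Pool.Agent.Q2.VI.Tgrp

/-!
Vector invariants of parabolic subgroups: the function field of a chart.
-/

set_option autoImplicit false
set_option linter.unusedSectionVars false

open Matrix

universe u v

namespace Pool.Agent.Q2.VI

section span

variable {F : Type v} {K : Type u} [Field F] [Fintype F] [Field K] [Algebra F K] {m : ℕ}

/-- Extension by zero. -/
def ext0 (C : Subring K) {t : ℕ} (a : Fin (t + 1) → ℕ) :
    (Rw (fun i : Fin t => a i.succ) → K) →ₗ[C] (Rw a → K) where
  toFun f w := Fin.cases (motive := fun i => Fin (a i) → K) (fun _ => 0)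
    (fun i l => f ⟨i, l⟩) w.1 w.2
  map_add' f g := by
    funext w
    obtain ⟨i, l⟩ := w
    induction i using Fin.cases with
    | zero => exact (add_zero 0).symm
    | succ i => rfl
  map_smul' c f := by
    funext w
    obtain ⟨i, l⟩ := w
    induction i using Fin.cases with
    | zero => exact (smul_zero c).symm
    | succ i => rfl

/-- The columns are combinations of as many vectors as there are rows. -/
theorem exists_span (C : Subring K) : ∀ {t : ℕ} (a : Fin t → ℕ) (d : Fin t → ℕ)
    (_ : ∀ i, d i ∣ Fintype.card F - 1) (x : Rw a → Fin m → K)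
    (S : ∀ i, Fin (a i) → Fin m × ℕ) (_ : Vd (Fintype.card F) a x S)
    (_ : ∀ j i l, cS (Fintype.card F) a d x S j i l ∈ C),
    ∃ u : Rw a → Rw a → K, Lt (Fintype.card F) C x ≤ Submodule.span C (Set.range u)
  | 0, a, d, hdq, x, S, hS, hc => by
    refine ⟨fun w => w.1.elim0, fun f _ => ?_⟩
    have h1 : f = 0 := by
      funext w
      exact w.1.elim0
    rw [h1]
    exact Submodule.zero_mem _
  | t + 1, a, d, hdq, x, S, hS, hc => by
    obtain ⟨h1, h2, h3⟩ := Vd_succ.1 hS
    have h4 : ∀ w, cc F (hd x) (S 0) w ∈ C :=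
      cc_of_c1 (hdq 0) h1 h2 fun w => hc w.1 0 w.2
    have h5 := all_of_cc h1 h2 h4
    obtain ⟨u, hu⟩ := exists_span C (fun i : Fin t => a i.succ) (fun i => d i.succ)
      (fun i => hdq i.succ) (nxt (Fintype.card F) x (S 0)) (fun i => S i.succ) h3
      (fun j i l => hc j i.succ l)
    let u' : Rw a → Rw a → K := fun w => Fin.cases (motive := fun i => Fin (a i) → Rw a → K)
      (fun l => cl (Fintype.card F) x (S 0 l)) (fun i l => ext0 C a (u ⟨i, l⟩)) w.1 w.2
    refine ⟨u', ?_⟩
    rw [Lt, Submodule.span_le]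
    rintro _ ⟨n, rfl⟩
    have h6 : cl (Fintype.card F) x n = ∑ l, (⟨_, h5 n l⟩ : C) •
        cl (Fintype.card F) x (S 0 l) +
        ext0 C a (rm (Fintype.card F) (hd x) (S 0) (tl x) n) := by
      funext w
      rw [Pi.add_apply, Finset.sum_apply]
      obtain ⟨i, l⟩ := w
      induction i using Fin.cases with
      | zero =>
        have h7 := sum_co h1 (v (Fintype.card F) (hd x) n) l
        refine h7.symm.trans ((add_zero _).symm.trans ?_)
        rfl
      | succ i => exact cl_eq (x := hd x) (s := S 0) (y := tl x) n ⟨i, l⟩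
    rw [h6]
    refine Submodule.add_mem _ (Submodule.sum_mem _ fun l _ => Submodule.smul_mem _ _ ?_) ?_
    · exact Submodule.subset_span ⟨⟨0, l⟩, rfl⟩
    · have h7 := hu (rm_mem (y := tl x) h1 h2 h5 n)
      have h8 := Submodule.mem_map_of_mem (f := ext0 C a) h7
      rw [Submodule.map_span] at h8
      refine Submodule.span_mono ?_ h8
      rintro _ ⟨_, ⟨w, rfl⟩, rfl⟩
      exact ⟨⟨w.1.succ, w.2⟩, rfl⟩

/-- Quotients of determinants of columns of all the rows. -/
theorem ratio_all (E : Subfield K) {t : ℕ} (a : Fin t → ℕ) (d : Fin t → ℕ)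
    (hdq : ∀ i, d i ∣ Fintype.card F - 1) (x : Rw a → Fin m → K)
    (S : ∀ i, Fin (a i) → Fin m × ℕ) (hS : Vd (Fintype.card F) a x S)
    (hc : ∀ j i l, cS (Fintype.card F) a d x S j i l ∈ E) {r : ℕ} (e : Fin r ≃ Rw a)
    {s0 : Fin r → Fin m × ℕ} (hs0 : dt (Fintype.card F) (fun i j => x (e i) j) s0 ≠ 0)
    (s : Fin r → Fin m × ℕ) : dt (Fintype.card F) (fun i j => x (e i) j) s /
      dt (Fintype.card F) (fun i j => x (e i) j) s0 ∈ E := by
  classical
  obtain ⟨u, hu⟩ := exists_span E.toSubring a d hdq x S hS hc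
  have h1 : ∀ n : Fin m × ℕ, ∃ b : Fin r → K, (∀ l, b l ∈ E) ∧
      ∀ i, v (Fintype.card F) (fun i j => x (e i) j) n i = ∑ l, u (e l) (e i) * b l := by
    intro n
    have h2 := hu (cl_mem (y := x) n)
    rw [← e.surjective.range_comp u] at h2
    rw [Submodule.mem_span_range_iff_exists_fun] at h2
    obtain ⟨c, hc⟩ := h2
    refine ⟨fun l => c l, fun l => (c l).2, fun i => ?_⟩
    have h3 := congrFun hc (e i)
    rw [Finset.sum_apply] at h3
    refine h3.symm.trans (Finset.sum_congr rfl fun l _ => ?_)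
    exact mul_comm _ _
  choose b hb hb1 using h1
  have h2 : ∀ s : Fin r → Fin m × ℕ, dt (Fintype.card F) (fun i j => x (e i) j) s =
      (Matrix.of fun i l => u (e l) (e i)).det * (Matrix.of fun l l' => b (s l') l).det := by
    intro s
    rw [← det_mul]
    unfold dt
    congr 1
    refine Matrix.ext fun i l' => ?_
    rw [mat_apply, mul_apply, hb1]
    rfl
  have h3 : ∀ s : Fin r → Fin m × ℕ, (Matrix.of fun l l' => b (s l') l).det ∈ E := fun s =>
    det_mem (C := E.toSubring) _ fun i j => hb _ _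
  have h4 := hs0
  rw [h2] at h4
  rw [h2, h2, mul_div_mul_left _ _ (left_ne_zero_of_mul h4)]
  exact E.div_mem (h3 _) (h3 _)

end span

section field

variable {F : Type v} {k K : Type u} [Field F] [Fintype F] [Field k] [Field K] [Algebra F k]
  [Algebra k K] [Algebra F K] [IsScalarTower F k K] {m t : ℕ}

variable (F) in
/-- The coordinates of a chart as a family. -/
noncomputable def cT (a d : Fin t → ℕ) (x : Rw a → Fin m → K)
    (S : ∀ i, Fin (a i) → Fin m × ℕ) (w : Fin m × Rw a) : K :=
  cS (Fintype.card F) a d x S w.1 w.2.1 w.2.2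

variable (F) (k) in
/-- The algebra of a chart. -/
noncomputable def CT (a d : Fin t → ℕ) (x : Rw a → Fin m → K)
    (S : ∀ i, Fin (a i) → Fin m × ℕ) : Subalgebra k K :=
  Algebra.adjoin k (Set.range (cT F a d x S))

variable (F) (k) in
/-- The function field of a chart. -/
noncomputable def ET (a d : Fin t → ℕ) (x : Rw a → Fin m → K)
    (S : ∀ i, Fin (a i) → Fin m × ℕ) : IntermediateField k K :=
  IntermediateField.adjoin k (Set.range (cT F a d x S))

variable {a d : Fin t → ℕ} {x : Rw a → Fin m → K} {S : ∀ i, Fin (a i) → Fin m × ℕ}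

lemma cS_mem_CT (j : Fin m) (i : Fin t) (l : Fin (a i)) :
    cS (Fintype.card F) a d x S j i l ∈ CT F k a d x S :=
  Algebra.subset_adjoin ⟨(j, ⟨i, l⟩), rfl⟩

lemma CT_le_ET {y : K} (h : y ∈ CT F k a d x S) : y ∈ ET F k a d x S :=
  IntermediateField.algebra_adjoin_le_adjoin k _ h

/-- The variables are integral over the algebra of a chart. -/
lemma CT_int (hdq : ∀ i, d i ∣ Fintype.card F - 1) (hS : Vd (Fintype.card F) a x S) (w : Rw a)
    (j : Fin m) : IsIntegral (CT F k a d x S) (x w j) := by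
  refine H920R2.isIntegral_of_valuation _ _ fun V hV => ?_
  exact x_mem_of_cS V a d hdq x S hS (fun j i l => hV _ (cS_mem_CT j i l)) w j

/-- The standard chart for all the rows. -/
def st {m : ℕ} [NeZero m] (r : ℕ) (l : Fin r) : Fin m × ℕ := (0, (l : ℕ))

lemma st_Dc {m : ℕ} [NeZero m] (r : ℕ) : Dc (st (m := m) r) := by
  rintro j b ⟨l, hl⟩
  have h1 := congrArg Prod.fst hl
  have h2 := congrArg Prod.snd hl
  change (0 : Fin m) = j at h1
  change (l : ℕ) = b + 1 at h2
  have h3 := l.2
  exact ⟨⟨b, by omega⟩, Prod.ext h1 rfl⟩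

variable [NeZero m] (hx : AlgebraicIndependent k fun w : Rw a × Fin m => x w.1 w.2)
  (hK : IntermediateField.adjoin k (Set.range fun w : Rw a × Fin m => x w.1 w.2) = ⊤)
  (hdq : ∀ i, d i ∣ Fintype.card F - 1) (hS : Vd (Fintype.card F) a x S) {r : ℕ}
  (e : Fin r ≃ Rw a)

include hx in
lemma xe_lin (j : Fin m) : LinearIndependent F fun i : Fin r => x (e i) j := by
  have h1 := hx.comp (fun i : Fin r => (e i, j)) fun i i' h => e.injective (Prod.mk.inj h).1
  exact lin_of_ind h1

include hK in
lemma xe_top : IntermediateField.adjoin k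
    (Set.range fun w : Fin r × Fin m => x (e w.1) w.2) = ⊤ := by
  rw [← hK]
  congr 1
  ext y
  constructor
  · rintro ⟨w, rfl⟩
    exact ⟨(e w.1, w.2), rfl⟩
  · rintro ⟨w, rfl⟩
    exact ⟨(e.symm w.1, w.2), by simp⟩

include hdq hS in
lemma Ec_le (hs0 : dt (Fintype.card F) (fun i j => x (e i) j) (st r) ≠ 0) :
    Ec F k (fun i j => x (e i) j) (st r) ≤ ET F k a d x S := by
  rw [Ec, IntermediateField.adjoin_le_iff]
  rintro _ ⟨w, rfl⟩
  unfold cc
  rw [co_v]
  exact ratio_all (ET F k a d x S).toSubfield a d hdq x S hS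
    (fun j i l => CT_le_ET (cS_mem_CT j i l)) e hs0 _

lemma fd_Ec {x : Fin r → Fin m → K} {s : Fin r → Fin m × ℕ}
    (hK : IntermediateField.adjoin k (Set.range fun w : Fin r × Fin m => x w.1 w.2) = ⊤)
    (hG : IsGalois (Ec F k x s) K) : FiniteDimensional (Ec F k x s) K := by
  have h1 : FiniteDimensional (Ec F k x s) (IntermediateField.adjoin (Ec F k x s)
      (Set.range fun w : Fin r × Fin m => x w.1 w.2)) := by
    refine IntermediateField.finiteDimensional_adjoin ?_
    intro y _
    exact Algebra.IsIntegral.isIntegral y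
  rw [adj_Ec (F := F) (s := s) hK] at h1
  exact Module.Finite.equiv IntermediateField.topEquiv.toLinearEquiv

lemma tower_gal {E1 E2 : IntermediateField k K} (h : E1 ≤ E2) (h1 : IsGalois E1 K)
    (h2 : FiniteDimensional E1 K) : IsGalois E2 K ∧ FiniteDimensional E2 K := by
  let _ : Algebra E1 E2 := (IntermediateField.inclusion h).toRingHom.toAlgebra
  have : IsScalarTower E1 E2 K := IsScalarTower.of_algebraMap_eq fun _ => rfl
  exact ⟨IsGalois.tower_top_of_isGalois E1 E2 K, FiniteDimensional.right E1 E2 K⟩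

include hx hK hdq hS in
lemma isGalois_ET : IsGalois (ET F k a d x S) K ∧ FiniteDimensional (ET F k a d x S) K := by
  obtain ⟨r, ⟨e⟩⟩ : ∃ r : ℕ, Nonempty (Fin r ≃ Rw a) := ⟨_, ⟨(Fintype.equivFin _).symm⟩⟩
  have hlin := xe_lin (F := F) hx e
  have hs0 : dt (Fintype.card F) (fun i j => x (e i) j) (st _) ≠ 0 := dt_moore (hlin 0)
  have h0 := xe_top hK e
  have h1 : IsGalois (Ec F k (fun i j => x (e i) j) (st r)) K :=
    isGalois_Ec (F := F) (x := fun i j => x (e i) j) (s := st r) h0 hs0 (st_Dc _) hlin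
  have h2 : FiniteDimensional (Ec F k (fun i j => x (e i) j) (st r)) K :=
    fd_Ec (F := F) (x := fun i j => x (e i) j) (s := st r) h0 h1
  have h3 : Ec F k (fun i j => x (e i) j) (st r) ≤ ET F k a d x S := Ec_le (k := k) hdq hS e hs0
  exact tower_gal h3 h1 h2

include hx hK hdq hS in
/-- The function field of the chart contains all the invariants. -/
theorem mem_ET (y : K) (h : ∀ σ : K ≃ₐ[k] K, (∃ B : Matrix (Rw a) (Rw a) F, Gm a d B ∧
      ∀ w j, σ (x w j) = bx B x w j) → σ y = y) : y ∈ ET F k a d x S := by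
  obtain ⟨hG, hfd⟩ := isGalois_ET hx hK hdq hS
  obtain ⟨r, ⟨e⟩⟩ : ∃ r : ℕ, Nonempty (Fin r ≃ Rw a) := ⟨_, ⟨(Fintype.equivFin _).symm⟩⟩
  have hlin := xe_lin (F := F) hx e
  have hs0 : dt (Fintype.card F) (fun i j => x (e i) j) (st _) ≠ 0 := dt_moore (hlin 0)
  have hle := Ec_le (k := k) hdq hS e hs0
  have h2 : y ∈ (⊥ : IntermediateField (ET F k a d x S) K) := by
    rw [IsGalois.mem_bot_iff_fixed]
    intro f
    have hf : ∀ c ∈ ET F k a d x S, f c = c := fun c hc =>
      f.commutes (⟨c, hc⟩ : ET F k a d x S)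
    obtain ⟨A, -, hA⟩ := exists_matrix (F := F) hs0 (st_Dc _) (f.restrictScalars k)
      fun c hc => hf c (hle hc)
    let B : Matrix (Rw a) (Rw a) F := Matrix.of fun w w' => A (e.symm w) (e.symm w')
    have hB : ∀ w j, f (x w j) = bx B x w j := by
      intro w j
      have h3 := hA (e.symm w) j
      rw [Equiv.apply_symm_apply] at h3
      refine h3.trans ?_
      unfold bx
      rw [← e.sum_comp]
      refine Finset.sum_congr rfl fun l _ => ?_
      change _ = algebraMap F K (A (e.symm w) (e.symm (e l))) * _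
      rw [Equiv.symm_apply_apply]
    refine h (f.restrictScalars k) ⟨B, ?_, hB⟩
    exact tri_cS (f : K →+* K) a d hdq x hx S hS B hB fun j i l =>
      hf _ (CT_le_ET (cS_mem_CT j i l))
  rw [IntermediateField.mem_bot] at h2
  obtain ⟨z, rfl⟩ := h2
  exact z.2

include hx hK hdq hS in
/-- The coordinates of a chart are algebraically independent. -/
theorem cT_ind : AlgebraicIndependent k (cT F a d x S) := by
  obtain ⟨hG, hfd⟩ := isGalois_ET hx hK hdq hS
  have halg : Algebra.IsAlgebraic (IntermediateField.adjoin k (Set.range (cT F a d x S))) K := by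
    have : Algebra.IsAlgebraic (ET F k a d x S) K := inferInstance
    exact this
  refine H920R2.algebraicIndependent_of_isAlgebraic (fun w : Rw a × Fin m => x w.1 w.2)
    hx _ ?_ inferInstance halg
  rw [Nat.card_prod, Nat.card_prod, mul_comm]

include hx hK hdq hS in
/-- Integral invariants belong to the algebra of a chart. -/
theorem mem_CT (y : K) (hy : IsIntegral (CT F k a d x S) y) (hE : y ∈ ET F k a d x S) :
    y ∈ CT F k a d x S :=
  H920R2.mem_adjoin_of_isIntegral _ (cT_ind hx hK hdq hS) _ hE hy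

end field

end Pool.Agent.Q2.VI
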