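import Pool.Agent.Q2.VI.Tex
import Pool.Agent.Q2.VI.Gal

/-!
Vector invariants of parabolic subgroups: the action of the group.
-/

set_option autoImplicit false
set_option linter.unusedSectionVars false

open Matrix

universe u v

namespace Pool.Agent.Q2.VI

section act

variable {F : Type v} {K : Type u} [Field F] [Fintype F] [Field K] [Algebra F K] {m : ℕ}

/-- The rows transformed by a matrix over the finite field. -/
def bx {ι : Type} [Fintype ι] (B : Matrix ι ι F) (x : ι → Fin m → K) (w : ι) (j : Fin m) : K :=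
  ∑ w', algebraMap F K (B w w') * x w' j

lemma cl_sum {κ : Type} [Fintype κ] (b : κ → F) (y : κ → Fin m → K) (n : Fin m × ℕ) :
    (∑ w, algebraMap F K (b w) * y w n.1) ^ Fintype.card F ^ n.2 =
      ∑ w, algebraMap F K (b w) * cl (Fintype.card F) y n w := by
  obtain ⟨j, e⟩ := n
  induction e with
  | zero =>
    unfold cl
    simp only [pow_zero, pow_one]
  | succ e ih =>
    change _ ^ Fintype.card F ^ (e + 1) = _
    change _ ^ Fintype.card F ^ e = _ at ih
    rw [pow_succ, pow_mul, ih, pow_sum pow_add' Fintype.card_pos]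
    refine Finset.sum_congr rfl fun w _ => ?_
    rw [mul_pow, ← map_pow, FiniteField.pow_card, ← cl_up]
    rfl

lemma mat_bx {a : ℕ} (g : Matrix (Fin a) (Fin a) F) (x : Fin a → Fin m → K)
    (s : Fin a → Fin m × ℕ) : mat (Fintype.card F) (bx g x) s =
      (algebraMap F K).mapMatrix g * mat (Fintype.card F) x s := by
  refine Matrix.ext fun i l => ?_
  rw [mat_apply, mul_apply]
  exact cl_sum (fun w => g i w) x (s l)

lemma dt_bx {a : ℕ} (g : Matrix (Fin a) (Fin a) F) (x : Fin a → Fin m → K)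
    (s : Fin a → Fin m × ℕ) : dt (Fintype.card F) (bx g x) s =
      algebraMap F K g.det * dt (Fintype.card F) x s := by
  unfold dt
  rw [mat_bx, det_mul, ← RingHom.map_det]

lemma co_bx {a : ℕ} {g : Matrix (Fin a) (Fin a) F} (hg : g.det ≠ 0) (x : Fin a → Fin m → K)
    (s : Fin a → Fin m × ℕ) (n : Fin m × ℕ) (l : Fin a) :
    co (Fintype.card F) (bx g x) s (v (Fintype.card F) (bx g x) n) l =
      co (Fintype.card F) x s (v (Fintype.card F) x n) l := by
  rw [co_v, co_v, dt_bx, dt_bx]
  exact mul_div_mul_left _ _ (by rwa [Ne, map_eq_zero])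

variable {r : ℕ} {ι κ : Type} {x : Fin r → Fin m → K} {s : Fin r → Fin m × ℕ}

/-- The new rows depend linearly on the rows. -/
lemma rm_sum [Fintype κ] (b : ι → κ → F) (y : κ → Fin m → K) (n : Fin m × ℕ) (i : ι) :
    rm (Fintype.card F) x s (fun i j => ∑ w, algebraMap F K (b i w) * y w j) n i =
      ∑ w, algebraMap F K (b i w) * rm (Fintype.card F) x s y n w := by
  have h1 : ∀ n : Fin m × ℕ, cl (Fintype.card F)
      (fun i j => ∑ w, algebraMap F K (b i w) * y w j) n i =
      ∑ w, algebraMap F K (b i w) * cl (Fintype.card F) y n w := fun n => cl_sum (b i) y n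
  unfold rm
  rw [h1]
  have h2 : ∀ l, co (Fintype.card F) x s (v (Fintype.card F) x n) l *
      cl (Fintype.card F) (fun i j => ∑ w, algebraMap F K (b i w) * y w j) (s l) i =
      ∑ w, algebraMap F K (b i w) * (co (Fintype.card F) x s (v (Fintype.card F) x n) l *
        cl (Fintype.card F) y (s l) w) := by
    intro l
    rw [h1, Finset.mul_sum]
    exact Finset.sum_congr rfl fun w _ => mul_left_comm _ _ _
  rw [Finset.sum_congr rfl fun l _ => h2 l, Finset.sum_comm, ← Finset.sum_sub_distrib]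
  refine Finset.sum_congr rfl fun w _ => ?_
  rw [← Finset.mul_sum, mul_sub]

lemma rm_rows (hs : dt (Fintype.card F) x s ≠ 0) (n : Fin m × ℕ) (i : Fin r) :
    rm (Fintype.card F) x s x n i = 0 := by
  unfold rm
  have h1 := sum_co hs (v (Fintype.card F) x n) i
  have h2 : cl (Fintype.card F) x n i = v (Fintype.card F) x n i := rfl
  have h3 : ∀ l, cl (Fintype.card F) x (s l) i = v (Fintype.card F) x (s l) i := fun l => rfl
  rw [h2, Finset.sum_congr rfl fun l _ => by rw [h3 l], h1, sub_self]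

lemma rm_fix (φ : K →+* K)
    (h : ∀ n l, φ (co (Fintype.card F) x s (v (Fintype.card F) x n) l) =
      co (Fintype.card F) x s (v (Fintype.card F) x n) l) (y : ι → Fin m → K)
    (n : Fin m × ℕ) (i : ι) : φ (rm (Fintype.card F) x s y n i) =
      rm (Fintype.card F) x s (fun i j => φ (y i j)) n i := by
  unfold rm cl
  rw [map_sub, map_pow, map_sum]
  congr 1
  refine Finset.sum_congr rfl fun l _ => ?_
  rw [map_mul, h, map_pow]

end act

section rows

variable {F : Type v} {K : Type u} [Field F] [Fintype F] [Field K] [Algebra F K] {m : ℕ}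

lemma sum_rw {M : Type*} [AddCommMonoid M] {t : ℕ} {a : Fin (t + 1) → ℕ} (f : Rw a → M) :
    ∑ w, f w = ∑ l, f ⟨0, l⟩ + ∑ w : Rw (fun i : Fin t => a i.succ), f ⟨w.1.succ, w.2⟩ := by
  rw [Fintype.sum_sigma, Fin.sum_univ_succ, Fintype.sum_sigma]

/-- The diagonal blocks of a matrix. -/
def blk {t : ℕ} {a : Fin t → ℕ} (B : Matrix (Rw a) (Rw a) F) (i : Fin t) :
    Matrix (Fin (a i)) (Fin (a i)) F := Matrix.of fun l l' => B ⟨i, l⟩ ⟨i, l'⟩

/-- The lower right part of a matrix. -/
def lo {t : ℕ} {a : Fin (t + 1) → ℕ} (B : Matrix (Rw a) (Rw a) F) :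
    Matrix (Rw fun i : Fin t => a i.succ) (Rw fun i : Fin t => a i.succ) F :=
  Matrix.of fun w w' => B ⟨w.1.succ, w.2⟩ ⟨w'.1.succ, w'.2⟩

/-- The invertible block lower triangular matrices over the finite field such that the entries of
the diagonal blocks of size one are roots of unity of the orders `d i`. -/
structure Gm {t : ℕ} (a d : Fin t → ℕ) (B : Matrix (Rw a) (Rw a) F) : Prop where
  low : ∀ w w' : Rw a, w.1 < w'.1 → B w w' = 0
  det : ∀ i, (blk B i).det ≠ 0
  one : ∀ i, a i = 1 → ∀ l, B ⟨i, l⟩ ⟨i, l⟩ ^ d i = 1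

lemma Gm.lo {t : ℕ} {a d : Fin (t + 1) → ℕ} {B : Matrix (Rw a) (Rw a) F} (h : Gm a d B) :
    Gm (fun i : Fin t => a i.succ) (fun i => d i.succ) (lo B) where
  low w w' hw := h.low _ _ (Fin.succ_lt_succ_iff.2 hw)
  det i := h.det i.succ
  one i hi l := h.one i.succ hi l

variable {t : ℕ} {a : Fin (t + 1) → ℕ} {x : Rw a → Fin m → K} {s : Fin (a 0) → Fin m × ℕ}
  {B : Matrix (Rw a) (Rw a) F}

lemma nxt_bx (φ : K →+* K) (hφ : ∀ w j, φ (x w j) = bx B x w j)
    (hs : dt (Fintype.card F) (hd x) s ≠ 0)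
    (h : ∀ n l, φ (co (Fintype.card F) (hd x) s (v (Fintype.card F) (hd x) n) l) =
      co (Fintype.card F) (hd x) s (v (Fintype.card F) (hd x) n) l)
    (w : Rw fun i : Fin t => a i.succ) (j : Fin m) :
    φ (nxt (Fintype.card F) x s w j) = bx (lo B) (nxt (Fintype.card F) x s) w j := by
  unfold nxt yw
  rw [rm_fix φ h]
  have h1 : (fun (w : Rw fun i : Fin t => a i.succ) j => φ (tl x w j)) =
      fun w j => ∑ w' : Rw a, algebraMap F K (B ⟨w.1.succ, w.2⟩ w') * x w' j := by
    funext w j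
    exact hφ _ _
  rw [h1, rm_sum (fun (w : Rw fun i : Fin t => a i.succ) w' => B ⟨w.1.succ, w.2⟩ w') x, sum_rw]
  have h2 : ∀ l, rm (Fintype.card F) (hd x) s x (j, nx s j) ⟨0, l⟩ = 0 := fun l =>
    rm_rows hs (j, nx s j) l
  rw [Finset.sum_eq_zero fun l _ => by rw [h2, mul_zero], zero_add]
  rfl

end rows

section inv

variable {F : Type v} {k K : Type u} [Field F] [Fintype F] [Field k] [Field K] [Algebra F k]
  [Algebra k K] [Algebra F K] [IsScalarTower F k K] {m : ℕ}

lemma hd_bx (φ : K →+* K) {t : ℕ} {a : Fin (t + 1) → ℕ} {x : Rw a → Fin m → K}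
    {B : Matrix (Rw a) (Rw a) F} (hB : ∀ l (w : Rw fun i : Fin t => a i.succ),
      B ⟨0, l⟩ ⟨w.1.succ, w.2⟩ = 0) (hφ : ∀ w j, φ (x w j) = bx B x w j) :
    (fun l j => φ (hd x l j)) = bx (blk B 0) (hd x) := by
  funext l j
  refine (hφ _ _).trans ?_
  unfold bx
  rw [sum_rw]
  have h1 : ∀ w : Rw (fun i : Fin t => a i.succ), algebraMap F K (B ⟨0, l⟩ ⟨w.1.succ, w.2⟩) *
      x ⟨w.1.succ, w.2⟩ j = 0 := fun w => by rw [hB, map_zero, zero_mul]
  rw [Finset.sum_eq_zero fun w _ => h1 w, add_zero]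
  rfl

lemma bx_one {b : ℕ} (hb : b = 1) (g : Matrix (Fin b) (Fin b) F) (x : Fin b → Fin m → K)
    (l : Fin b) (j : Fin m) : bx g x l j = algebraMap F K (g l l) * x l j := by
  subst hb
  unfold bx
  rw [Fin.sum_univ_one]
  have h1 : l = 0 := Subsingleton.elim _ _
  subst h1
  rfl

/-- The coordinates are invariant under the group. -/
theorem inv_cS (φ : K →+* K) : ∀ {t : ℕ} (a : Fin t → ℕ) (d : Fin t → ℕ) (x : Rw a → Fin m → K)
    (S : ∀ i, Fin (a i) → Fin m × ℕ) (_ : Vd (Fintype.card F) a x S)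
    (B : Matrix (Rw a) (Rw a) F) (_ : Gm a d B) (_ : ∀ w j, φ (x w j) = bx B x w j) (j : Fin m)
    (i : Fin t) (l : Fin (a i)), φ (cS (Fintype.card F) a d x S j i l) =
      cS (Fintype.card F) a d x S j i l
  | 0, _, _, _, _, _, _, _, _, _, i, _ => i.elim0
  | t + 1, a, d, x, S, hS, B, hB, hφ, j, i, l => by
    obtain ⟨h1, h2, h3⟩ := Vd_succ.1 hS
    have h4 := hd_bx φ (fun l w => hB.low ⟨0, l⟩ ⟨w.1.succ, w.2⟩ (Fin.succ_pos _)) hφ
    have h5 : ∀ n l, φ (co (Fintype.card F) (hd x) (S 0) (v (Fintype.card F) (hd x) n) l) =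
        co (Fintype.card F) (hd x) (S 0) (v (Fintype.card F) (hd x) n) l := by
      intro n l
      rw [map_co, h4]
      exact co_bx (hB.det 0) _ _ _ _
    induction i using Fin.cases with
    | zero =>
      rw [cS_zero]
      unfold c1
      split_ifs with h6
      · rw [map_pow]
        have h7 : φ (hd x l j) = algebraMap F K (blk B 0 l l) * hd x l j :=
          (congrFun (congrFun h4 l) j).trans (bx_one h6.1 (blk B 0) (hd x) l j)
        have h8 : blk B 0 l l ^ d 0 = 1 := hB.one 0 h6.1 l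
        change φ (hd x l j) ^ d 0 = hd x l j ^ d 0
        rw [h7, mul_pow, ← map_pow, h8, map_one, one_mul]
      · exact h5 _ _
    | succ i =>
      exact inv_cS φ (fun i : Fin t => a i.succ) (fun i => d i.succ)
        (nxt (Fintype.card F) x (S 0)) (fun i => S i.succ) h3 (lo B) hB.lo
        (nxt_bx φ hφ h1 h5) j i l

/-- The action of the group on the determinants. -/
theorem inv_dS (φ : K →+* K) : ∀ {t : ℕ} (a : Fin t → ℕ) (d : Fin t → ℕ) (x : Rw a → Fin m → K)
    (S : ∀ i, Fin (a i) → Fin m × ℕ) (_ : Vd (Fintype.card F) a x S)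
    (B : Matrix (Rw a) (Rw a) F) (_ : Gm a d B) (_ : ∀ w j, φ (x w j) = bx B x w j)
    (i : Fin t), φ (dS (Fintype.card F) a x S i) =
      algebraMap F K (blk B i).det * dS (Fintype.card F) a x S i
  | 0, _, _, _, _, _, _, _, _, i => i.elim0
  | t + 1, a, d, x, S, hS, B, hB, hφ, i => by
    obtain ⟨h1, h2, h3⟩ := Vd_succ.1 hS
    have h4 := hd_bx φ (fun l w => hB.low ⟨0, l⟩ ⟨w.1.succ, w.2⟩ (Fin.succ_pos _)) hφ
    have h5 : ∀ n l, φ (co (Fintype.card F) (hd x) (S 0) (v (Fintype.card F) (hd x) n) l) =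
        co (Fintype.card F) (hd x) (S 0) (v (Fintype.card F) (hd x) n) l := by
      intro n l
      rw [map_co, h4]
      exact co_bx (hB.det 0) _ _ _ _
    induction i using Fin.cases with
    | zero =>
      rw [dS_zero, map_dt, h4, dt_bx]
    | succ i =>
      exact inv_dS φ (fun i : Fin t => a i.succ) (fun i => d i.succ)
        (nxt (Fintype.card F) x (S 0)) (fun i => S i.succ) h3 (lo B) hB.lo
        (nxt_bx φ hφ h1 h5) i

/-- A linear substitution which fixes the coordinates of a chart belongs to the group. -/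
theorem tri_cS [NeZero m] (φ : K →+* K) : ∀ {t : ℕ} (a : Fin t → ℕ) (d : Fin t → ℕ)
    (_ : ∀ i, d i ∣ Fintype.card F - 1) (x : Rw a → Fin m → K)
    (_ : AlgebraicIndependent k fun w : Rw a × Fin m => x w.1 w.2)
    (S : ∀ i, Fin (a i) → Fin m × ℕ) (_ : Vd (Fintype.card F) a x S)
    (B : Matrix (Rw a) (Rw a) F) (_ : ∀ w j, φ (x w j) = bx B x w j)
    (_ : ∀ (j : Fin m) (i : Fin t) (l : Fin (a i)), φ (cS (Fintype.card F) a d x S j i l) =
      cS (Fintype.card F) a d x S j i l), Gm a d B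
  | 0, _, _, _, _, _, _, _, _, _, _ => ⟨fun w => w.1.elim0, fun i => i.elim0, fun i => i.elim0⟩
  | t + 1, a, d, hdq, x, hx, S, hS, B, hφ, hc => by
    obtain ⟨h1, h2, h3⟩ := Vd_succ.1 hS
    let C : Subring K := RingHom.eqLocus φ (RingHom.id K)
    have h4 : ∀ w, cc F (hd x) (S 0) w ∈ C :=
      cc_of_c1 (hdq 0) h1 h2 fun w => hc w.1 0 w.2
    have h5 : ∀ n l, φ (co (Fintype.card F) (hd x) (S 0) (v (Fintype.card F) (hd x) n) l) =
        co (Fintype.card F) (hd x) (S 0) (v (Fintype.card F) (hd x) n) l :=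
      fun n l => all_of_cc h1 h2 h4 n l
    have hni := nxt_ind (F := F) hx h1 h2
    -- the upper right part
    have h6 : ∀ l (w : Rw fun i : Fin t => a i.succ), B ⟨0, l⟩ ⟨w.1.succ, w.2⟩ = 0 := by
      intro l
      let j : Fin m := 0
      have h7 : ∑ w : Rw (fun i : Fin t => a i.succ), algebraMap F K (B ⟨0, l⟩ ⟨w.1.succ, w.2⟩) *
          nxt (Fintype.card F) x (S 0) w j = 0 := by
        have h8 := congrArg φ (rm_rows (F := F) (s := S 0) h1 (j, nx (S 0) j) l)
        rw [rm_fix φ h5, map_zero] at h8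
        have h9 : (fun l j => φ (hd x l j)) =
            fun l j => ∑ w' : Rw a, algebraMap F K (B ⟨0, l⟩ w') * x w' j := by
          funext l j
          exact hφ _ _
        rw [h9, rm_sum (fun (l : Fin (a 0)) w' => B ⟨0, l⟩ w') x, sum_rw] at h8
        have h10 : ∀ l', rm (Fintype.card F) (hd x) (S 0) x (j, nx (S 0) j) ⟨0, l'⟩ = 0 :=
          fun l' => rm_rows h1 (j, nx (S 0) j) l'
        rw [Finset.sum_eq_zero fun l' _ => by rw [h10, mul_zero], zero_add] at h8
        exact h8
      have h8 : LinearIndependent F fun w : Rw (fun i : Fin t => a i.succ) =>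
          nxt (Fintype.card F) x (S 0) w j :=
        lin_of_ind (hni.comp (fun w => (w, j)) fun w w' h => (Prod.mk.inj h).1)
      rw [Fintype.linearIndependent_iff] at h8
      exact h8 _ (by
        rw [← h7]
        exact Finset.sum_congr rfl fun w _ => by rw [Algebra.smul_def])
    have h7 := hd_bx φ h6 hφ
    have hIH := tri_cS φ (fun i : Fin t => a i.succ) (fun i => d i.succ)
        (fun i => hdq i.succ) (nxt (Fintype.card F) x (S 0)) hni (fun i => S i.succ) h3 (lo B)
        (nxt_bx φ hφ h1 h5) (fun j i l => hc j i.succ l)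
    refine ⟨?_, ?_, ?_⟩
    · rintro ⟨i, l⟩ ⟨i', l'⟩ hw
      change i < i' at hw
      induction i' using Fin.cases with
      | zero => exact absurd hw (Fin.not_lt_zero i)
      | succ i' =>
        induction i using Fin.cases with
        | zero => exact h6 l ⟨i', l'⟩
        | succ i => exact hIH.low ⟨i, l⟩ ⟨i', l'⟩ (Fin.succ_lt_succ_iff.1 hw)
    · intro i
      induction i using Fin.cases with
      | zero =>
        intro h0
        have h8 := map_dt φ (Fintype.card F) (hd x) (S 0)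
        rw [h7, dt_bx, h0, map_zero, zero_mul, map_eq_zero] at h8
        exact h1 h8
      | succ i => exact hIH.det i
    · intro i
      induction i using Fin.cases with
      | zero =>
        intro hi l
        have h8 := hc (S 0 l).1 0 l
        rw [cS_zero] at h8
        unfold c1 at h8
        rw [if_pos ⟨hi, rfl⟩, map_pow] at h8
        have h9 : φ (hd x l (S 0 l).1) = algebraMap F K (blk B 0 l l) *
            hd x l (S 0 l).1 :=
          (congrFun (congrFun h7 l) _).trans (bx_one hi (blk B 0) (hd x) l _)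
        change φ (hd x l (S 0 l).1) ^ d 0 = hd x l (S 0 l).1 ^ d 0 at h8
        have hx0 : hd x l (S 0 l).1 ≠ 0 :=
          (ind_fst (jn_ind hx)).ne_zero (l, (S 0 l).1)
        rw [h9, mul_pow, mul_eq_right₀ (pow_ne_zero _ hx0), ← map_pow] at h8
        exact (algebraMap F K).injective (h8.trans (map_one _).symm)
      | succ i => exact hIH.one i

end inv

end Pool.Agent.Q2.VI
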