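import Pool.Agent.Q2.VI.Ind

/-!
Vector invariants of parabolic subgroups: towers of charts.
-/

set_option autoImplicit false
set_option linter.unusedSectionVars false

open Matrix

universe u v

namespace Pool.Agent.Q2.VI

/-- The rows, in blocks of sizes `a i`. -/
abbrev Rw {t : ℕ} (a : Fin t → ℕ) : Type := Σ i : Fin t, Fin (a i)

section defs

variable {K : Type u} [Field K] {m : ℕ}

/-- The first block of rows. -/
def hd {t : ℕ} {a : Fin (t + 1) → ℕ} (x : Rw a → Fin m → K) : Fin (a 0) → Fin m → K :=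
  fun l => x ⟨0, l⟩

/-- The remaining rows. -/
def tl {t : ℕ} {a : Fin (t + 1) → ℕ} (x : Rw a → Fin m → K) :
    Rw (fun i : Fin t => a i.succ) → Fin m → K := fun w => x ⟨w.1.succ, w.2⟩

/-- The new rows. -/
noncomputable def nxt (q : ℕ) {t : ℕ} {a : Fin (t + 1) → ℕ} (x : Rw a → Fin m → K)
    (s : Fin (a 0) → Fin m × ℕ) : Rw (fun i : Fin t => a i.succ) → Fin m → K :=
  yw q (hd x) s (tl x)

/-- The chart is admissible. -/
def Vd (q : ℕ) : ∀ {t : ℕ} (a : Fin t → ℕ), (Rw a → Fin m → K) →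
    (∀ i, Fin (a i) → Fin m × ℕ) → Prop
  | 0, _, _, _ => True
  | _ + 1, a, x, S => dt q (hd x) (S 0) ≠ 0 ∧ Dc (S 0) ∧
      Vd q (fun i => a i.succ) (nxt q x (S 0)) fun i => S i.succ

/-- The coordinates of a chart for one block; for a block with one row the coordinate of the pivot
is its `d`-th power. -/
noncomputable def c1 (q d : ℕ) {a : ℕ} (x : Fin a → Fin m → K) (s : Fin a → Fin m × ℕ)
    (w : Fin m × Fin a) : K :=
  if a = 1 ∧ w.1 = (s w.2).1 then x w.2 w.1 ^ d else co q x s (v q x (w.1, nx s w.1)) w.2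

/-- The coordinates of a chart. -/
noncomputable def cS (q : ℕ) : ∀ {t : ℕ} (a : Fin t → ℕ), (Fin t → ℕ) → (Rw a → Fin m → K) →
    (∀ i, Fin (a i) → Fin m × ℕ) → Fin m → ∀ i : Fin t, Fin (a i) → K
  | 0, _, _, _, _, _, i => i.elim0
  | _ + 1, a, d, x, S, j, i => Fin.cases (motive := fun i => Fin (a i) → K)
      (fun l => c1 q (d 0) (hd x) (S 0) (j, l))
      (fun i l => cS q (fun i => a i.succ) (fun i => d i.succ) (nxt q x (S 0))
        (fun i => S i.succ) j i l) i

/-- The determinants of the blocks. -/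
noncomputable def dS (q : ℕ) : ∀ {t : ℕ} (a : Fin t → ℕ), (Rw a → Fin m → K) →
    (∀ i, Fin (a i) → Fin m × ℕ) → Fin t → K
  | 0, _, _, _, i => i.elim0
  | _ + 1, a, x, S, i => Fin.cases (motive := fun _ => K) (dt q (hd x) (S 0))
      (fun i => dS q (fun i => a i.succ) (nxt q x (S 0)) (fun i => S i.succ) i) i

variable {q : ℕ} {t : ℕ} {a : Fin (t + 1) → ℕ} {d : Fin (t + 1) → ℕ} {x : Rw a → Fin m → K}
  {S : ∀ i, Fin (a i) → Fin m × ℕ}

lemma Vd_succ : Vd q a x S ↔ dt q (hd x) (S 0) ≠ 0 ∧ Dc (S 0) ∧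
      Vd q (fun i : Fin t => a i.succ) (nxt q x (S 0)) fun i => S i.succ := Iff.rfl

lemma cS_zero (j : Fin m) (l : Fin (a 0)) : cS q a d x S j 0 l =
    c1 q (d 0) (hd x) (S 0) (j, l) := rfl

lemma cS_succ (j : Fin m) (i : Fin t) (l : Fin (a i.succ)) : cS q a d x S j i.succ l =
    cS q (fun i => a i.succ) (fun i => d i.succ) (nxt q x (S 0)) (fun i => S i.succ) j i l := rfl

lemma dS_zero : dS q a x S 0 = dt q (hd x) (S 0) := rfl

lemma dS_succ (i : Fin t) : dS q a x S i.succ =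
    dS q (fun i => a i.succ) (nxt q x (S 0)) (fun i => S i.succ) i := rfl

/-- For a block with one row the column is not raised to a power. -/
lemma Dc.one {a : ℕ} (ha : a = 1) {s : Fin a → Fin m × ℕ} (hd : Dc s) (l : Fin a) :
    (s l).2 = 0 := by
  subst ha
  have hl : ∀ l' : Fin 1, l' = l := fun l' => Subsingleton.elim _ _
  by_contra h0
  obtain ⟨e, he⟩ := Nat.exists_eq_succ_of_ne_zero h0
  have h1 : ((s l).1, e + 1) ∈ Set.range s := ⟨l, Prod.ext rfl he⟩
  obtain ⟨l', hl'⟩ := hd _ _ h1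
  rw [hl l'] at hl'
  have h2 := congrArg Prod.snd hl'
  rw [he] at h2
  change e.succ = e at h2
  omega

end defs

section one

variable {F : Type v} {K : Type u} [Field F] [Fintype F] [Field K] [Algebra F K] {m a : ℕ}
  {x : Fin a → Fin m → K} {s : Fin a → Fin m × ℕ}

/-- The coordinate of the pivot. -/
lemma cc_one (ha : a = 1) (hs : dt (Fintype.card F) x s ≠ 0) (hd : Dc s) {w : Fin m × Fin a}
    (hw : w.1 = (s w.2).1) : cc F x s w = x w.2 w.1 ^ (Fintype.card F - 1) := by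
  subst ha
  have hsub : ∀ l' : Fin 1, l' = w.2 := fun l' => Subsingleton.elim _ _
  have hs0 := hd.one rfl w.2
  have hsw : s w.2 = (w.1, 0) := Prod.ext hw.symm hs0
  have hnx : nx s w.1 = 1 := by
    have h1 : nx s w.1 ≤ 1 := nx_le _
    have h2 : nx s w.1 ≠ 0 := by
      intro h0
      have h3 := nx_not s w.1
      rw [h0] at h3
      exact h3 ⟨w.2, hsw⟩
    omega
  have hdt : ∀ t : Fin 1 → Fin m × ℕ, dt (Fintype.card F) x t =
      x w.2 (t w.2).1 ^ Fintype.card F ^ (t w.2).2 := by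
    intro t
    unfold dt
    rw [det_unique]
    have h1 : (default : Fin 1) = w.2 := Subsingleton.elim _ _
    rw [h1]
    rfl
  have hx0 : x w.2 w.1 ≠ 0 := by
    intro h0
    apply hs
    rw [hdt, hsw, h0]
    exact zero_pow (pow_pos Fintype.card_pos _).ne'
  unfold cc
  rw [co_v, hdt, hdt, hnx, Function.update_self, hsw, pow_one, pow_zero, pow_one]
  rw [div_eq_iff hx0, ← pow_succ, Nat.sub_add_cancel Fintype.card_pos]

lemma cc_of_c1 {d : ℕ} (hdq : d ∣ Fintype.card F - 1) (hs : dt (Fintype.card F) x s ≠ 0)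
    (hd : Dc s) {C : Subring K} (h : ∀ w, c1 (Fintype.card F) d x s w ∈ C) (w : Fin m × Fin a) :
    cc F x s w ∈ C := by
  have h1 := h w
  unfold c1 at h1
  split_ifs at h1 with h2
  · rw [cc_one h2.1 hs hd h2.2]
    obtain ⟨e, he⟩ := hdq
    rw [he, pow_mul]
    exact C.pow_mem h1 e
  · exact h1

lemma c1_of_cc {d : ℕ} {C : Subring K} (h : ∀ w, cc F x s w ∈ C) (hx : ∀ i j, x i j ∈ C)
    (w : Fin m × Fin a) : c1 (Fintype.card F) d x s w ∈ C := by
  unfold c1
  split_ifs with h2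
  · exact C.pow_mem (hx _ _) _
  · exact h w

end one

end Pool.Agent.Q2.VI
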