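import Pool.Agent.Q2.VI.Tower

/-!
Vector invariants of parabolic subgroups: valuation rings and towers of charts.
-/

set_option autoImplicit false
set_option linter.unusedSectionVars false

open Matrix

universe u v

namespace Pool.Agent.Q2.VI

section val

variable {F : Type v} {K : Type u} [Field F] [Fintype F] [Field K] [Algebra F K] {m : ℕ}

/-- The variables belong to every valuation ring which contains the coordinates of a chart. -/
theorem x_mem_of_cS (V : ValuationSubring K) : ∀ {t : ℕ} (a : Fin t → ℕ) (d : Fin t → ℕ)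
    (_ : ∀ i, d i ∣ Fintype.card F - 1) (x : Rw a → Fin m → K)
    (S : ∀ i, Fin (a i) → Fin m × ℕ) (_ : Vd (Fintype.card F) a x S)
    (_ : ∀ j i l, cS (Fintype.card F) a d x S j i l ∈ V) (w : Rw a) (j : Fin m), x w j ∈ V
  | 0, _, _, _, _, _, _, _, w, _ => w.1.elim0
  | t + 1, a, d, hdq, x, S, hS, hc, w, j => by
    obtain ⟨h1, h2, h3⟩ := Vd_succ.1 hS
    have h4 : ∀ w, cc F (hd x) (S 0) w ∈ V.toSubring :=
      cc_of_c1 (hdq 0) h1 h2 fun w => hc w.1 0 w.2
    have h5 := all_of_cc h1 h2 h4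
    have h6 := x_mem_of_cS V (fun i : Fin t => a i.succ) (fun i => d i.succ)
      (fun i => hdq i.succ) (nxt (Fintype.card F) x (S 0)) (fun i => S i.succ) h3
      (fun j i l => hc j i.succ l)
    have h7 := row_mem (y := tl x) h1 h2 V h5 h6
    obtain ⟨i, l⟩ := w
    induction i using Fin.cases with
    | zero => exact x_mem_of_chart h1 V h5 l j
    | succ i => exact h7 ⟨i, l⟩ j

/-- The columns of the first rows and of the remaining rows. -/
def spl (C : Subring K) {t : ℕ} (a : Fin (t + 1) → ℕ) : (Rw a → K) →ₗ[C]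
    (Fin (a 0) → K) × (Rw (fun i : Fin t => a i.succ) → K) where
  toFun u := (fun l => u ⟨0, l⟩, fun w => u ⟨w.1.succ, w.2⟩)
  map_add' _ _ := rfl
  map_smul' _ _ := rfl

lemma Lp_eq (C : Subring K) {t : ℕ} {a : Fin (t + 1) → ℕ} (x : Rw a → Fin m → K) :
    Lp (Fintype.card F) C (hd x) (tl x) = (Lt (Fintype.card F) C x).map (spl C a) := by
  unfold Lp Lt
  rw [Submodule.map_span, ← Set.range_comp]
  rfl

/-- The quotients of the determinants of two charts. -/
noncomputable def rh (q : ℕ) {t : ℕ} (a : Fin t → ℕ) (x x' : Rw a → Fin m → K)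
    (S S' : ∀ i, Fin (a i) → Fin m × ℕ) (i : Fin t) : K := dS q a x' S' i / dS q a x S i

/-- Comparison of two charts at a valuation ring. -/
theorem rh_mem (V : ValuationSubring K) : ∀ {t : ℕ} (a : Fin t → ℕ) (d : Fin t → ℕ)
    (_ : ∀ i, d i ∣ Fintype.card F - 1) (x x' : Rw a → Fin m → K)
    (S S' : ∀ i, Fin (a i) → Fin m × ℕ) (_ : Vd (Fintype.card F) a x S)
    (_ : Vd (Fintype.card F) a x' S')
    (_ : ∀ j i l, cS (Fintype.card F) a d x S j i l ∈ V)
    (_ : Lt (Fintype.card F) V.toSubring x' ≤ Lt (Fintype.card F) V.toSubring x) (i : Fin t)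
    (_ : ∀ j < i, (rh (Fintype.card F) a x x' S S' j)⁻¹ ∈ V),
    rh (Fintype.card F) a x x' S S' i ∈ V
  | 0, _, _, _, _, _, _, _, _, _, _, _, i, _ => i.elim0
  | t + 1, a, d, hdq, x, x', S, S', hS, hS', hc, hle, i, hi => by
    obtain ⟨h1, h2, h3⟩ := Vd_succ.1 hS
    obtain ⟨h1', h2', h3'⟩ := Vd_succ.1 hS'
    have h4 : ∀ w, cc F (hd x) (S 0) w ∈ V.toSubring :=
      cc_of_c1 (hdq 0) h1 h2 fun w => hc w.1 0 w.2
    have h5 := all_of_cc h1 h2 h4
    have hle' : Lp (Fintype.card F) V.toSubring (hd x') (tl x') ≤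
        Lp (Fintype.card F) V.toSubring (hd x) (tl x) := by
      rw [Lp_eq, Lp_eq]
      exact Submodule.map_mono hle
    induction i using Fin.cases with
    | zero => exact cmp_mem h1 h2 h5 hle' (S' 0)
    | succ i =>
      have h6 := cmp_all h1 h2 h5 hle' (s' := S' 0) (hi 0 (Fin.succ_pos i))
      have h7 := Lt_yw_le h1 h2 h5 h1' h6 hle'
      exact rh_mem V (fun i : Fin t => a i.succ) (fun i => d i.succ) (fun i => hdq i.succ)
        (nxt (Fintype.card F) x (S 0)) (nxt (Fintype.card F) x' (S' 0)) (fun i => S i.succ)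
        (fun i => S' i.succ) h3 h3' (fun j i l => hc j i.succ l) h7 i
        (fun j hj => hi j.succ (Fin.succ_lt_succ_iff.2 hj))

theorem cS_mem_of_rh (V : ValuationSubring K) : ∀ {t : ℕ} (a : Fin t → ℕ) (d : Fin t → ℕ)
    (_ : ∀ i, d i ∣ Fintype.card F - 1) (x x' : Rw a → Fin m → K)
    (S S' : ∀ i, Fin (a i) → Fin m × ℕ) (_ : Vd (Fintype.card F) a x S)
    (_ : Vd (Fintype.card F) a x' S')
    (_ : ∀ j i l, cS (Fintype.card F) a d x S j i l ∈ V)
    (_ : Lt (Fintype.card F) V.toSubring x' ≤ Lt (Fintype.card F) V.toSubring x)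
    (_ : ∀ i, (rh (Fintype.card F) a x x' S S' i)⁻¹ ∈ V) (j : Fin m) (i : Fin t) (l : Fin (a i)),
    cS (Fintype.card F) a d x' S' j i l ∈ V
  | 0, _, _, _, _, _, _, _, _, _, _, _, _, _, i, _ => i.elim0
  | t + 1, a, d, hdq, x, x', S, S', hS, hS', hc, hle, hi, j, i, l => by
    obtain ⟨h1, h2, h3⟩ := Vd_succ.1 hS
    obtain ⟨h1', h2', h3'⟩ := Vd_succ.1 hS'
    have h4 : ∀ w, cc F (hd x) (S 0) w ∈ V.toSubring :=
      cc_of_c1 (hdq 0) h1 h2 fun w => hc w.1 0 w.2
    have h5 := all_of_cc h1 h2 h4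
    have hle' : Lp (Fintype.card F) V.toSubring (hd x') (tl x') ≤
        Lp (Fintype.card F) V.toSubring (hd x) (tl x) := by
      rw [Lp_eq, Lp_eq]
      exact Submodule.map_mono hle
    have h6 := cmp_all h1 h2 h5 hle' (s' := S' 0) (hi 0)
    have h7 := Lt_yw_le h1 h2 h5 h1' h6 hle'
    induction i using Fin.cases with
    | zero =>
      exact c1_of_cc (C := V.toSubring) (fun w => h6 _ w.2) (x_mem_of_chart h1' V h6) (j, l)
    | succ i =>
      exact cS_mem_of_rh V (fun i : Fin t => a i.succ) (fun i => d i.succ) (fun i => hdq i.succ)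
        (nxt (Fintype.card F) x (S 0)) (nxt (Fintype.card F) x' (S' 0)) (fun i => S i.succ)
        (fun i => S' i.succ) h3 h3' (fun j i l => hc j i.succ l) h7
        (fun i => hi i.succ) j i l

/-- The coordinates at a valuation ring where the determinants are invertible. -/
theorem dS_mem (V : ValuationSubring K) : ∀ {t : ℕ} (a : Fin t → ℕ)
    (x : Rw a → Fin m → K) (S : ∀ i, Fin (a i) → Fin m × ℕ) (_ : Vd (Fintype.card F) a x S)
    (_ : ∀ w j, x w j ∈ V) (i : Fin t)
    (_ : ∀ j < i, (dS (Fintype.card F) a x S j)⁻¹ ∈ V), dS (Fintype.card F) a x S i ∈ V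
  | 0, _, _, _, _, _, i, _ => i.elim0
  | t + 1, a, x, S, hS, hx, i, hi => by
    obtain ⟨h1, h2, h3⟩ := Vd_succ.1 hS
    have hdt : ∀ s : Fin (a 0) → Fin m × ℕ, dt (Fintype.card F) (hd x) s ∈ V := by
      intro s
      exact det_mem (C := V.toSubring) _ fun i j => V.toSubring.pow_mem (hx _ _) _
    induction i using Fin.cases with
    | zero => exact hdt _
    | succ i =>
      have h5 : ∀ n, Ib (Fintype.card F) (hd x) V.toSubring (S 0)
          (v (Fintype.card F) (hd x) n) := by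
        intro n l
        rw [co_v, div_eq_mul_inv]
        exact V.toSubring.mul_mem (hdt _) (hi 0 (Fin.succ_pos i))
      exact dS_mem V (fun i : Fin t => a i.succ) (nxt (Fintype.card F) x (S 0))
        (fun i => S i.succ) h3 (yw_mem (V := V.toSubring) h5 fun w j => hx _ _) i
        (fun j hj => hi j.succ (Fin.succ_lt_succ_iff.2 hj))

theorem cS_mem_of_dS (V : ValuationSubring K) : ∀ {t : ℕ} (a : Fin t → ℕ) (d : Fin t → ℕ)
    (x : Rw a → Fin m → K) (S : ∀ i, Fin (a i) → Fin m × ℕ) (_ : Vd (Fintype.card F) a x S)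
    (_ : ∀ w j, x w j ∈ V) (_ : ∀ i, (dS (Fintype.card F) a x S i)⁻¹ ∈ V) (j : Fin m)
    (i : Fin t) (l : Fin (a i)), cS (Fintype.card F) a d x S j i l ∈ V
  | 0, _, _, _, _, _, _, _, _, i, _ => i.elim0
  | t + 1, a, d, x, S, hS, hx, hi, j, i, l => by
    obtain ⟨h1, h2, h3⟩ := Vd_succ.1 hS
    have hdt : ∀ s : Fin (a 0) → Fin m × ℕ, dt (Fintype.card F) (hd x) s ∈ V := by
      intro s
      exact det_mem (C := V.toSubring) _ fun i j => V.toSubring.pow_mem (hx _ _) _
    have h5 : ∀ n, Ib (Fintype.card F) (hd x) V.toSubring (S 0)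
        (v (Fintype.card F) (hd x) n) := by
      intro n l
      rw [co_v, div_eq_mul_inv]
      exact V.toSubring.mul_mem (hdt _) (hi 0)
    induction i using Fin.cases with
    | zero =>
      exact c1_of_cc (C := V.toSubring) (fun w => h5 _ w.2) (fun i j => hx _ _) (j, l)
    | succ i =>
      exact cS_mem_of_dS V (fun i : Fin t => a i.succ) (fun i => d i.succ)
        (nxt (Fintype.card F) x (S 0)) (fun i => S i.succ) h3
        (yw_mem (V := V.toSubring) h5 fun w j => hx _ _) (fun i => hi i.succ) j i l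

end val

end Pool.Agent.Q2.VI
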